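import Pool.Agent.MCG51.Surf

/-!
Three homomorphisms from the group `MM` to the automorphism group of the surface group.
-/

set_option autoImplicit false

namespace Pool.Agent.MCG51

theorem Pr_conj {H : Type*} [Group H] (c : ℕ → H) (v : H) (n : ℕ) :
    Pr (fun k => v⁻¹ * c k * v) n = v⁻¹ * Pr c n * v := by
  induction n with
  | zero => simp [Pr_zero]
  | succ n ih => rw [Pr_succ, Pr_succ, ih]; group

theorem av_ge {g k : ℕ} (h : g ≤ k) : av g k = 1 := dif_neg (by omega)
theorem bv_ge {g k : ℕ} (h : g ≤ k) : bv g k = 1 := dif_neg (by omega)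

theorem cm_conj {H : Type*} [Group H] (a b v : H) : cm (v⁻¹ * a * v) (v⁻¹ * b * v) = v⁻¹ * cm a b * v := by
  simp only [cm]; group

theorem map_cm {H K F : Type*} [Group H] [Group K] [FunLike F H K] [MonoidHomClass F H K] (f : F) (a b : H) :
    f (cm a b) = cm (f a) (f b) := by
  simp [cm]

theorem gw_eq : gw = gx * cm ga gb * cm gc gd := rfl

theorem left_mul (m n : MM) : (m * n).1.left = m.1.left * m.1.right n.1.left := rfl
theorem right_mul (m n : MM) (z : M) : (m * n).1.right z = m.1.right (n.1.right z) := rfl
theorem left_one : (1 : MM).1.left = 1 := rfl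
theorem right_one (z : M) : (1 : MM).1.right z = z := rfl
theorem right_gx (m : MM) : m.1.right gx = m.1.left⁻¹ * gx * m.1.left := m.2.1
theorem right_gw (m : MM) : m.1.right gw = gw := m.2.2

/-- `m.1.right` as a homomorphism. -/
def rh (m : MM) : M →* M := m.1.right.toMonoidHom

theorem rh_apply (m : MM) (z : M) : rh m z = m.1.right z := rfl

/-! ### The first family -/

/-- The embedding of the free group on `gx, ga, gb, gc, gd` at the handles `j`, `j + 1`. -/
def io (g j : ℕ) : M →* SG g := l5 (Pr (kap g) j) (av g j) (bv g j) (av g (j + 1)) (bv g (j + 1))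

theorem io_gw (g j : ℕ) : io g j gw = Pr (kap g) (j + 2) := by
  rw [gw_eq, map_mul, map_mul, map_cm, map_cm, Pr_succ, Pr_succ]
  simp [io, kap]

/-- Images of the `a_k`. -/
def al (g j : ℕ) (m : MM) (k : ℕ) : SG g :=
  if k < j then (io g j m.1.left)⁻¹ * av g k * io g j m.1.left
  else if k = j then io g j (m.1.right ga) else if k = j + 1 then io g j (m.1.right gc) else av g k

/-- Images of the `b_k`. -/
def be (g j : ℕ) (m : MM) (k : ℕ) : SG g :=
  if k < j then (io g j m.1.left)⁻¹ * bv g k * io g j m.1.left
  else if k = j then io g j (m.1.right gb) else if k = j + 1 then io g j (m.1.right gd) else bv g k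

theorem rel_aux {g j : ℕ} (m : MM) (n : ℕ) (hn : j + 2 ≤ n) :
    Pr (fun n => cm (al g j m n) (be g j m n)) n = Pr (kap g) n := by
  induction n, hn using Nat.le_induction with
  | base =>
    rw [Pr_succ, Pr_succ]
    have h1 : Pr (fun n => cm (al g j m n) (be g j m n)) j = (io g j m.1.left)⁻¹ * Pr (kap g) j * io g j m.1.left := by
      rw [← Pr_conj]
      apply Pr_congr
      intro k hk
      rw [al, be, if_pos hk, if_pos hk, cm_conj, kap]
    have h2 : Pr (kap g) j = io g j gx := by simp [io]
    rw [h1, ← io_gw, ← right_gw m, gw_eq, h2]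
    simp only [map_mul, map_inv, map_cm, right_gx, al, be, lt_irrefl, if_false, if_true,
      show ¬ (j + 1 < j) by omega, show ¬ (j + 1 = j) by omega]
  | succ n hn ih =>
    rw [Pr_succ, Pr_succ, ih]
    congr 1
    simp only [al, be, kap, show ¬ (n < j) by omega, show ¬ (n = j) by omega, show ¬ (n = j + 1) by omega, if_false]

/-- The endomorphism given by an element of `MM`. -/
def En {g j : ℕ} (hj : j + 2 ≤ g) (m : MM) : SG g →* SG g :=
  sgHom (al g j m) (be g j m) ((rel_aux m g hj).trans (Pr_kap g))

theorem En_a {g j : ℕ} (hj : j + 2 ≤ g) (m : MM) (k : ℕ) : En hj m (av g k) = al g j m k := by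
  by_cases hk : k < g
  · exact sgHom_a _ _ _ hk
  · rw [av_ge (by omega), map_one, al, if_neg (by omega), if_neg (by omega), if_neg (by omega), av_ge (by omega)]

theorem En_b {g j : ℕ} (hj : j + 2 ≤ g) (m : MM) (k : ℕ) : En hj m (bv g k) = be g j m k := by
  by_cases hk : k < g
  · exact sgHom_b _ _ _ hk
  · rw [bv_ge (by omega), map_one, be, if_neg (by omega), if_neg (by omega), if_neg (by omega), bv_ge (by omega)]

theorem En_Pr {g j : ℕ} (hj : j + 2 ≤ g) (m : MM) {n : ℕ} (hn : n ≤ j) :
    En hj m (Pr (kap g) n) = (io g j m.1.left)⁻¹ * Pr (kap g) n * io g j m.1.left := by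
  rw [map_Pr, ← Pr_conj]
  apply Pr_congr
  intro k hk
  rw [kap, map_cm, En_a, En_b, al, be, if_pos (by omega), if_pos (by omega), cm_conj]

theorem En_io {g j : ℕ} (hj : j + 2 ≤ g) (m : MM) (z : M) : En hj m (io g j z) = io g j (m.1.right z) := by
  have : (En hj m).comp (io g j) = (io g j).comp (rh m) := by
    apply hom_ext5
    · change En hj m (io g j gx) = io g j (m.1.right gx)
      rw [right_gx, map_mul, map_mul, map_inv]
      have : io g j gx = Pr (kap g) j := by simp [io]
      rw [this, En_Pr hj m le_rfl]
    · change En hj m (io g j ga) = io g j (m.1.right ga)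
      have : io g j ga = av g j := by simp [io]
      rw [this, En_a, al, if_neg (by omega), if_pos rfl]
    · change En hj m (io g j gb) = io g j (m.1.right gb)
      have : io g j gb = bv g j := by simp [io]
      rw [this, En_b, be, if_neg (by omega), if_pos rfl]
    · change En hj m (io g j gc) = io g j (m.1.right gc)
      have : io g j gc = av g (j + 1) := by simp [io]
      rw [this, En_a, al, if_neg (by omega), if_neg (by omega), if_pos rfl]
    · change En hj m (io g j gd) = io g j (m.1.right gd)
      have : io g j gd = bv g (j + 1) := by simp [io]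
      rw [this, En_b, be, if_neg (by omega), if_neg (by omega), if_pos rfl]
  exact DFunLike.congr_fun this z

theorem En_one {g j : ℕ} (hj : j + 2 ≤ g) : En hj (1 : MM) = MonoidHom.id (SG g) := by
  apply sg_ext
  intro n hn
  rw [En_a, En_b, al, be]
  simp only [left_one, right_one, map_one, inv_one, one_mul, mul_one, MonoidHom.id_apply]
  constructor
  · split_ifs with h1 h2 h3
    · rfl
    · subst h2; simp [io]
    · subst h3; simp [io]
    · rfl
  · split_ifs with h1 h2 h3
    · rfl
    · subst h2; simp [io]
    · subst h3; simp [io]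
    · rfl

theorem En_mul {g j : ℕ} (hj : j + 2 ≤ g) (m n : MM) : En hj (m * n) = (En hj m).comp (En hj n) := by
  apply sg_ext
  intro k hk
  rw [MonoidHom.comp_apply, MonoidHom.comp_apply, En_a, En_b, En_a, En_b]
  constructor
  · rw [al, al]
    split_ifs with h1 h2 h3
    · rw [map_mul, map_mul, map_inv, En_io, En_a, al, if_pos h1, left_mul, map_mul]
      group
    · rw [En_io, right_mul]
    · rw [En_io, right_mul]
    · rw [En_a, al, if_neg h1, if_neg h2, if_neg h3]
  · rw [be, be]
    split_ifs with h1 h2 h3
    · rw [map_mul, map_mul, map_inv, En_io, En_b, be, if_pos h1, left_mul, map_mul]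
      group
    · rw [En_io, right_mul]
    · rw [En_io, right_mul]
    · rw [En_b, be, if_neg h1, if_neg h2, if_neg h3]

/-- The homomorphism from `MM` at the handles `j`, `j + 1`. -/
def psi {g j : ℕ} (hj : j + 2 ≤ g) : MM →* MulAut (SG g) := autOfEnd (En hj) (En_one hj) (En_mul hj)

theorem psi_a {g j : ℕ} (hj : j + 2 ≤ g) (m : MM) (k : ℕ) : psi hj m (av g k) = al g j m k := En_a hj m k
theorem psi_b {g j : ℕ} (hj : j + 2 ≤ g) (m : MM) (k : ℕ) : psi hj m (bv g k) = be g j m k := En_b hj m k
theorem psi_io {g j : ℕ} (hj : j + 2 ≤ g) (m : MM) (z : M) : psi hj m (io g j z) = io g j (m.1.right z) :=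
  En_io hj m z
theorem psi_Pr {g j : ℕ} (hj : j + 2 ≤ g) (m : MM) {n : ℕ} (hn : n ≤ j) :
    psi hj m (Pr (kap g) n) = (io g j m.1.left)⁻¹ * Pr (kap g) n * io g j m.1.left := En_Pr hj m hn

theorem aut_ext {g : ℕ} {S T : MulAut (SG g)} (h : ∀ n < g, S (av g n) = T (av g n) ∧ S (bv g n) = T (bv g n)) :
    S = T := by
  have : S.toMonoidHom = T.toMonoidHom := sg_ext h
  apply MulEquiv.ext
  intro z
  exact DFunLike.congr_fun this z

/-- The two homomorphisms at the handles `j`, `j + 1` and `j + 2`, `j + 3` have commuting images. -/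
theorem psi_comm {g j : ℕ} (hj : j + 2 ≤ g) (hj' : (j + 2) + 2 ≤ g) (m n : MM) :
    psi hj m * psi hj' n = psi hj' n * psi hj m := by
  -- `psi hj m` fixes the image of `io g (j+2)`
  have h1 : ∀ z, psi hj m (io g (j + 2) z) = io g (j + 2) z := by
    intro z
    have : (psi hj m).toMonoidHom.comp (io g (j + 2)) = io g (j + 2) := by
      apply hom_ext5
      · change psi hj m (io g (j + 2) gx) = io g (j + 2) gx
        have : io g (j + 2) gx = io g j gw := by rw [io_gw]; simp [io]
        rw [this, psi_io, right_gw]
      · change psi hj m (io g (j + 2) ga) = io g (j + 2) ga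
        have : io g (j + 2) ga = av g (j + 2) := by simp [io]
        rw [this, psi_a, al, if_neg (by omega), if_neg (by omega), if_neg (by omega)]
      · change psi hj m (io g (j + 2) gb) = io g (j + 2) gb
        have : io g (j + 2) gb = bv g (j + 2) := by simp [io]
        rw [this, psi_b, be, if_neg (by omega), if_neg (by omega), if_neg (by omega)]
      · change psi hj m (io g (j + 2) gc) = io g (j + 2) gc
        have : io g (j + 2) gc = av g (j + 2 + 1) := by simp [io]
        rw [this, psi_a, al, if_neg (by omega), if_neg (by omega), if_neg (by omega)]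
      · change psi hj m (io g (j + 2) gd) = io g (j + 2) gd
        have : io g (j + 2) gd = bv g (j + 2 + 1) := by simp [io]
        rw [this, psi_b, be, if_neg (by omega), if_neg (by omega), if_neg (by omega)]
    exact DFunLike.congr_fun this z
  -- `psi hj' n` conjugates the image of `io g j`
  have h2 : ∀ z, psi hj' n (io g j z) = (io g (j + 2) n.1.left)⁻¹ * io g j z * io g (j + 2) n.1.left := by
    intro z
    have : (psi hj' n).toMonoidHom.comp (io g j) =
        (MulAut.conj (io g (j + 2) n.1.left)⁻¹).toMonoidHom.comp (io g j) := by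
      apply hom_ext5
      · change psi hj' n (io g j gx) = (io g (j + 2) n.1.left)⁻¹ * io g j gx * (io g (j + 2) n.1.left)⁻¹⁻¹
        have : io g j gx = Pr (kap g) j := by simp [io]
        rw [this, psi_Pr hj' n (by omega), inv_inv]
      · change psi hj' n (io g j ga) = (io g (j + 2) n.1.left)⁻¹ * io g j ga * (io g (j + 2) n.1.left)⁻¹⁻¹
        have : io g j ga = av g j := by simp [io]
        rw [this, psi_a, al, if_pos (by omega), inv_inv]
      · change psi hj' n (io g j gb) = (io g (j + 2) n.1.left)⁻¹ * io g j gb * (io g (j + 2) n.1.left)⁻¹⁻¹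
        have : io g j gb = bv g j := by simp [io]
        rw [this, psi_b, be, if_pos (by omega), inv_inv]
      · change psi hj' n (io g j gc) = (io g (j + 2) n.1.left)⁻¹ * io g j gc * (io g (j + 2) n.1.left)⁻¹⁻¹
        have : io g j gc = av g (j + 1) := by simp [io]
        rw [this, psi_a, al, if_pos (by omega), inv_inv]
      · change psi hj' n (io g j gd) = (io g (j + 2) n.1.left)⁻¹ * io g j gd * (io g (j + 2) n.1.left)⁻¹⁻¹
        have : io g j gd = bv g (j + 1) := by simp [io]
        rw [this, psi_b, be, if_pos (by omega), inv_inv]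
    have h3 := DFunLike.congr_fun this z
    have h4 : ((MulAut.conj (io g (j + 2) n.1.left)⁻¹).toMonoidHom.comp (io g j)) z =
        (io g (j + 2) n.1.left)⁻¹ * io g j z * (io g (j + 2) n.1.left)⁻¹⁻¹ := rfl
    rw [h4, inv_inv] at h3
    exact h3
  have ja : io g j ga = av g j := by simp [io]
  have jb : io g j gb = bv g j := by simp [io]
  have jc : io g j gc = av g (j + 1) := by simp [io]
  have jd : io g j gd = bv g (j + 1) := by simp [io]
  apply aut_ext
  intro k hk
  rw [MulAut.mul_apply, MulAut.mul_apply, MulAut.mul_apply, MulAut.mul_apply]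
  rw [psi_a hj' n, psi_b hj' n, psi_a hj m, psi_b hj m]
  by_cases k1 : k < j
  · constructor
    · rw [al, if_pos (show k < j + 2 by omega), al, if_pos k1]
      simp only [map_mul, map_inv, h1, h2, psi_a, al, if_pos k1, if_pos (show k < j + 2 by omega)]
      group
    · rw [be, if_pos (show k < j + 2 by omega), be, if_pos k1]
      simp only [map_mul, map_inv, h1, h2, psi_b, be, if_pos k1, if_pos (show k < j + 2 by omega)]
      group
  by_cases k2 : k = j
  · subst k2
    constructor
    · rw [al, if_pos (show k < k + 2 by omega), al, if_neg k1, if_pos rfl, h2, map_mul, map_mul, map_inv, h1,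
        psi_a, al, if_neg k1, if_pos rfl]
    · rw [be, if_pos (show k < k + 2 by omega), be, if_neg k1, if_pos rfl, h2, map_mul, map_mul, map_inv, h1,
        psi_b, be, if_neg k1, if_pos rfl]
  by_cases k3 : k = j + 1
  · subst k3
    constructor
    · rw [al, if_pos (show j + 1 < j + 2 by omega), al, if_neg k1, if_neg k2, if_pos rfl, h2, map_mul, map_mul,
        map_inv, h1, psi_a, al, if_neg k1, if_neg k2, if_pos rfl]
    · rw [be, if_pos (show j + 1 < j + 2 by omega), be, if_neg k1, if_neg k2, if_pos rfl, h2, map_mul, map_mul,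
        map_inv, h1, psi_b, be, if_neg k1, if_neg k2, if_pos rfl]
  · have e1 : al g j m k = av g k := by rw [al, if_neg k1, if_neg k2, if_neg k3]
    have e2 : be g j m k = bv g k := by rw [be, if_neg k1, if_neg k2, if_neg k3]
    rw [e1, e2, psi_a, psi_b]
    have k4 : ¬ (k < j + 2) := by omega
    constructor
    · rw [al, if_neg k4]
      split_ifs
      · rw [h1]
      · rw [h1]
      · rw [psi_a, e1]
    · rw [be, if_neg k4]
      split_ifs
      · rw [h1]
      · rw [h1]
      · rw [psi_b, e2]

end Pool.Agent.MCG51
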