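import Pool.Agent.MCG51.Act

/-!
Two further homomorphisms from the group `MM` to the automorphism group of the surface group of genus at least five.
-/

set_option autoImplicit false

namespace Pool.Agent.MCG51

/-! ### The right side: handles `3`, `4` and the curve `b_2 a_2⁻¹ b_2⁻¹` -/

/-- The embedding of the free group. -/
def ir (g : ℕ) : M →* SG g := l5 (bv g 2 * (av g 2)⁻¹ * (bv g 2)⁻¹) (av g 3) (bv g 3) (av g 4) (bv g 4)

/-- Images of the `a_k`. -/
def ar (g : ℕ) (m : MM) (k : ℕ) : SG g :=
  if k = 3 then ir g (m.1.right ga) else if k = 4 then ir g (m.1.right gc) else av g k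

/-- Images of the `b_k`. -/
def br (g : ℕ) (m : MM) (k : ℕ) : SG g :=
  if k = 2 then (ir g m.1.left)⁻¹ * bv g 2 else if k = 3 then ir g (m.1.right gb)
  else if k = 4 then ir g (m.1.right gd) else bv g k

theorem rel_r {g : ℕ} (m : MM) (n : ℕ) (hn : 5 ≤ n) :
    Pr (fun n => cm (ar g m n) (br g m n)) n = Pr (kap g) n := by
  induction n, hn using Nat.le_induction with
  | base =>
    have h1 : Pr (fun n => cm (ar g m n) (br g m n)) 5 =
        kap g 0 * kap g 1 * (av g 2 * (ir g m.1.left)⁻¹ * (bv g 2 * (av g 2)⁻¹ * (bv g 2)⁻¹) * ir g m.1.left) *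
          cm (ir g (m.1.right ga)) (ir g (m.1.right gb)) * cm (ir g (m.1.right gc)) (ir g (m.1.right gd)) := by
      simp only [Pr_succ, Pr_zero, ar, br, one_mul, kap]
      norm_num
      simp only [cm]
      group
    have h2 : bv g 2 * (av g 2)⁻¹ * (bv g 2)⁻¹ = ir g gx := by simp [ir]
    have h3 : ir g (m.1.right gw) = ir g gw := by rw [right_gw]
    rw [gw_eq] at h3
    simp only [map_mul, map_inv, map_cm, right_gx] at h3
    have h4 : Pr (kap g) 5 = kap g 0 * kap g 1 * av g 2 * (ir g gx * cm (ir g ga) (ir g gb) * cm (ir g gc) (ir g gd)) := by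
      simp only [Pr_succ, Pr_zero, one_mul, kap]
      simp only [ir, l5_x, l5_a, l5_b, l5_c, l5_d]
      simp only [cm]
      group
    rw [h1, h2, h4, ← h3]
    group
  | succ n hn ih =>
    rw [Pr_succ, Pr_succ, ih]
    congr 1
    simp only [ar, br, kap, show ¬ (n = 2) by omega, show ¬ (n = 3) by omega, show ¬ (n = 4) by omega, if_false]

/-- The endomorphism given by an element of `MM`. -/
def Er {g : ℕ} (hg : 5 ≤ g) (m : MM) : SG g →* SG g :=
  sgHom (ar g m) (br g m) ((rel_r m g hg).trans (Pr_kap g))

theorem Er_a {g : ℕ} (hg : 5 ≤ g) (m : MM) (k : ℕ) : Er hg m (av g k) = ar g m k := by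
  by_cases hk : k < g
  · exact sgHom_a _ _ _ hk
  · rw [av_ge (by omega), map_one, ar, if_neg (by omega), if_neg (by omega), av_ge (by omega)]

theorem Er_b {g : ℕ} (hg : 5 ≤ g) (m : MM) (k : ℕ) : Er hg m (bv g k) = br g m k := by
  by_cases hk : k < g
  · exact sgHom_b _ _ _ hk
  · rw [bv_ge (by omega), map_one, br, if_neg (by omega), if_neg (by omega), if_neg (by omega), bv_ge (by omega)]

theorem ir_a (g : ℕ) : ir g ga = av g 3 := by simp [ir]
theorem ir_b (g : ℕ) : ir g gb = bv g 3 := by simp [ir]
theorem ir_c (g : ℕ) : ir g gc = av g 4 := by simp [ir]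
theorem ir_d (g : ℕ) : ir g gd = bv g 4 := by simp [ir]
theorem ir_x (g : ℕ) : ir g gx = bv g 2 * (av g 2)⁻¹ * (bv g 2)⁻¹ := by simp [ir]

theorem Er_ir {g : ℕ} (hg : 5 ≤ g) (m : MM) (z : M) : Er hg m (ir g z) = ir g (m.1.right z) := by
  have : (Er hg m).comp (ir g) = (ir g).comp (rh m) := by
    apply hom_ext5
    · change Er hg m (ir g gx) = ir g (m.1.right gx)
      rw [right_gx, map_mul, map_mul, map_inv, ir_x]
      simp only [map_mul, map_inv, Er_a, Er_b, ar, br]
      norm_num
      group
    · change Er hg m (ir g ga) = ir g (m.1.right ga)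
      rw [ir_a, Er_a, ar, if_pos rfl]
    · change Er hg m (ir g gb) = ir g (m.1.right gb)
      rw [ir_b, Er_b, br, if_neg (by omega), if_pos rfl]
    · change Er hg m (ir g gc) = ir g (m.1.right gc)
      rw [ir_c, Er_a, ar, if_neg (by omega), if_pos rfl]
    · change Er hg m (ir g gd) = ir g (m.1.right gd)
      rw [ir_d, Er_b, br, if_neg (by omega), if_neg (by omega), if_pos rfl]
  exact DFunLike.congr_fun this z

theorem Er_one {g : ℕ} (hg : 5 ≤ g) : Er hg (1 : MM) = MonoidHom.id (SG g) := by
  apply sg_ext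
  intro n hn
  rw [Er_a, Er_b, ar, br]
  simp only [left_one, right_one, map_one, inv_one, one_mul, MonoidHom.id_apply]
  constructor
  · split_ifs with h1 h2
    · subst h1; exact ir_a g
    · subst h2; exact ir_c g
    · rfl
  · split_ifs with h1 h2 h3
    · subst h1; rfl
    · subst h2; exact ir_b g
    · subst h3; exact ir_d g
    · rfl

theorem Er_mul {g : ℕ} (hg : 5 ≤ g) (m n : MM) : Er hg (m * n) = (Er hg m).comp (Er hg n) := by
  apply sg_ext
  intro k hk
  rw [MonoidHom.comp_apply, MonoidHom.comp_apply, Er_a, Er_b, Er_a, Er_b]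
  constructor
  · rw [ar, ar]
    split_ifs with h1 h2
    · rw [Er_ir, right_mul]
    · rw [Er_ir, right_mul]
    · rw [Er_a, ar, if_neg h1, if_neg h2]
  · rw [br, br]
    split_ifs with h1 h2 h3
    · rw [map_mul, map_inv, Er_ir, Er_b, br, if_pos rfl, left_mul, map_mul]
      group
    · rw [Er_ir, right_mul]
    · rw [Er_ir, right_mul]
    · rw [Er_b, br, if_neg h1, if_neg h2, if_neg h3]

/-- The homomorphism from `MM` on the right side. -/
def psr {g : ℕ} (hg : 5 ≤ g) : MM →* MulAut (SG g) := autOfEnd (Er hg) (Er_one hg) (Er_mul hg)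

theorem psr_a {g : ℕ} (hg : 5 ≤ g) (m : MM) (k : ℕ) : psr hg m (av g k) = ar g m k := Er_a hg m k
theorem psr_b {g : ℕ} (hg : 5 ≤ g) (m : MM) (k : ℕ) : psr hg m (bv g k) = br g m k := Er_b hg m k
theorem psr_ir {g : ℕ} (hg : 5 ≤ g) (m : MM) (z : M) : psr hg m (ir g z) = ir g (m.1.right z) := Er_ir hg m z

/-! ### The left side: handles `1`, `0` and the curve `a_2⁻¹` -/

/-- The embedding of the free group. -/
def il (g : ℕ) : M →* SG g := l5 (av g 2)⁻¹ (bv g 1) (av g 1) (bv g 0) (av g 0)

theorem il_a (g : ℕ) : il g ga = bv g 1 := by simp [il]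
theorem il_b (g : ℕ) : il g gb = av g 1 := by simp [il]
theorem il_c (g : ℕ) : il g gc = bv g 0 := by simp [il]
theorem il_d (g : ℕ) : il g gd = av g 0 := by simp [il]
theorem il_x (g : ℕ) : il g gx = (av g 2)⁻¹ := by simp [il]

/-- Images of the `a_k`. -/
def aL (g : ℕ) (m : MM) (k : ℕ) : SG g :=
  if k = 2 then (il g m.1.left)⁻¹ * av g 2 * il g m.1.left
  else if k = 1 then il g (m.1.right gb) else if k = 0 then il g (m.1.right gd) else av g k

/-- Images of the `b_k`. -/
def bL (g : ℕ) (m : MM) (k : ℕ) : SG g :=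
  if k = 2 then bv g 2 * il g m.1.left else if k = 1 then il g (m.1.right ga)
  else if k = 0 then il g (m.1.right gc) else bv g k

theorem rel_l {g : ℕ} (m : MM) (n : ℕ) (hn : 3 ≤ n) :
    Pr (fun n => cm (aL g m n) (bL g m n)) n = Pr (kap g) n := by
  induction n, hn using Nat.le_induction with
  | base =>
    have h1 : Pr (fun n => cm (aL g m n) (bL g m n)) 3 =
        (((il g m.1.left)⁻¹ * (av g 2)⁻¹ * (il g m.1.left)) * cm (il g (m.1.right ga)) (il g (m.1.right gb)) *
          cm (il g (m.1.right gc)) (il g (m.1.right gd)))⁻¹ * (bv g 2 * (av g 2)⁻¹ * (bv g 2)⁻¹) := by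
      simp only [Pr_succ, Pr_zero, aL, bL, one_mul]
      norm_num
      simp only [cm]
      group
    have h2 : (av g 2)⁻¹ = il g gx := by simp [il]
    have h3 : il g (m.1.right gw) = il g gw := by rw [right_gw]
    rw [gw_eq] at h3
    simp only [map_mul, map_inv, map_cm, right_gx] at h3
    have h4 : Pr (kap g) 3 = (il g gx * cm (il g ga) (il g gb) * cm (il g gc) (il g gd))⁻¹ *
        (bv g 2 * (av g 2)⁻¹ * (bv g 2)⁻¹) := by
      simp only [Pr_succ, Pr_zero, one_mul, kap]
      simp only [il, l5_x, l5_a, l5_b, l5_c, l5_d]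
      simp only [cm]
      group
    rw [h1, h4, h2, h3]
  | succ n hn ih =>
    rw [Pr_succ, Pr_succ, ih]
    congr 1
    simp only [aL, bL, kap, show ¬ (n = 2) by omega, show ¬ (n = 1) by omega, show ¬ (n = 0) by omega, if_false]

/-- The endomorphism given by an element of `MM`. -/
def El {g : ℕ} (hg : 5 ≤ g) (m : MM) : SG g →* SG g :=
  sgHom (aL g m) (bL g m) ((rel_l m g (by omega)).trans (Pr_kap g))

theorem El_a {g : ℕ} (hg : 5 ≤ g) (m : MM) (k : ℕ) : El hg m (av g k) = aL g m k := by
  by_cases hk : k < g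
  · exact sgHom_a _ _ _ hk
  · rw [av_ge (by omega), map_one, aL, if_neg (by omega), if_neg (by omega), if_neg (by omega), av_ge (by omega)]

theorem El_b {g : ℕ} (hg : 5 ≤ g) (m : MM) (k : ℕ) : El hg m (bv g k) = bL g m k := by
  by_cases hk : k < g
  · exact sgHom_b _ _ _ hk
  · rw [bv_ge (by omega), map_one, bL, if_neg (by omega), if_neg (by omega), if_neg (by omega), bv_ge (by omega)]

theorem El_il {g : ℕ} (hg : 5 ≤ g) (m : MM) (z : M) : El hg m (il g z) = il g (m.1.right z) := by
  have : (El hg m).comp (il g) = (il g).comp (rh m) := by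
    apply hom_ext5
    · change El hg m (il g gx) = il g (m.1.right gx)
      rw [right_gx, map_mul, map_mul, map_inv, il_x]
      simp only [map_inv, El_a, aL]
      norm_num
      group
    · change El hg m (il g ga) = il g (m.1.right ga)
      rw [il_a, El_b, bL, if_neg (by omega), if_pos rfl]
    · change El hg m (il g gb) = il g (m.1.right gb)
      rw [il_b, El_a, aL, if_neg (by omega), if_pos rfl]
    · change El hg m (il g gc) = il g (m.1.right gc)
      rw [il_c, El_b, bL, if_neg (by omega), if_neg (by omega), if_pos rfl]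
    · change El hg m (il g gd) = il g (m.1.right gd)
      rw [il_d, El_a, aL, if_neg (by omega), if_neg (by omega), if_pos rfl]
  exact DFunLike.congr_fun this z

theorem El_one {g : ℕ} (hg : 5 ≤ g) : El hg (1 : MM) = MonoidHom.id (SG g) := by
  apply sg_ext
  intro n hn
  rw [El_a, El_b, aL, bL]
  simp only [left_one, right_one, map_one, inv_one, one_mul, mul_one, MonoidHom.id_apply]
  constructor
  · split_ifs with h1 h2 h3
    · subst h1; rfl
    · subst h2; exact il_b g
    · subst h3; exact il_d g
    · rfl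
  · split_ifs with h1 h2 h3
    · subst h1; rfl
    · subst h2; exact il_a g
    · subst h3; exact il_c g
    · rfl

theorem El_mul {g : ℕ} (hg : 5 ≤ g) (m n : MM) : El hg (m * n) = (El hg m).comp (El hg n) := by
  apply sg_ext
  intro k hk
  rw [MonoidHom.comp_apply, MonoidHom.comp_apply, El_a, El_b, El_a, El_b]
  constructor
  · rw [aL, aL]
    split_ifs with h1 h2 h3
    · rw [map_mul, map_mul, map_inv, El_il, El_a, aL, if_pos rfl, left_mul, map_mul]
      group
    · rw [El_il, right_mul]
    · rw [El_il, right_mul]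
    · rw [El_a, aL, if_neg h1, if_neg h2, if_neg h3]
  · rw [bL, bL]
    split_ifs with h1 h2 h3
    · rw [map_mul, El_il, El_b, bL, if_pos rfl, left_mul, map_mul]
      group
    · rw [El_il, right_mul]
    · rw [El_il, right_mul]
    · rw [El_b, bL, if_neg h1, if_neg h2, if_neg h3]

/-- The homomorphism from `MM` on the left side. -/
def psl {g : ℕ} (hg : 5 ≤ g) : MM →* MulAut (SG g) := autOfEnd (El hg) (El_one hg) (El_mul hg)

theorem psl_a {g : ℕ} (hg : 5 ≤ g) (m : MM) (k : ℕ) : psl hg m (av g k) = aL g m k := El_a hg m k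
theorem psl_b {g : ℕ} (hg : 5 ≤ g) (m : MM) (k : ℕ) : psl hg m (bv g k) = bL g m k := El_b hg m k
theorem psl_il {g : ℕ} (hg : 5 ≤ g) (m : MM) (z : M) : psl hg m (il g z) = il g (m.1.right z) := El_il hg m z

/-- The two images commute. -/
theorem ps_comm {g : ℕ} (hg : 5 ≤ g) (m n : MM) : psl hg m * psr hg n = psr hg n * psl hg m := by
  have h1 : ∀ z, psl hg m (ir g z) = ir g z := by
    intro z
    have : (psl hg m).toMonoidHom.comp (ir g) = ir g := by
      apply hom_ext5
      · change psl hg m (ir g gx) = ir g gx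
        rw [ir_x]
        simp only [map_mul, map_inv, psl_a, psl_b, aL, bL]
        norm_num
        group
      · change psl hg m (ir g ga) = ir g ga
        rw [ir_a, psl_a, aL, if_neg (by omega), if_neg (by omega), if_neg (by omega)]
      · change psl hg m (ir g gb) = ir g gb
        rw [ir_b, psl_b, bL, if_neg (by omega), if_neg (by omega), if_neg (by omega)]
      · change psl hg m (ir g gc) = ir g gc
        rw [ir_c, psl_a, aL, if_neg (by omega), if_neg (by omega), if_neg (by omega)]
      · change psl hg m (ir g gd) = ir g gd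
        rw [ir_d, psl_b, bL, if_neg (by omega), if_neg (by omega), if_neg (by omega)]
    exact DFunLike.congr_fun this z
  have h2 : ∀ z, psr hg n (il g z) = il g z := by
    intro z
    have : (psr hg n).toMonoidHom.comp (il g) = il g := by
      apply hom_ext5
      · change psr hg n (il g gx) = il g gx
        rw [il_x, map_inv, psr_a, ar, if_neg (by omega), if_neg (by omega)]
      · change psr hg n (il g ga) = il g ga
        rw [il_a, psr_b, br, if_neg (by omega), if_neg (by omega), if_neg (by omega)]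
      · change psr hg n (il g gb) = il g gb
        rw [il_b, psr_a, ar, if_neg (by omega), if_neg (by omega)]
      · change psr hg n (il g gc) = il g gc
        rw [il_c, psr_b, br, if_neg (by omega), if_neg (by omega), if_neg (by omega)]
      · change psr hg n (il g gd) = il g gd
        rw [il_d, psr_a, ar, if_neg (by omega), if_neg (by omega)]
    exact DFunLike.congr_fun this z
  apply aut_ext
  intro k hk
  rw [MulAut.mul_apply, MulAut.mul_apply, MulAut.mul_apply, MulAut.mul_apply]
  rw [psr_a, psr_b, psl_a, psl_b]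
  by_cases k2 : k = 2
  · subst k2
    constructor
    · rw [ar, if_neg (by omega), if_neg (by omega), aL, if_pos rfl]
      simp only [map_mul, map_inv, h2, psl_a, psr_a, ar, aL]
      norm_num
    · rw [br, if_pos rfl, bL, if_pos rfl]
      simp only [map_mul, map_inv, h1, h2, psl_b, psr_b, br, bL]
      norm_num
      group
  by_cases k1 : k = 1
  · subst k1
    constructor
    · rw [ar, if_neg (by omega), if_neg (by omega), psl_a, aL, if_neg k2, if_pos rfl, h2]
    · rw [br, if_neg (by omega), if_neg (by omega), if_neg (by omega), psl_b, bL, if_neg k2, if_pos rfl, h2]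
  by_cases k0 : k = 0
  · subst k0
    constructor
    · rw [ar, if_neg (by omega), if_neg (by omega), psl_a, aL, if_neg k2, if_neg k1, if_pos rfl, h2]
    · rw [br, if_neg (by omega), if_neg (by omega), if_neg (by omega), psl_b, bL, if_neg k2, if_neg k1, if_pos rfl, h2]
  have e1 : aL g m k = av g k := by rw [aL, if_neg k2, if_neg k1, if_neg k0]
  have e2 : bL g m k = bv g k := by rw [bL, if_neg k2, if_neg k1, if_neg k0]
  rw [e1, e2, psr_a, psr_b, ar, br, if_neg k2]
  constructor
  · split_ifs
    · rw [h1]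
    · rw [h1]
    · rw [psl_a, e1]
  · split_ifs
    · rw [h1]
    · rw [h1]
    · rw [psl_b, e2]

end Pool.Agent.MCG51
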