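import Mathlib

/-!
The group `MM` of the surface of genus two with two boundary components (acting on its fundamental group, the free
group on `gx, ga, gb, gc, gd`, where `gx` is the inner boundary and `gx [ga, gb] [gc, gd]` the outer boundary), and
explicit elements of it.
-/

set_option autoImplicit false

namespace Pool.Agent.MCG51

/-- The free group on five generators. -/
abbrev M := FreeGroup (Fin 5)

/-- generator `0` (the inner boundary) -/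
def gx : M := FreeGroup.of 0
/-- generator `1` -/
def ga : M := FreeGroup.of 1
/-- generator `2` -/
def gb : M := FreeGroup.of 2
/-- generator `3` -/
def gc : M := FreeGroup.of 3
/-- generator `4` -/
def gd : M := FreeGroup.of 4

/-- The outer boundary. -/
def gw : M := gx * (ga * gb * ga⁻¹ * gb⁻¹) * (gc * gd * gc⁻¹ * gd⁻¹)

/-- The homomorphism with given values on the generators. -/
def lf (x a b c d : M) : M →* M := FreeGroup.lift ![x, a, b, c, d]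

section
variable (x a b c d : M)
@[simp] theorem lf_x : lf x a b c d gx = x := by simp [lf, gx]
@[simp] theorem lf_a : lf x a b c d ga = a := by simp [lf, ga]
@[simp] theorem lf_b : lf x a b c d gb = b := by simp [lf, gb]
@[simp] theorem lf_c : lf x a b c d gc = c := by simp [lf, gc]
@[simp] theorem lf_d : lf x a b c d gd = d := by simp [lf, gd]
end

theorem hom_ext5 {H : Type*} [Group H] {f g : M →* H} (h0 : f gx = g gx) (h1 : f ga = g ga) (h2 : f gb = g gb)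
    (h3 : f gc = g gc) (h4 : f gd = g gd) : f = g := by
  ext i
  fin_cases i
  · exact h0
  · exact h1
  · exact h2
  · exact h3
  · exact h4

/-- An automorphism from two homomorphisms that are inverse to each other. -/
def mkAut (f g : M →* M) (h1 : ∀ z ∈ [gx, ga, gb, gc, gd], g (f z) = z)
    (h2 : ∀ z ∈ [gx, ga, gb, gc, gd], f (g z) = z) : MulAut M :=
  MonoidHom.toMulEquiv f g
    (hom_ext5 (h1 _ (by simp)) (h1 _ (by simp)) (h1 _ (by simp)) (h1 _ (by simp)) (h1 _ (by simp)))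
    (hom_ext5 (h2 _ (by simp)) (h2 _ (by simp)) (h2 _ (by simp)) (h2 _ (by simp)) (h2 _ (by simp)))

@[simp] theorem mkAut_apply (f g : M →* M) (h1) (h2) (z : M) : mkAut f g h1 h2 z = f z := rfl

/-- The group of the surface of genus two with an inner and an outer boundary component: pairs `(u, φ)`, `φ` an
automorphism of `M` that fixes the outer boundary `gw` and maps the inner boundary `gx` to `u⁻¹ gx u`. -/
def MM : Subgroup (M ⋊[MonoidHom.id (MulAut M)] MulAut M) where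
  carrier := {p | p.right gx = p.left⁻¹ * gx * p.left ∧ p.right gw = gw}
  one_mem' := by simp
  mul_mem' := by
    rintro ⟨u, φ⟩ ⟨v, ψ⟩ ⟨h1, h2⟩ ⟨h3, h4⟩
    simp only [] at h1 h2 h3 h4
    constructor
    · change φ (ψ gx) = (u * φ v)⁻¹ * gx * (u * φ v)
      rw [h3]
      simp only [map_mul, map_inv, h1]
      group
    · change φ (ψ gw) = gw
      rw [h4, h2]
  inv_mem' := by
    rintro ⟨u, φ⟩ ⟨h1, h2⟩
    simp only [] at h1 h2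
    constructor
    · change φ⁻¹ gx = (φ⁻¹ u⁻¹)⁻¹ * gx * φ⁻¹ u⁻¹
      apply φ.injective
      have e : ∀ z, φ (φ⁻¹ z) = z := fun z => φ.apply_symm_apply z
      simp only [map_mul, map_inv, e, h1]
      group
    · change φ⁻¹ gw = gw
      apply φ.injective
      have e : ∀ z, φ (φ⁻¹ z) = z := fun z => φ.apply_symm_apply z
      rw [e, h2]

/-- An element of `MM` from the conjugating word `w = u⁻¹` and an automorphism. -/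
def mk (w : M) (φ : MulAut M) (h1 : φ gx = w * gx * w⁻¹) (h2 : φ gw = gw) : MM :=
  ⟨⟨w⁻¹, φ⟩, by
    constructor
    · change φ gx = w⁻¹⁻¹ * gx * w⁻¹
      rw [h1, inv_inv]
    · exact h2⟩

theorem MM_ext {p q : MM} (h : p.1.left = q.1.left) (h0 : p.1.right gx = q.1.right gx)
    (h1 : p.1.right ga = q.1.right ga) (h2 : p.1.right gb = q.1.right gb)
    (h3 : p.1.right gc = q.1.right gc) (h4 : p.1.right gd = q.1.right gd) : p = q := by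
  apply Subtype.ext
  apply SemidirectProduct.ext h
  have : (p.1.right : M ≃* M).toMonoidHom = (q.1.right : M ≃* M).toMonoidHom := hom_ext5 h0 h1 h2 h3 h4
  apply MulEquiv.ext
  intro z
  exact DFunLike.congr_fun this z

/-- Dehn twist about the inner boundary. -/
def eE : MM := mk gx 1 (by simp) (by simp)

/-- Automorphism of the element `K1`. -/
def aK1 : MulAut M := mkAut
  (lf (gx) ((ga * gb * ga⁻¹ * gb⁻¹) * ga * (ga * gb * ga⁻¹ * gb⁻¹)⁻¹) ((ga * gb * ga⁻¹ * gb⁻¹) * gb * (ga * gb * ga⁻¹ * gb⁻¹)⁻¹) (gc) (gd))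
  (lf (gx) ((ga * gb * ga⁻¹ * gb⁻¹)⁻¹ * ga * (ga * gb * ga⁻¹ * gb⁻¹)) ((ga * gb * ga⁻¹ * gb⁻¹)⁻¹ * gb * (ga * gb * ga⁻¹ * gb⁻¹)) (gc) (gd))
  (by
    intro z hz
    simp only [List.mem_cons, List.not_mem_nil, or_false] at hz
    rcases hz with rfl | rfl | rfl | rfl | rfl <;> simp only [lf_x, lf_a, lf_b, lf_c, lf_d, map_mul, map_inv] <;> group)
  (by
    intro z hz
    simp only [List.mem_cons, List.not_mem_nil, or_false] at hz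
    rcases hz with rfl | rfl | rfl | rfl | rfl <;> simp only [lf_x, lf_a, lf_b, lf_c, lf_d, map_mul, map_inv] <;> group)

/-- The element `K1` of `MM`. -/
def eK1 : MM := mk (1) aK1
  (by simp only [aK1, mkAut_apply, lf_x, lf_a, lf_b, lf_c, lf_d, map_mul, map_inv] <;> group)
  (by simp only [aK1, mkAut_apply, gw, lf_x, lf_a, lf_b, lf_c, lf_d, map_mul, map_inv] <;> group)

/-- Automorphism of the element `K2`. -/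
def aK2 : MulAut M := mkAut
  (lf (gx) (ga) (gb) ((gc * gd * gc⁻¹ * gd⁻¹) * gc * (gc * gd * gc⁻¹ * gd⁻¹)⁻¹) ((gc * gd * gc⁻¹ * gd⁻¹) * gd * (gc * gd * gc⁻¹ * gd⁻¹)⁻¹))
  (lf (gx) (ga) (gb) ((gc * gd * gc⁻¹ * gd⁻¹)⁻¹ * gc * (gc * gd * gc⁻¹ * gd⁻¹)) ((gc * gd * gc⁻¹ * gd⁻¹)⁻¹ * gd * (gc * gd * gc⁻¹ * gd⁻¹)))
  (by
    intro z hz
    simp only [List.mem_cons, List.not_mem_nil, or_false] at hz
    rcases hz with rfl | rfl | rfl | rfl | rfl <;> simp only [lf_x, lf_a, lf_b, lf_c, lf_d, map_mul, map_inv] <;> group)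
  (by
    intro z hz
    simp only [List.mem_cons, List.not_mem_nil, or_false] at hz
    rcases hz with rfl | rfl | rfl | rfl | rfl <;> simp only [lf_x, lf_a, lf_b, lf_c, lf_d, map_mul, map_inv] <;> group)

/-- The element `K2` of `MM`. -/
def eK2 : MM := mk (1) aK2
  (by simp only [aK2, mkAut_apply, lf_x, lf_a, lf_b, lf_c, lf_d, map_mul, map_inv] <;> group)
  (by simp only [aK2, mkAut_apply, gw, lf_x, lf_a, lf_b, lf_c, lf_d, map_mul, map_inv] <;> group)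

/-- Automorphism of the element `D`. -/
def aD : MulAut M := mkAut
  (lf ((gx * (ga * gb * ga⁻¹ * gb⁻¹)) * gx * (gx * (ga * gb * ga⁻¹ * gb⁻¹))⁻¹) ((gx * (ga * gb * ga⁻¹ * gb⁻¹)) * ga * (gx * (ga * gb * ga⁻¹ * gb⁻¹))⁻¹) ((gx * (ga * gb * ga⁻¹ * gb⁻¹)) * gb * (gx * (ga * gb * ga⁻¹ * gb⁻¹))⁻¹) (gc) (gd))
  (lf ((gx * (ga * gb * ga⁻¹ * gb⁻¹))⁻¹ * gx * (gx * (ga * gb * ga⁻¹ * gb⁻¹))) ((gx * (ga * gb * ga⁻¹ * gb⁻¹))⁻¹ * ga * (gx * (ga * gb * ga⁻¹ * gb⁻¹))) ((gx * (ga * gb * ga⁻¹ * gb⁻¹))⁻¹ * gb * (gx * (ga * gb * ga⁻¹ * gb⁻¹))) (gc) (gd))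
  (by
    intro z hz
    simp only [List.mem_cons, List.not_mem_nil, or_false] at hz
    rcases hz with rfl | rfl | rfl | rfl | rfl <;> simp only [lf_x, lf_a, lf_b, lf_c, lf_d, map_mul, map_inv] <;> group)
  (by
    intro z hz
    simp only [List.mem_cons, List.not_mem_nil, or_false] at hz
    rcases hz with rfl | rfl | rfl | rfl | rfl <;> simp only [lf_x, lf_a, lf_b, lf_c, lf_d, map_mul, map_inv] <;> group)

/-- The element `D` of `MM`. -/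
def eD : MM := mk ((gx * (ga * gb * ga⁻¹ * gb⁻¹))) aD
  (by simp only [aD, mkAut_apply, lf_x, lf_a, lf_b, lf_c, lf_d, map_mul, map_inv] <;> group)
  (by simp only [aD, mkAut_apply, gw, lf_x, lf_a, lf_b, lf_c, lf_d, map_mul, map_inv] <;> group)

/-- Automorphism of the element `F`. -/
def aF : MulAut M := mkAut
  (lf (gx) (((ga * gb * ga⁻¹ * gb⁻¹) * (gc * gd * gc⁻¹ * gd⁻¹)) * ga * ((ga * gb * ga⁻¹ * gb⁻¹) * (gc * gd * gc⁻¹ * gd⁻¹))⁻¹) (((ga * gb * ga⁻¹ * gb⁻¹) * (gc * gd * gc⁻¹ * gd⁻¹)) * gb * ((ga * gb * ga⁻¹ * gb⁻¹) * (gc * gd * gc⁻¹ * gd⁻¹))⁻¹) (((ga * gb * ga⁻¹ * gb⁻¹) * (gc * gd * gc⁻¹ * gd⁻¹)) * gc * ((ga * gb * ga⁻¹ * gb⁻¹) * (gc * gd * gc⁻¹ * gd⁻¹))⁻¹) (((ga * gb * ga⁻¹ * gb⁻¹) * (gc * gd * gc⁻¹ * gd⁻¹)) * gd * ((ga * gb * ga⁻¹ * gb⁻¹) * (gc * gd * gc⁻¹ * gd⁻¹))⁻¹))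
  (lf (gx) (((ga * gb * ga⁻¹ * gb⁻¹) * (gc * gd * gc⁻¹ * gd⁻¹))⁻¹ * ga * ((ga * gb * ga⁻¹ * gb⁻¹) * (gc * gd * gc⁻¹ * gd⁻¹))) (((ga * gb * ga⁻¹ * gb⁻¹) * (gc * gd * gc⁻¹ * gd⁻¹))⁻¹ * gb * ((ga * gb * ga⁻¹ * gb⁻¹) * (gc * gd * gc⁻¹ * gd⁻¹))) (((ga * gb * ga⁻¹ * gb⁻¹) * (gc * gd * gc⁻¹ * gd⁻¹))⁻¹ * gc * ((ga * gb * ga⁻¹ * gb⁻¹) * (gc * gd * gc⁻¹ * gd⁻¹))) (((ga * gb * ga⁻¹ * gb⁻¹) * (gc * gd * gc⁻¹ * gd⁻¹))⁻¹ * gd * ((ga * gb * ga⁻¹ * gb⁻¹) * (gc * gd * gc⁻¹ * gd⁻¹))))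
  (by
    intro z hz
    simp only [List.mem_cons, List.not_mem_nil, or_false] at hz
    rcases hz with rfl | rfl | rfl | rfl | rfl <;> simp only [lf_x, lf_a, lf_b, lf_c, lf_d, map_mul, map_inv] <;> group)
  (by
    intro z hz
    simp only [List.mem_cons, List.not_mem_nil, or_false] at hz
    rcases hz with rfl | rfl | rfl | rfl | rfl <;> simp only [lf_x, lf_a, lf_b, lf_c, lf_d, map_mul, map_inv] <;> group)

/-- The element `F` of `MM`. -/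
def eF : MM := mk (1) aF
  (by simp only [aF, mkAut_apply, lf_x, lf_a, lf_b, lf_c, lf_d, map_mul, map_inv] <;> group)
  (by simp only [aF, mkAut_apply, gw, lf_x, lf_a, lf_b, lf_c, lf_d, map_mul, map_inv] <;> group)

/-- Automorphism of the element `C`. -/
def aC : MulAut M := mkAut
  (lf ((gx * (ga * gb * ga⁻¹ * gb⁻¹) * (gc * gd * gc⁻¹ * gd⁻¹)) * gx * (gx * (ga * gb * ga⁻¹ * gb⁻¹) * (gc * gd * gc⁻¹ * gd⁻¹))⁻¹) ((gx * (ga * gb * ga⁻¹ * gb⁻¹) * (gc * gd * gc⁻¹ * gd⁻¹)) * ga * (gx * (ga * gb * ga⁻¹ * gb⁻¹) * (gc * gd * gc⁻¹ * gd⁻¹))⁻¹) ((gx * (ga * gb * ga⁻¹ * gb⁻¹) * (gc * gd * gc⁻¹ * gd⁻¹)) * gb * (gx * (ga * gb * ga⁻¹ * gb⁻¹) * (gc * gd * gc⁻¹ * gd⁻¹))⁻¹) ((gx * (ga * gb * ga⁻¹ * gb⁻¹) * (gc * gd * gc⁻¹ * gd⁻¹)) * gc * (gx * (ga * gb * ga⁻¹ * gb⁻¹) * (gc * gd * gc⁻¹ * gd⁻¹))⁻¹) ((gx * (ga * gb * ga⁻¹ * gb⁻¹) * (gc * gd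 * gc⁻¹ * gd⁻¹)) * gd * (gx * (ga * gb * ga⁻¹ * gb⁻¹) * (gc * gd * gc⁻¹ * gd⁻¹))⁻¹))
  (lf ((gx * (ga * gb * ga⁻¹ * gb⁻¹) * (gc * gd * gc⁻¹ * gd⁻¹))⁻¹ * gx * (gx * (ga * gb * ga⁻¹ * gb⁻¹) * (gc * gd * gc⁻¹ * gd⁻¹))) ((gx * (ga * gb * ga⁻¹ * gb⁻¹) * (gc * gd * gc⁻¹ * gd⁻¹))⁻¹ * ga * (gx * (ga * gb * ga⁻¹ * gb⁻¹) * (gc * gd * gc⁻¹ * gd⁻¹))) ((gx * (ga * gb * ga⁻¹ * gb⁻¹) * (gc * gd * gc⁻¹ * gd⁻¹))⁻¹ * gb * (gx * (ga * gb * ga⁻¹ * gb⁻¹) * (gc * gd * gc⁻¹ * gd⁻¹))) ((gx * (ga * gb * ga⁻¹ * gb⁻¹) * (gc * gd * gc⁻¹ * gd⁻¹))⁻¹ * gc * (gx * (ga * gb * ga⁻¹ * gb⁻¹) * (gc * gd * gc⁻¹ * gd⁻¹))) ((gx * (ga * gb * ga⁻¹ * gb⁻¹) * (gc * gd * gc⁻¹ * gd⁻¹))⁻¹ * gd * (gx * (ga * gb * ga⁻¹ * gb⁻¹) * (gc * gd * gc⁻¹ * gd⁻¹))))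
  (by
    intro z hz
    simp only [List.mem_cons, List.not_mem_nil, or_false] at hz
    rcases hz with rfl | rfl | rfl | rfl | rfl <;> simp only [lf_x, lf_a, lf_b, lf_c, lf_d, map_mul, map_inv] <;> group)
  (by
    intro z hz
    simp only [List.mem_cons, List.not_mem_nil, or_false] at hz
    rcases hz with rfl | rfl | rfl | rfl | rfl <;> simp only [lf_x, lf_a, lf_b, lf_c, lf_d, map_mul, map_inv] <;> group)

/-- The element `C` of `MM`. -/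
def eC : MM := mk ((gx * (ga * gb * ga⁻¹ * gb⁻¹) * (gc * gd * gc⁻¹ * gd⁻¹))) aC
  (by simp only [aC, mkAut_apply, lf_x, lf_a, lf_b, lf_c, lf_d, map_mul, map_inv] <;> group)
  (by simp only [aC, mkAut_apply, gw, lf_x, lf_a, lf_b, lf_c, lf_d, map_mul, map_inv] <;> group)

/-- Automorphism of the element `Ra1`. -/
def aRa1 : MulAut M := mkAut
  (lf ((ga * (ga * gb * ga⁻¹ * gb⁻¹)⁻¹ * gx⁻¹) * gx * (ga * (ga * gb * ga⁻¹ * gb⁻¹)⁻¹ * gx⁻¹)⁻¹) (ga) ((ga * gb * ga⁻¹ * gb⁻¹)⁻¹ * gx⁻¹ * (ga * gb * ga⁻¹ * gb⁻¹) * gb) (gc) (gd))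
  (lf ((gx * (ga * gb * ga⁻¹ * gb⁻¹) * ga⁻¹) * gx * (gx * (ga * gb * ga⁻¹ * gb⁻¹) * ga⁻¹)⁻¹) (ga) (ga⁻¹ * gx * ga * gb) (gc) (gd))
  (by
    intro z hz
    simp only [List.mem_cons, List.not_mem_nil, or_false] at hz
    rcases hz with rfl | rfl | rfl | rfl | rfl <;> simp only [lf_x, lf_a, lf_b, lf_c, lf_d, map_mul, map_inv] <;> group)
  (by
    intro z hz
    simp only [List.mem_cons, List.not_mem_nil, or_false] at hz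
    rcases hz with rfl | rfl | rfl | rfl | rfl <;> simp only [lf_x, lf_a, lf_b, lf_c, lf_d, map_mul, map_inv] <;> group)

/-- The element `Ra1` of `MM`. -/
def eRa1 : MM := mk ((ga * (ga * gb * ga⁻¹ * gb⁻¹)⁻¹ * gx⁻¹)) aRa1
  (by simp only [aRa1, mkAut_apply, lf_x, lf_a, lf_b, lf_c, lf_d, map_mul, map_inv] <;> group)
  (by simp only [aRa1, mkAut_apply, gw, lf_x, lf_a, lf_b, lf_c, lf_d, map_mul, map_inv] <;> group)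

/-- Automorphism of the element `Rb1`. -/
def aRb1 : MulAut M := mkAut
  (lf ((gx * ga * gb * ga⁻¹ * gx⁻¹) * gx * (gx * ga * gb * ga⁻¹ * gx⁻¹)⁻¹) (gx * ga) (gb) (gc) (gd))
  (lf ((ga * gb⁻¹ * ga⁻¹) * gx * (ga * gb⁻¹ * ga⁻¹)⁻¹) (ga * gb⁻¹ * ga⁻¹ * gx⁻¹ * ga * gb) (gb) (gc) (gd))
  (by
    intro z hz
    simp only [List.mem_cons, List.not_mem_nil, or_false] at hz
    rcases hz with rfl | rfl | rfl | rfl | rfl <;> simp only [lf_x, lf_a, lf_b, lf_c, lf_d, map_mul, map_inv] <;> group)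
  (by
    intro z hz
    simp only [List.mem_cons, List.not_mem_nil, or_false] at hz
    rcases hz with rfl | rfl | rfl | rfl | rfl <;> simp only [lf_x, lf_a, lf_b, lf_c, lf_d, map_mul, map_inv] <;> group)

/-- The element `Rb1` of `MM`. -/
def eRb1 : MM := mk ((gx * ga * gb * ga⁻¹ * gx⁻¹)) aRb1
  (by simp only [aRb1, mkAut_apply, lf_x, lf_a, lf_b, lf_c, lf_d, map_mul, map_inv] <;> group)
  (by simp only [aRb1, mkAut_apply, gw, lf_x, lf_a, lf_b, lf_c, lf_d, map_mul, map_inv] <;> group)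

/-- Automorphism of the element `Ra2`. -/
def aRa2 : MulAut M := mkAut
  (lf ((gc * (gc * gd * gc⁻¹ * gd⁻¹)⁻¹ * (gx * (ga * gb * ga⁻¹ * gb⁻¹))⁻¹) * gx * (gc * (gc * gd * gc⁻¹ * gd⁻¹)⁻¹ * (gx * (ga * gb * ga⁻¹ * gb⁻¹))⁻¹)⁻¹) ((gc * (gc * gd * gc⁻¹ * gd⁻¹)⁻¹ * (gx * (ga * gb * ga⁻¹ * gb⁻¹))⁻¹) * ga * (gc * (gc * gd * gc⁻¹ * gd⁻¹)⁻¹ * (gx * (ga * gb * ga⁻¹ * gb⁻¹))⁻¹)⁻¹) ((gc * (gc * gd * gc⁻¹ * gd⁻¹)⁻¹ * (gx * (ga * gb * ga⁻¹ * gb⁻¹))⁻¹) * gb * (gc * (gc * gd * gc⁻¹ * gd⁻¹)⁻¹ * (gx * (ga * gb * ga⁻¹ * gb⁻¹))⁻¹)⁻¹) (gc) ((gc * gd * gc⁻¹ * gd⁻¹)⁻¹ * (gx * (ga * gb * ga⁻¹ * gb⁻¹))⁻¹ * (gc * gd * gc⁻¹ * gd⁻¹) * gd))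
  (lf (((gx * (ga * gb * ga⁻¹ * gb⁻¹)) * (gc * gd * gc⁻¹ * gd⁻¹) * gc⁻¹) * gx * ((gx * (ga * gb * ga⁻¹ * gb⁻¹)) * (gc * gd * gc⁻¹ * gd⁻¹) * gc⁻¹)⁻¹) (((gx * (ga * gb * ga⁻¹ * gb⁻¹)) * (gc * gd * gc⁻¹ * gd⁻¹) * gc⁻¹) * ga * ((gx * (ga * gb * ga⁻¹ * gb⁻¹)) * (gc * gd * gc⁻¹ * gd⁻¹) * gc⁻¹)⁻¹) (((gx * (ga * gb * ga⁻¹ * gb⁻¹)) * (gc * gd * gc⁻¹ * gd⁻¹) * gc⁻¹) * gb * ((gx * (ga * gb * ga⁻¹ * gb⁻¹)) * (gc * gd * gc⁻¹ * gd⁻¹) * gc⁻¹)⁻¹) (gc) (gc⁻¹ * (gx * (ga * gb * ga⁻¹ * gb⁻¹)) * gc * gd))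
  (by
    intro z hz
    simp only [List.mem_cons, List.not_mem_nil, or_false] at hz
    rcases hz with rfl | rfl | rfl | rfl | rfl <;> simp only [lf_x, lf_a, lf_b, lf_c, lf_d, map_mul, map_inv] <;> group)
  (by
    intro z hz
    simp only [List.mem_cons, List.not_mem_nil, or_false] at hz
    rcases hz with rfl | rfl | rfl | rfl | rfl <;> simp only [lf_x, lf_a, lf_b, lf_c, lf_d, map_mul, map_inv] <;> group)

/-- The element `Ra2` of `MM`. -/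
def eRa2 : MM := mk ((gc * (gc * gd * gc⁻¹ * gd⁻¹)⁻¹ * (gx * (ga * gb * ga⁻¹ * gb⁻¹))⁻¹)) aRa2
  (by simp only [aRa2, mkAut_apply, lf_x, lf_a, lf_b, lf_c, lf_d, map_mul, map_inv] <;> group)
  (by simp only [aRa2, mkAut_apply, gw, lf_x, lf_a, lf_b, lf_c, lf_d, map_mul, map_inv] <;> group)

/-- Automorphism of the element `Rb2`. -/
def aRb2 : MulAut M := mkAut
  (lf (((gx * (ga * gb * ga⁻¹ * gb⁻¹)) * gc * gd * gc⁻¹ * (gx * (ga * gb * ga⁻¹ * gb⁻¹))⁻¹) * gx * ((gx * (ga * gb * ga⁻¹ * gb⁻¹)) * gc * gd * gc⁻¹ * (gx * (ga * gb * ga⁻¹ * gb⁻¹))⁻¹)⁻¹) (((gx * (ga * gb * ga⁻¹ * gb⁻¹)) * gc * gd * gc⁻¹ * (gx * (ga * gb * ga⁻¹ * gb⁻¹))⁻¹) * ga * ((gx * (ga * gb * ga⁻¹ * gb⁻¹)) * gc * gd * gc⁻¹ * (gx * (ga * gb * ga⁻¹ * gb⁻¹))⁻¹)⁻¹) (((gx * (ga * gb * ga⁻¹ * gb⁻¹)) * gc * gd * gc⁻¹ * (gx * (ga * gb * ga⁻¹ * gb⁻¹))⁻¹) * gb * ((gx * (ga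 * gb * ga⁻¹ * gb⁻¹)) * gc * gd * gc⁻¹ * (gx * (ga * gb * ga⁻¹ * gb⁻¹))⁻¹)⁻¹) ((gx * (ga * gb * ga⁻¹ * gb⁻¹)) * gc) (gd))
  (lf ((gc * gd⁻¹ * gc⁻¹) * gx * (gc * gd⁻¹ * gc⁻¹)⁻¹) ((gc * gd⁻¹ * gc⁻¹) * ga * (gc * gd⁻¹ * gc⁻¹)⁻¹) ((gc * gd⁻¹ * gc⁻¹) * gb * (gc * gd⁻¹ * gc⁻¹)⁻¹) (gc * gd⁻¹ * gc⁻¹ * (gx * (ga * gb * ga⁻¹ * gb⁻¹))⁻¹ * gc * gd) (gd))
  (by
    intro z hz
    simp only [List.mem_cons, List.not_mem_nil, or_false] at hz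
    rcases hz with rfl | rfl | rfl | rfl | rfl <;> simp only [lf_x, lf_a, lf_b, lf_c, lf_d, map_mul, map_inv] <;> group)
  (by
    intro z hz
    simp only [List.mem_cons, List.not_mem_nil, or_false] at hz
    rcases hz with rfl | rfl | rfl | rfl | rfl <;> simp only [lf_x, lf_a, lf_b, lf_c, lf_d, map_mul, map_inv] <;> group)

/-- The element `Rb2` of `MM`. -/
def eRb2 : MM := mk (((gx * (ga * gb * ga⁻¹ * gb⁻¹)) * gc * gd * gc⁻¹ * (gx * (ga * gb * ga⁻¹ * gb⁻¹))⁻¹)) aRb2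
  (by simp only [aRb2, mkAut_apply, lf_x, lf_a, lf_b, lf_c, lf_d, map_mul, map_inv] <;> group)
  (by simp only [aRb2, mkAut_apply, gw, lf_x, lf_a, lf_b, lf_c, lf_d, map_mul, map_inv] <;> group)

/-- Automorphism of the element `Ra3`. -/
def aRa3 : MulAut M := mkAut
  (lf (gx) ((gc * (gc * gd * gc⁻¹ * gd⁻¹)⁻¹ * (ga * gb * ga⁻¹ * gb⁻¹)⁻¹) * ga * (gc * (gc * gd * gc⁻¹ * gd⁻¹)⁻¹ * (ga * gb * ga⁻¹ * gb⁻¹)⁻¹)⁻¹) ((gc * (gc * gd * gc⁻¹ * gd⁻¹)⁻¹ * (ga * gb * ga⁻¹ * gb⁻¹)⁻¹) * gb * (gc * (gc * gd * gc⁻¹ * gd⁻¹)⁻¹ * (ga * gb * ga⁻¹ * gb⁻¹)⁻¹)⁻¹) (gc) ((gc * gd * gc⁻¹ * gd⁻¹)⁻¹ * (ga * gb * ga⁻¹ * gb⁻¹)⁻¹ * (gc * gd * gc⁻¹ * gd⁻¹) * gd))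
  (lf (gx) (((ga * gb * ga⁻¹ * gb⁻¹) * (gc * gd * gc⁻¹ * gd⁻¹) * gc⁻¹) * ga * ((ga * gb * ga⁻¹ * gb⁻¹) * (gc * gd * gc⁻¹ * gd⁻¹) * gc⁻¹)⁻¹) (((ga * gb * ga⁻¹ * gb⁻¹) * (gc * gd * gc⁻¹ * gd⁻¹) * gc⁻¹) * gb * ((ga * gb * ga⁻¹ * gb⁻¹) * (gc * gd * gc⁻¹ * gd⁻¹) * gc⁻¹)⁻¹) (gc) (gc⁻¹ * (ga * gb * ga⁻¹ * gb⁻¹) * gc * gd))
  (by
    intro z hz
    simp only [List.mem_cons, List.not_mem_nil, or_false] at hz
    rcases hz with rfl | rfl | rfl | rfl | rfl <;> simp only [lf_x, lf_a, lf_b, lf_c, lf_d, map_mul, map_inv] <;> group)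
  (by
    intro z hz
    simp only [List.mem_cons, List.not_mem_nil, or_false] at hz
    rcases hz with rfl | rfl | rfl | rfl | rfl <;> simp only [lf_x, lf_a, lf_b, lf_c, lf_d, map_mul, map_inv] <;> group)

/-- The element `Ra3` of `MM`. -/
def eRa3 : MM := mk (1) aRa3
  (by simp only [aRa3, mkAut_apply, lf_x, lf_a, lf_b, lf_c, lf_d, map_mul, map_inv] <;> group)
  (by simp only [aRa3, mkAut_apply, gw, lf_x, lf_a, lf_b, lf_c, lf_d, map_mul, map_inv] <;> group)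

/-- Automorphism of the element `Rb3`. -/
def aRb3 : MulAut M := mkAut
  (lf (gx) (((ga * gb * ga⁻¹ * gb⁻¹) * gc * gd * gc⁻¹ * (ga * gb * ga⁻¹ * gb⁻¹)⁻¹) * ga * ((ga * gb * ga⁻¹ * gb⁻¹) * gc * gd * gc⁻¹ * (ga * gb * ga⁻¹ * gb⁻¹)⁻¹)⁻¹) (((ga * gb * ga⁻¹ * gb⁻¹) * gc * gd * gc⁻¹ * (ga * gb * ga⁻¹ * gb⁻¹)⁻¹) * gb * ((ga * gb * ga⁻¹ * gb⁻¹) * gc * gd * gc⁻¹ * (ga * gb * ga⁻¹ * gb⁻¹)⁻¹)⁻¹) ((ga * gb * ga⁻¹ * gb⁻¹) * gc) (gd))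
  (lf (gx) ((gc * gd⁻¹ * gc⁻¹) * ga * (gc * gd⁻¹ * gc⁻¹)⁻¹) ((gc * gd⁻¹ * gc⁻¹) * gb * (gc * gd⁻¹ * gc⁻¹)⁻¹) (gc * gd⁻¹ * gc⁻¹ * (ga * gb * ga⁻¹ * gb⁻¹)⁻¹ * gc * gd) (gd))
  (by
    intro z hz
    simp only [List.mem_cons, List.not_mem_nil, or_false] at hz
    rcases hz with rfl | rfl | rfl | rfl | rfl <;> simp only [lf_x, lf_a, lf_b, lf_c, lf_d, map_mul, map_inv] <;> group)
  (by
    intro z hz
    simp only [List.mem_cons, List.not_mem_nil, or_false] at hz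
    rcases hz with rfl | rfl | rfl | rfl | rfl <;> simp only [lf_x, lf_a, lf_b, lf_c, lf_d, map_mul, map_inv] <;> group)

/-- The element `Rb3` of `MM`. -/
def eRb3 : MM := mk (1) aRb3
  (by simp only [aRb3, mkAut_apply, lf_x, lf_a, lf_b, lf_c, lf_d, map_mul, map_inv] <;> group)
  (by simp only [aRb3, mkAut_apply, gw, lf_x, lf_a, lf_b, lf_c, lf_d, map_mul, map_inv] <;> group)

/-- Automorphism of the element `S`. -/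
def aS : MulAut M := mkAut
  (lf (gx) ((ga * gb * ga⁻¹ * gb⁻¹) * gc * (ga * gb * ga⁻¹ * gb⁻¹)⁻¹) ((ga * gb * ga⁻¹ * gb⁻¹) * gd * (ga * gb * ga⁻¹ * gb⁻¹)⁻¹) (ga) (gb))
  (lf (gx) (gc) (gd) ((gc * gd * gc⁻¹ * gd⁻¹)⁻¹ * ga * (gc * gd * gc⁻¹ * gd⁻¹)) ((gc * gd * gc⁻¹ * gd⁻¹)⁻¹ * gb * (gc * gd * gc⁻¹ * gd⁻¹)))
  (by
    intro z hz
    simp only [List.mem_cons, List.not_mem_nil, or_false] at hz
    rcases hz with rfl | rfl | rfl | rfl | rfl <;> simp only [lf_x, lf_a, lf_b, lf_c, lf_d, map_mul, map_inv] <;> group)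
  (by
    intro z hz
    simp only [List.mem_cons, List.not_mem_nil, or_false] at hz
    rcases hz with rfl | rfl | rfl | rfl | rfl <;> simp only [lf_x, lf_a, lf_b, lf_c, lf_d, map_mul, map_inv] <;> group)

/-- The element `S` of `MM`. -/
def eS : MM := mk (1) aS
  (by simp only [aS, mkAut_apply, lf_x, lf_a, lf_b, lf_c, lf_d, map_mul, map_inv] <;> group)
  (by simp only [aS, mkAut_apply, gw, lf_x, lf_a, lf_b, lf_c, lf_d, map_mul, map_inv] <;> group)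

end Pool.Agent.MCG51
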