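import Mathlib

/-!
# Lifts of homeomorphisms of the circle
-/

namespace Pool.Agent.MCG51

open Topology Set

abbrev S1 := AddCircle (1 : ℝ)

/-- `h` is a lift of `g` to the line. -/
def IsLift (g : S1 ≃ₜ S1) (h : ℝ ≃ₜ ℝ) : Prop := ∀ x : ℝ, ((h x : ℝ) : S1) = g (x : S1)

theorem coe_covering : IsCoveringMap ((↑) : ℝ → S1) := AddCircle.isCoveringMap_coe (1 : ℝ)

theorem coe_eq_iff (x y : ℝ) : (x : S1) = (y : S1) ↔ ∃ n : ℤ, x = y + n := by
  rw [← sub_eq_zero, ← AddCircle.coe_sub, AddCircle.coe_eq_zero_iff]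
  constructor
  · rintro ⟨n, hn⟩
    refine ⟨n, ?_⟩
    rw [zsmul_eq_mul, mul_one] at hn
    rw [hn]
    ring
  · rintro ⟨n, hn⟩
    refine ⟨n, ?_⟩
    rw [zsmul_eq_mul, mul_one, hn]
    ring

theorem coe_add_one (x : ℝ) : ((x + 1 : ℝ) : S1) = (x : S1) :=
  (coe_eq_iff _ _).mpr ⟨1, by simp⟩

/-- Continuous lifts. -/
theorem exists_cont_lift (g : S1 ≃ₜ S1) (a e : ℝ) (he : (e : S1) = g (a : S1)) :
    ∃ F : ℝ → ℝ, Continuous F ∧ F a = e ∧ ∀ x : ℝ, ((F x : ℝ) : S1) = g (x : S1) := by
  obtain ⟨F, ⟨h1, h2⟩, -⟩ := coe_covering.existsUnique_continuousMap_lifts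
    (⟨fun x : ℝ => g (x : S1), g.continuous.comp coe_covering.continuous⟩ : C(ℝ, S1)) a e he
  exact ⟨F, F.continuous, h1, fun x => congrFun h2 x⟩

theorem lift_unique {F G : ℝ → ℝ} (hF : Continuous F) (hG : Continuous G)
    (he : ∀ x, ((F x : ℝ) : S1) = ((G x : ℝ) : S1)) (a : ℝ) (ha : F a = G a) : F = G :=
  coe_covering.eq_of_comp_eq hF hG (funext he) a ha

theorem exists_lift (g : S1 ≃ₜ S1) : ∃ h : ℝ ≃ₜ ℝ, IsLift g h := by
  obtain ⟨e, he⟩ := QuotientAddGroup.mk_surjective (g ((0 : ℝ) : S1))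
  obtain ⟨F, hF, hF0, hFg⟩ := exists_cont_lift g 0 e he
  obtain ⟨G, hG, hG0, hGg⟩ := exists_cont_lift g.symm e 0 (by
    have : ((e : ℝ) : S1) = g ((0 : ℝ) : S1) := he
    rw [this, g.symm_apply_apply])
  have h1 : G ∘ F = id := by
    refine lift_unique (hG.comp hF) continuous_id (fun x => ?_) 0 ?_
    · show ((G (F x) : ℝ) : S1) = _
      rw [hGg, hFg, g.symm_apply_apply]
      rfl
    · show G (F 0) = 0
      rw [hF0, hG0]
  have h2 : F ∘ G = id := by
    refine lift_unique (hF.comp hG) continuous_id (fun x => ?_) e ?_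
    · show ((F (G x) : ℝ) : S1) = _
      rw [hFg, hGg, g.apply_symm_apply]
      rfl
    · show F (G e) = e
      rw [hG0, hF0]
  exact ⟨{ toFun := F
           invFun := G
           left_inv := fun x => congrFun h1 x
           right_inv := fun x => congrFun h2 x
           continuous_toFun := hF
           continuous_invFun := hG }, hFg⟩

theorem IsLift.add_one {g : S1 ≃ₜ S1} {h : ℝ ≃ₜ ℝ} (hl : IsLift g h) (hm : StrictMono h)
    (x : ℝ) : h (x + 1) = h x + 1 := by
  have h1 : ((h (x + 1) : ℝ) : S1) = ((h x : ℝ) : S1) := by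
    rw [hl, hl, coe_add_one]
  obtain ⟨n, hn⟩ := (coe_eq_iff _ _).mp h1
  have hpos : h x < h (x + 1) := hm (by linarith)
  have hn0 : (0 : ℝ) < n := by linarith
  have hn1 : (1 : ℤ) ≤ n := by exact_mod_cast hn0
  rcases hn1.eq_or_lt with h2 | h2
  · rw [hn, ← h2]
    simp
  · exfalso
    have hn2 : (2 : ℝ) ≤ n := by exact_mod_cast h2
    set y := h.symm (h x + 1) with hy
    have hhy : h y = h x + 1 := h.apply_symm_apply _
    have hy1 : x < y := hm.lt_iff_lt.mp (by rw [hhy]; linarith)
    have hy2 : y < x + 1 := hm.lt_iff_lt.mp (by rw [hhy, hn]; linarith)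
    have h3 : g (y : S1) = g (x : S1) := by
      rw [← hl, ← hl, hhy, coe_add_one]
    obtain ⟨m, hm'⟩ := (coe_eq_iff _ _).mp (g.injective h3)
    have hm1 : (0 : ℝ) < m := by linarith
    have hm2 : (m : ℝ) < 1 := by linarith
    have hm3 : (0 : ℤ) < m := by exact_mod_cast hm1
    have hm4 : m < (1 : ℤ) := by exact_mod_cast hm2
    omega

/-- The lift as an element of `CircleDeg1Lift`. -/
noncomputable def IsLift.deg {g : S1 ≃ₜ S1} {h : ℝ ≃ₜ ℝ} (hl : IsLift g h) (hm : StrictMono h) :
    CircleDeg1Lift :=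
  ⟨⟨h, hm.monotone⟩, hl.add_one hm⟩

theorem IsLift.comm {g k : S1 ≃ₜ S1} {h l : ℝ ≃ₜ ℝ} (h1 : IsLift g h) (h2 : IsLift k l)
    (hm : StrictMono h) (lm : StrictMono l) (hc : g * k = k * g) (x : ℝ) :
    h (l x) = l (h x) := by
  have e0 : ∀ x : ℝ, ((h (l x) : ℝ) : S1) = ((l (h x) : ℝ) : S1) := by
    intro x
    rw [h1, h2, h2, h1]
    exact congrArg (fun f : S1 ≃ₜ S1 => f (x : S1)) hc
  obtain ⟨j, hj⟩ := (coe_eq_iff _ _).mp (e0 0)
  have e1 : (fun x => h (l x)) = fun x => l (h x) + j := by
    refine lift_unique (h.continuous.comp l.continuous)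
      ((l.continuous.comp h.continuous).add continuous_const) (fun x => ?_) 0 hj
    rw [e0]
    exact ((coe_eq_iff _ _).mpr ⟨j, rfl⟩).symm
  set H := h1.deg hm with hH
  set L := h2.deg lm with hL
  have e2 : H * L = (CircleDeg1Lift.translate (Multiplicative.ofAdd (j : ℝ)) : CircleDeg1Lift) *
      (L * H) := by
    ext x
    rw [CircleDeg1Lift.mul_apply, CircleDeg1Lift.mul_apply, CircleDeg1Lift.translate_apply,
      CircleDeg1Lift.mul_apply]
    have := congrFun e1 x
    show h (l x) = j + l (h x)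
    rw [this]
    ring
  have e3 : CircleDeg1Lift.translationNumber (L * H) = CircleDeg1Lift.translationNumber (H * L) :=
    CircleDeg1Lift.translationNumber_eq_of_semiconjBy (f := H) (by
      rw [SemiconjBy, mul_assoc])
  have e4 : CircleDeg1Lift.translationNumber (H * L) =
      j + CircleDeg1Lift.translationNumber (L * H) := by
    rw [e2, CircleDeg1Lift.translationNumber_mul_of_commute,
      CircleDeg1Lift.translationNumber_translate]
    rw [CircleDeg1Lift.commute_iff_commute]
    intro x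
    rw [CircleDeg1Lift.translate_apply, CircleDeg1Lift.translate_apply,
      CircleDeg1Lift.map_int_add]
  have hj0 : (j : ℝ) = 0 := by linarith
  have := congrFun e1 x
  simp only [hj0, add_zero] at this
  exact this

theorem IsLift.strictMono_or (h : ℝ ≃ₜ ℝ) : StrictMono h ∨ StrictAnti h :=
  h.continuous.strictMono_of_inj h.injective

/-- A chart of the circle minus a point. -/
theorem exists_chart (p : S1) : ∃ e : ℝ → S1, IsOpenEmbedding e ∧ Set.range e = {p}ᶜ := by
  obtain ⟨a, rfl⟩ := QuotientAddGroup.mk_surjective p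
  have hpi := Real.pi_pos
  set A : ℝ → ℝ := fun x => a + 1 / 2 + Real.arctan x / Real.pi with hA
  have hA1 : ∀ x, A x ∈ Ioo a (a + 1) := by
    intro x
    have h1 := Real.arctan_lt_pi_div_two x
    have h2 := Real.neg_pi_div_two_lt_arctan x
    have h3 : Real.arctan x / Real.pi < 1 / 2 := by
      rw [div_lt_iff₀ hpi]
      linarith
    have h4 : -(1 / 2) < Real.arctan x / Real.pi := by
      rw [lt_div_iff₀ hpi]
      linarith
    simp only [hA]
    constructor <;> linarith
  have hAc : Continuous A := by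
    simp only [hA]
    exact continuous_const.add (Real.continuous_arctan.div_const _)
  have hAm : StrictMono A := by
    intro x y hxy
    have := Real.arctan_strictMono hxy
    simp only [hA]
    have := div_lt_div_of_pos_right this hpi
    linarith
  have hAr : ∀ y ∈ Ioo a (a + 1), ∃ x, A x = y := by
    intro y hy
    refine ⟨Real.tan ((y - a - 1 / 2) * Real.pi), ?_⟩
    simp only [hA]
    rw [Real.arctan_tan]
    · field_simp
      ring
    · nlinarith [hy.1, hy.2]
    · nlinarith [hy.1, hy.2]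
  have hAo : IsOpenMap A := by
    have hr : range A = Ioo a (a + 1) := by
      ext y
      constructor
      · rintro ⟨x, rfl⟩
        exact hA1 x
      · exact fun hy => hAr y hy
    have he : IsEmbedding A := hAm.isEmbedding_of_ordConnected (by
      rw [hr]
      infer_instance)
    exact (IsOpenEmbedding.mk he (by rw [hr]; exact isOpen_Ioo)).isOpenMap
  have : Fact (0 < (1 : ℝ)) := ⟨one_pos⟩
  have hc : Continuous ((↑) : ℝ → S1) := coe_covering.continuous
  have ho : IsOpenMap ((↑) : ℝ → S1) := QuotientAddGroup.isOpenMap_coe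
  refine ⟨fun x => ((A x : ℝ) : S1), ?_, ?_⟩
  · refine IsOpenEmbedding.of_continuous_injective_isOpenMap (hc.comp hAc) ?_ (ho.comp hAo)
    intro x y hxy
    have h1 := hA1 x
    have h2 := hA1 y
    obtain ⟨n, hn⟩ := (coe_eq_iff _ _).mp hxy
    have h3 : (n : ℝ) < 1 := by linarith [h1.2, h2.1]
    have h4 : (-1 : ℝ) < n := by linarith [h1.1, h2.2]
    have h5 : n < (1 : ℤ) := by exact_mod_cast h3
    have h6 : (-1 : ℤ) < n := by exact_mod_cast h4
    have h7 : n = 0 := by omega
    rw [h7, Int.cast_zero, add_zero] at hn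
    exact hAm.injective hn
  · ext q
    constructor
    · rintro ⟨x, rfl⟩
      have h1 := hA1 x
      simp only [mem_compl_iff, mem_singleton_iff]
      intro h
      obtain ⟨n, hn⟩ := (coe_eq_iff _ _).mp h
      have h3 : (n : ℝ) < 1 := by linarith [h1.2]
      have h4 : (0 : ℝ) < n := by linarith [h1.1]
      have h5 : n < (1 : ℤ) := by exact_mod_cast h3
      have h6 : (0 : ℤ) < n := by exact_mod_cast h4
      omega
    · intro hq
      obtain ⟨y, rfl⟩ := QuotientAddGroup.mk_surjective q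
      -- a representative in [a, a + 1)
      set z : ℝ := a + Int.fract (y - a) with hz
      have hzy : (z : S1) = (y : S1) := by
        rw [coe_eq_iff]
        refine ⟨-⌊y - a⌋, ?_⟩
        rw [hz, Int.fract]
        push_cast
        ring
      have hz0 : a ≤ z := by
        have := Int.fract_nonneg (y - a)
        linarith
      have hz1 : z < a + 1 := by
        have := Int.fract_lt_one (y - a)
        linarith
      have hza : z ≠ a := by
        intro h
        apply hq
        show ((y : ℝ) : S1) = ((a : ℝ) : S1)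
        rw [← hzy, h]
      obtain ⟨x, hx⟩ := hAr z ⟨lt_of_le_of_ne hz0 (Ne.symm hza), hz1⟩
      refine ⟨x, ?_⟩
      show ((A x : ℝ) : S1) = ((y : ℝ) : S1)
      rw [hx, hzy]

end Pool.Agent.MCG51
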