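import Pool.Agent.MCG51.Line2
import Pool.Agent.MCG51.CircLift

/-!
Actions on the circle.
-/

set_option autoImplicit false

open Set Filter Topology

namespace Pool.Agent.MCG51

/-! ### Restriction to the complement of a fixed point -/

/-- The stabiliser of a point. -/
def Stab (p : S1) : Subgroup (S1 ≃ₜ S1) where
  carrier := {f | f p = p}
  one_mem' := rfl
  mul_mem' := by
    intro a b (ha : a p = p) (hb : b p = p)
    change a (b p) = p
    rw [hb, ha]
  inv_mem' := by
    intro a (ha : a p = p)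
    change a.symm p = p
    rw [Homeomorph.symm_apply_eq]
    exact ha.symm

theorem exists_restrict {p : S1} {e : ℝ → S1} (he : IsOpenEmbedding e) (hr : range e = {p}ᶜ) :
    ∃ R : Stab p →* (ℝ ≃ₜ ℝ), ∀ (f : Stab p) (x : ℝ), e (R f x) = f.1 (e x) := by
  have hmem : ∀ (f : Stab p) (x : ℝ), f.1 (e x) ∈ range e := by
    intro f x
    rw [hr]
    intro h
    have h1 : f.1 (e x) = f.1 p := by
      have : f.1 p = p := f.2
      rw [this]
      exact h
    have h2 : e x ∈ ({p}ᶜ : Set S1) := by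
      rw [← hr]
      exact mem_range_self x
    exact h2 (f.1.injective h1)
  set E := he.isEmbedding.toHomeomorph with hE
  have hEv : ∀ y : range e, e (E.symm y) = y.1 := by
    intro y
    have : E (E.symm y) = y := E.apply_symm_apply y
    exact congrArg Subtype.val this
  let F : Stab p → ℝ → ℝ := fun f x => E.symm ⟨f.1 (e x), hmem f x⟩
  have hF : ∀ (f : Stab p) (x : ℝ), e (F f x) = f.1 (e x) := fun f x => hEv _
  have hFc : ∀ f : Stab p, Continuous (F f) := by
    intro f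
    exact E.symm.continuous.comp ((f.1.continuous.comp he.continuous).subtype_mk _)
  have hinv : ∀ (f : Stab p) (x : ℝ), F f⁻¹ (F f x) = x := by
    intro f x
    apply he.injective
    rw [hF, hF]
    exact f.1.symm_apply_apply _
  have hinv' : ∀ (f : Stab p) (x : ℝ), F f (F f⁻¹ x) = x := by
    intro f x
    apply he.injective
    rw [hF, hF]
    exact f.1.apply_symm_apply _
  let R : Stab p →* (ℝ ≃ₜ ℝ) :=
    { toFun := fun f =>
        { toFun := F f
          invFun := F f⁻¹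
          left_inv := hinv f
          right_inv := hinv' f
          continuous_toFun := hFc f
          continuous_invFun := hFc f⁻¹ }
      map_one' := by
        apply Homeomorph.ext
        intro x
        change F 1 x = x
        apply he.injective
        rw [hF]
        rfl
      map_mul' := by
        intro a b
        apply Homeomorph.ext
        intro x
        change F (a * b) x = F a (F b x)
        apply he.injective
        rw [hF, hF, hF]
        rfl }
  exact ⟨R, fun f x => hF f x⟩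

/-! ### Lifts -/

theorem IsLift.mul {g k : S1 ≃ₜ S1} {h l : ℝ ≃ₜ ℝ} (h1 : IsLift g h) (h2 : IsLift k l) : IsLift (g * k) (h * l) := by
  intro x
  change ((h (l x) : ℝ) : S1) = g (k x)
  rw [h1, h2]

theorem sgn_eq_of_lift {g : S1 ≃ₜ S1} {h l : ℝ ≃ₜ ℝ} (h1 : IsLift g h) (h2 : IsLift g l) : sgn h = sgn l := by
  obtain ⟨n, hn⟩ := (coe_eq_iff (h 0) (l 0)).mp (by rw [h1, h2])
  have h3 : (fun x => h x) = fun x => l x + n := by
    refine lift_unique h.continuous (l.continuous.add continuous_const) (fun x => ?_) 0 hn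
    rw [h1, ← h2]
    exact ((coe_eq_iff _ _).mpr ⟨n, rfl⟩).symm
  have h4 : StrictMono h ↔ StrictMono l := by
    have h5 : ∀ x, h x = l x + n := fun x => congrFun h3 x
    constructor
    · intro hm x y hxy
      have := hm hxy
      rw [h5, h5] at this
      linarith
    · intro hm x y hxy
      have := hm hxy
      rw [h5, h5]
      linarith
  rcases Int.units_eq_one_or (sgn h) with h6 | h6
  · have h7 : h ∈ sgn.ker := h6
    rw [mem_ker_sgn, h4, ← mem_ker_sgn] at h7
    rw [h6]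
    exact h7.symm
  · rcases Int.units_eq_one_or (sgn l) with h8 | h8
    · have h7 : l ∈ sgn.ker := h8
      rw [mem_ker_sgn, ← h4, ← mem_ker_sgn] at h7
      rw [h8]
      exact h7
    · rw [h6, h8]

/-- The orientation character of the circle. -/
noncomputable def csgn : (S1 ≃ₜ S1) →* ℤˣ where
  toFun g := sgn (exists_lift g).choose
  map_one' := by
    have h1 : IsLift 1 1 := fun x => rfl
    rw [sgn_eq_of_lift (exists_lift 1).choose_spec h1, map_one]
  map_mul' g k := by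
    rw [sgn_eq_of_lift (exists_lift (g * k)).choose_spec ((exists_lift g).choose_spec.mul (exists_lift k).choose_spec),
      map_mul]

theorem exists_mono_lift {g : S1 ≃ₜ S1} (hg : g ∈ csgn.ker) :
    ∃ h : ℝ ≃o ℝ, ∀ x : ℝ, ((h x : ℝ) : S1) = g (x : S1) := by
  have h1 : (exists_lift g).choose ∈ sgn.ker := hg
  exact ⟨toOI ⟨_, h1⟩, (exists_lift g).choose_spec⟩

theorem exists_fixed {Γ : Type*} [Group Γ] {S₁ S₂ : Subgroup Γ} (hcomm : ∀ a ∈ S₁, ∀ b ∈ S₂, a * b = b * a)
    (ρ : Γ →* (S1 ≃ₜ S1)) (hor : ∀ γ, ρ γ ∈ csgn.ker) {f : Γ} (hf1 : f ∈ ⁅S₁, S₁⁆) (hf2 : f ∈ ⁅S₂, S₂⁆) :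
    ∃ x : S1, ρ f x = x := by
  -- the groups of pairs
  let Lf : Subgroup Γ → Subgroup (Γ × (ℝ ≃o ℝ)) := fun S =>
    { carrier := {z | z.1 ∈ S ∧ ∀ x : ℝ, ((z.2 x : ℝ) : S1) = ρ z.1 (x : S1)}
      one_mem' := by
        refine ⟨S.one_mem, fun x => ?_⟩
        change ((x : ℝ) : S1) = ρ 1 (x : S1)
        rw [map_one]
        rfl
      mul_mem' := by
        rintro ⟨a, h⟩ ⟨b, k⟩ ⟨h1, h2⟩ ⟨h3, h4⟩
        refine ⟨S.mul_mem h1 h3, fun x => ?_⟩
        change ((h (k x) : ℝ) : S1) = ρ (a * b) (x : S1)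
        rw [map_mul]
        change ((h (k x) : ℝ) : S1) = ρ a (ρ b (x : S1))
        rw [← h4 x]
        exact h2 (k x)
      inv_mem' := by
        rintro ⟨a, h⟩ ⟨h1, h2⟩
        refine ⟨S.inv_mem h1, fun x => ?_⟩
        change ((h.symm x : ℝ) : S1) = ρ a⁻¹ (x : S1)
        rw [map_inv]
        change ((h.symm x : ℝ) : S1) = (ρ a).symm (x : S1)
        rw [Homeomorph.eq_symm_apply, ← h2 (h.symm x)]
        exact congrArg _ (h.apply_symm_apply x) }
  have hfst : ∀ S, (Lf S).map (MonoidHom.fst Γ (ℝ ≃o ℝ)) = S := by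
    intro S
    ext γ
    constructor
    · rintro ⟨z, hz, rfl⟩
      exact hz.1
    · intro hγ
      obtain ⟨h, hh⟩ := exists_mono_lift (hor γ)
      exact ⟨(γ, h), ⟨hγ, hh⟩, rfl⟩
  let A : Subgroup Γ → Subgroup (ℝ ≃o ℝ) := fun S => (Lf S).map (MonoidHom.snd Γ (ℝ ≃o ℝ))
  let u : ℝ ≃o ℝ := OrderIso.addRight 1
  have hu : ∀ x : ℝ, u x = x + 1 := fun x => rfl
  have huA : ∀ S, u ∈ A S := by
    intro S
    refine ⟨(1, u), ⟨S.one_mem, fun x => ?_⟩, rfl⟩
    change ((x + 1 : ℝ) : S1) = ρ 1 (x : S1)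
    rw [map_one, coe_add_one]
    rfl
  have hIs : ∀ S, ∀ z ∈ Lf S, IsLift (ρ z.1) z.2.toHomeomorph := fun S z hz x => hz.2 x
  have huc : ∀ S, ∀ g ∈ A S, g * u = u * g := by
    rintro S _ ⟨z, hz, rfl⟩
    apply RelIso.ext
    intro x
    exact (hIs S z hz).add_one z.2.strictMono x
  have hAcomm : ∀ g ∈ A S₁, ∀ k ∈ A S₂, g * k = k * g := by
    rintro _ ⟨z, hz, rfl⟩ _ ⟨w, hw, rfl⟩
    apply RelIso.ext
    intro x
    refine (hIs S₁ z hz).comm (hIs S₂ w hw) z.2.strictMono w.2.strictMono ?_ x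
    rw [← map_mul, ← map_mul, hcomm z.1 hz.1 w.1 hw.1]
  have hux : ∀ x ∈ (univ : Set ℝ), x < u x := fun x _ => by rw [hu]; linarith
  have key : ∀ S : Subgroup Γ, f ∈ ⁅S, S⁆ → (∃ L, FreeSet (A S) univ L) → ∃ x : S1, ρ f x = x := by
    rintro S hfS ⟨L, hL⟩
    obtain ⟨l, hl⟩ := hL.ne
    rw [← hfst S, ← Subgroup.map_commutator] at hfS
    obtain ⟨z, hz, hzf⟩ := hfS
    have hz1 : z ∈ Lf S := by
      have hcle : ⁅Lf S, Lf S⁆ ≤ Lf S := by
        rw [Subgroup.commutator_le]
        intro a ha b hb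
        exact (Lf S).mul_mem ((Lf S).mul_mem ((Lf S).mul_mem ha hb) ((Lf S).inv_mem ha)) ((Lf S).inv_mem hb)
      exact hcle hz
    have hz2 : z.2 ∈ ⁅A S, A S⁆ := by
      have : z.2 ∈ (⁅Lf S, Lf S⁆).map (MonoidHom.snd Γ (ℝ ≃o ℝ)) := ⟨z, hz, rfl⟩
      rwa [Subgroup.map_commutator] at this
    have h1 := hL.comm_trivial ordConnected_univ (huA S) hl (hux l (mem_univ l)) (huc S) hz2 l hl
    refine ⟨(l : S1), ?_⟩
    have h2 := hz1.2 l
    rw [h1] at h2
    have h3 : z.1 = f := hzf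
    rw [h3] at h2
    exact h2.symm
  rcases dichotomy hAcomm ordConnected_univ isOpen_univ univ_nonempty (fun _ _ _ _ => mem_univ _)
    (fun _ _ _ _ => mem_univ _) (huA S₁) (huA S₂) hux with h | ⟨L, hL, -⟩
  · exact key S₁ hf1 h
  · exact key S₂ hf2 ⟨L, hL⟩

end Pool.Agent.MCG51
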