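import Pool.Agent.MCG51.Circ

/-!
Actions on the circle: the theorem.
-/

set_option autoImplicit false

open Set Filter Topology

namespace Pool.Agent.MCG51

theorem circ {G : Type*} [Group G] {G₁ G₂ : Subgroup G} {t : G} (hT : TwoSides G₁ G₂ t) (H : Subgroup G)
    (h1 : H.relIndex G₁ ≠ 0) (h2 : H.relIndex G₂ ≠ 0) (ρ : H →* (S1 ≃ₜ S1)) :
    ∃ (m : ℕ) (hm : t ^ m ∈ H), 1 ≤ m ∧ (ρ ⟨t ^ m, hm⟩ = 1 ∨ (frontier {x | ρ ⟨t ^ m, hm⟩ x = x}).Infinite) := by
  by_contra hcon
  push Not at hcon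
  have ht1 : ∀ g ∈ G₁, g * t = t * g := fun g hg => hT.comm g hg t hT.mem₂
  have ht2 : ∀ g ∈ G₂, g * t = t * g := fun g hg => (hT.comm t hT.mem₁ g hg).symm
  by_cases hfix : ∃ (m : ℕ) (hm : t ^ m ∈ H), 1 ≤ m ∧ ∃ x, ρ ⟨t ^ m, hm⟩ x = x
  · -- Case 1: a power with a fixed point
    obtain ⟨m, hm, hm1, x0, hx0⟩ := hfix
    obtain ⟨hne, hfin⟩ := hcon m hm hm1
    set f := ρ ⟨t ^ m, hm⟩ with hf
    set P := frontier {x | f x = x} with hP
    have hPfin : P.Finite := hfin
    have hPne : P.Nonempty := by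
      rw [Set.nonempty_iff_ne_empty]
      intro h
      rw [hP, frontier_eq_empty_iff] at h
      rcases h with h | h
      · have : x0 ∈ ({x | f x = x} : Set S1) := hx0
        rw [h] at this
        exact this
      · apply hne
        apply Homeomorph.ext
        intro x
        have : x ∈ ({x | f x = x} : Set S1) := by
          rw [h]
          exact mem_univ x
        exact this
    obtain ⟨p, hp⟩ := hPne
    obtain ⟨e, he, hr⟩ := exists_chart p
    obtain ⟨R, hR⟩ := exists_restrict he hr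
    set K : Subgroup G := ((Stab p).comap ρ).map H.subtype with hK
    have hKH : K ≤ H := Subgroup.map_subtype_le _
    have hKmem : ∀ g : K, ρ ⟨g.1, hKH g.2⟩ ∈ Stab p := by
      rintro ⟨_, ⟨k, hk, rfl⟩⟩
      exact hk
    -- commuting elements preserve the boundary
    have hinv : ∀ γ : H, γ.1 * t = t * γ.1 → ∀ q ∈ P, ρ γ q ∈ P := by
      intro γ hγ q hq
      have hc : ∀ x, f (ρ γ x) = ρ γ (f x) := by
        intro x
        have h3 : (⟨t ^ m, hm⟩ : H) * γ = γ * ⟨t ^ m, hm⟩ := by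
          apply Subtype.ext
          change t ^ m * γ.1 = γ.1 * t ^ m
          exact ((Commute.pow_right (show Commute γ.1 t from hγ) m).eq).symm
        have h4 := congrArg ρ h3
        rw [map_mul, map_mul] at h4
        exact DFunLike.congr_fun h4 x
      have hpre : (ρ γ) ⁻¹' {x | f x = x} = {x | f x = x} := by
        ext x
        simp only [mem_preimage, mem_setOf_eq]
        rw [hc x]
        exact (ρ γ).injective.eq_iff
      have h5 := (ρ γ).preimage_frontier {x | f x = x}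
      rw [hpre] at h5
      have h6 : q ∈ (ρ γ) ⁻¹' P := by
        rw [hP, h5]
        exact hq
      exact h6
    -- finite index
    have hKrel : ∀ S : Subgroup G, (∀ g ∈ S, g * t = t * g) → H.relIndex S ≠ 0 → K.relIndex S ≠ 0 := by
      intro S hS hHS
      have h3 : K.relIndex (H ⊓ S) ≠ 0 := by
        have hfinite : Finite (↥(H ⊓ S) ⧸ K.subgroupOf (H ⊓ S)) := by
          have : Finite P := hPfin.to_subtype
          have hmem : ∀ c : ↥(H ⊓ S), ρ ⟨c.1, c.2.1⟩ p ∈ P := fun c =>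
            hinv ⟨c.1, c.2.1⟩ (hS c.1 c.2.2) p hp
          refine Finite.of_injective (fun c : ↥(H ⊓ S) ⧸ K.subgroupOf (H ⊓ S) =>
            (⟨ρ ⟨c.out.1, c.out.2.1⟩ p, hmem c.out⟩ : P)) ?_
          intro a b hab
          have hab' : ρ ⟨a.out.1, a.out.2.1⟩ p = ρ ⟨b.out.1, b.out.2.1⟩ p := congrArg Subtype.val hab
          rw [← QuotientGroup.out_eq' a, ← QuotientGroup.out_eq' b]
          rw [QuotientGroup.eq]
          rw [Subgroup.mem_subgroupOf]
          refine ⟨(⟨a.out.1, a.out.2.1⟩ : H)⁻¹ * ⟨b.out.1, b.out.2.1⟩, ?_, rfl⟩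
          change ρ ((⟨a.out.1, a.out.2.1⟩ : H)⁻¹ * ⟨b.out.1, b.out.2.1⟩) p = p
          rw [map_mul, map_inv]
          change (ρ ⟨a.out.1, a.out.2.1⟩).symm (ρ ⟨b.out.1, b.out.2.1⟩ p) = p
          rw [← hab']
          exact (ρ ⟨a.out.1, a.out.2.1⟩).symm_apply_apply p
        exact (Subgroup.finiteIndex_of_finite_quotient (H := K.subgroupOf (H ⊓ S))).index_ne_zero
      exact Subgroup.relIndex_ne_zero_trans h3 (by rw [Subgroup.inf_relIndex_right]; exact hHS)
    -- the action on the line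
    let ρ' : K →* (ℝ ≃ₜ ℝ) :=
      { toFun := fun g => R ⟨ρ ⟨g.1, hKH g.2⟩, hKmem g⟩
        map_one' := by
          have : (⟨ρ ⟨(1 : K).1, hKH (1 : K).2⟩, hKmem 1⟩ : Stab p) = 1 := by
            apply Subtype.ext
            change ρ ⟨1, _⟩ = 1
            exact map_one ρ
          rw [this, map_one]
        map_mul' := by
          intro a b
          rw [← map_mul]
          congr 1
          apply Subtype.ext
          change ρ ⟨a.1 * b.1, _⟩ = ρ ⟨a.1, _⟩ * ρ ⟨b.1, _⟩
          rw [← map_mul]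
          rfl }
    have hρ' : ∀ (g : K) (x : ℝ), e (ρ' g x) = ρ ⟨g.1, hKH g.2⟩ (e x) := fun g x => hR _ x
    obtain ⟨m', hm', hm1', hcase⟩ := line hT K (hKrel G₁ ht1 h1) (hKrel G₂ ht2 h2) ρ'
    obtain ⟨hne', hfin'⟩ := hcon m' (hKH hm') hm1'
    rcases hcase with h | h
    · apply hne'
      apply Homeomorph.ext
      intro q
      change ρ ⟨t ^ m', hKH hm'⟩ q = q
      by_cases hq : q = p
      · rw [hq]
        exact hKmem ⟨t ^ m', hm'⟩
      · have : q ∈ range e := by
          rw [hr]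
          exact hq
        obtain ⟨x, rfl⟩ := this
        rw [← hρ' ⟨t ^ m', hm'⟩ x, h]
        rfl
    · have h3 : {x | ρ' ⟨t ^ m', hm'⟩ x = x} = e ⁻¹' {x | ρ ⟨t ^ m', hKH hm'⟩ x = x} := by
        ext x
        simp only [mem_preimage, mem_setOf_eq]
        rw [← hρ' ⟨t ^ m', hm'⟩ x]
        exact he.injective.eq_iff.symm
      rw [h3, ← he.isOpenMap.preimage_frontier_eq_frontier_preimage he.continuous] at h
      exact ((h.image he.injective.injOn).mono (image_preimage_subset _ _)) hfin'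
  · -- Case 2: no power has a fixed point
    push Not at hfix
    set K : Subgroup H := (csgn.comp ρ).ker with hK
    set P : Subgroup G := K.map H.subtype with hP
    have hPH : P ≤ H := Subgroup.map_subtype_le K
    have hPrel : P.relIndex H ≠ 0 := by
      have : P.subgroupOf H = K := Subgroup.comap_map_eq_self_of_injective H.subtype_injective K
      rw [Subgroup.relIndex, this]
      have hfi : K.FiniteIndex := Subgroup.finiteIndex_ker _
      exact hfi.index_ne_zero
    have hP1 : P.relIndex G₁ ≠ 0 := Subgroup.relIndex_ne_zero_trans hPrel h1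
    have hP2 : P.relIndex G₂ ≠ 0 := Subgroup.relIndex_ne_zero_trans hPrel h2
    obtain ⟨n1, hn1, hn1'⟩ := transfer_sub (A := P ⊓ G₁) (K := G₁) inf_le_right
      (by rw [Subgroup.inf_relIndex_right]; exact hP1) hT.mem₁ ht1 (by norm_num) hT.com₁
    obtain ⟨n2, hn2, hn2'⟩ := transfer_sub (A := P ⊓ G₂) (K := G₂) inf_le_right
      (by rw [Subgroup.inf_relIndex_right]; exact hP2) hT.mem₂ ht2 (by norm_num) hT.com₂
    set N := n1 * n2 with hN
    have hN1 : t ^ N ∈ ⁅P ⊓ G₁, P ⊓ G₁⁆ := by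
      rw [hN, pow_mul]
      exact Subgroup.pow_mem _ hn1' n2
    have hN2 : t ^ N ∈ ⁅P ⊓ G₂, P ⊓ G₂⁆ := by
      rw [hN, mul_comm, pow_mul]
      exact Subgroup.pow_mem _ hn2' n1
    have hcle : ∀ S : Subgroup G, ⁅S, S⁆ ≤ S := by
      intro S
      rw [Subgroup.commutator_le]
      intro a ha b hb
      exact S.mul_mem (S.mul_mem (S.mul_mem ha hb) (S.inv_mem ha)) (S.inv_mem hb)
    have hNP1 : t ^ N ∈ P ⊓ G₁ := hcle _ hN1
    have hcomm_mem : ∀ S : Subgroup G, S ≤ P → ∀ (h : t ^ N ∈ P), t ^ N ∈ ⁅S, S⁆ →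
        (⟨t ^ N, h⟩ : P) ∈ ⁅S.subgroupOf P, S.subgroupOf P⁆ := by
      intro S hSP h hS
      have h3 : t ^ N ∈ (⁅S.subgroupOf P, S.subgroupOf P⁆).map P.subtype := by
        rw [Subgroup.map_commutator, Subgroup.subgroupOf_map_subtype, inf_of_le_left hSP]
        exact hS
      obtain ⟨z, hz, hz'⟩ := h3
      have : z = ⟨t ^ N, h⟩ := Subtype.ext hz'
      rw [← this]
      exact hz
    have hor : ∀ γ : P, (ρ.comp (Subgroup.inclusion hPH)) γ ∈ csgn.ker := by
      rintro ⟨_, ⟨k, hk, rfl⟩⟩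
      exact hk
    obtain ⟨x, hx⟩ := exists_fixed (S₁ := (P ⊓ G₁).subgroupOf P) (S₂ := (P ⊓ G₂).subgroupOf P)
      (by
        intro a ha b hb
        apply Subtype.ext
        exact hT.comm a.1 (Subgroup.mem_subgroupOf.mp ha).2 b.1 (Subgroup.mem_subgroupOf.mp hb).2)
      (ρ.comp (Subgroup.inclusion hPH)) hor (hcomm_mem _ inf_le_left hNP1.1 hN1)
      (hcomm_mem _ inf_le_left hNP1.1 hN2)
    exact hfix N (hPH hNP1.1) (Nat.mul_pos hn1 hn2) x hx

end Pool.Agent.MCG51
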