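import Pool.Agent.MCG51.Hom

/-!
Two commuting groups of increasing homeomorphisms of an interval with a common element without fixed points: one of
them acts freely (modulo the kernel) on a closed invariant set.
-/

set_option autoImplicit false

open Set Filter Topology

namespace Pool.Agent.MCG51

theorem app_mul (g k : ℝ ≃o ℝ) (x : ℝ) : (g * k) x = g (k x) := rfl

theorem cofinal_up {u : ℝ ≃o ℝ} {I : Set ℝ} (hI : I.OrdConnected) (hinv : ∀ x ∈ I, u x ∈ I)
    (hux : ∀ x ∈ I, x < u x) {x y : ℝ} (hx : x ∈ I) (hy : y ∈ I) : ∃ n : ℕ, y < (u ^ n) x := by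
  by_contra hc
  push Not at hc
  set B : Set ℝ := Set.range (fun n : ℕ => (u ^ n) x) with hB
  have hne : B.Nonempty := ⟨x, 0, by simp⟩
  have hbd : BddAbove B := ⟨y, by rintro z ⟨n, rfl⟩; exact hc n⟩
  have h1 : x ≤ sSup B := le_csSup hbd ⟨0, by simp⟩
  have h2 : sSup B ≤ y := csSup_le hne (by rintro z ⟨n, rfl⟩; exact hc n)
  have hs : sSup B ∈ I := hI.out hx hy ⟨h1, h2⟩
  have h3 : sSup B ≤ u⁻¹ (sSup B) := by
    refine csSup_le hne ?_
    rintro z ⟨n, rfl⟩
    have h4 : (u ^ (n + 1)) x ≤ sSup B := le_csSup hbd ⟨n + 1, rfl⟩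
    have h5 := (u⁻¹).monotone h4
    have h6 : u⁻¹ ((u ^ (n + 1)) x) = (u ^ n) x := by
      rw [pow_succ', ← RelIso.mul_apply, ← mul_assoc, inv_mul_cancel, one_mul]
    rwa [h6] at h5
  have h7 := u.monotone h3
  have h8 : u (u⁻¹ (sSup B)) = sSup B := by simp
  rw [h8] at h7
  exact absurd (hux _ hs) (not_lt.mpr h7)

theorem exists_floor {u : ℝ ≃o ℝ} {I : Set ℝ} (hI : I.OrdConnected) (hinv : ∀ x ∈ I, u x ∈ I)
    (hinv' : ∀ x ∈ I, u⁻¹ x ∈ I) (hux : ∀ x ∈ I, x < u x) {x s : ℝ} (hx : x ∈ I) (hs : s ∈ I) :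
    ∃ p : ℤ, (u ^ p) x ≤ s ∧ s < (u ^ (p + 1)) x := by
  have hmem : ∀ p : ℤ, (u ^ p) x ∈ I := by
    intro p
    induction p using Int.induction_on with
    | zero => simpa using hx
    | succ n ih =>
      have : (u ^ ((n : ℤ) + 1)) x = u ((u ^ (n : ℤ)) x) := by
        rw [← app_mul, ← zpow_one_add, add_comm]
      rw [this]
      exact hinv _ ih
    | pred n ih =>
      have : (u ^ (-(n : ℤ) - 1)) x = u⁻¹ ((u ^ (-(n : ℤ))) x) := by
        rw [← app_mul, ← zpow_neg_one, ← zpow_add]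
        congr 2
        ring
      rw [this]
      exact hinv' _ ih
  have hmono : ∀ p q : ℤ, p ≤ q → (u ^ p) x ≤ (u ^ q) x := by
    intro p q hpq
    obtain ⟨n, rfl⟩ := Int.le.dest hpq
    clear hpq
    induction n with
    | zero => simp
    | succ n ih =>
      refine ih.trans ?_
      have h3 : (u ^ (p + ((n + 1 : ℕ) : ℤ))) x = u ((u ^ (p + (n : ℤ))) x) := by
        rw [← app_mul, ← zpow_one_add]
        congr 2
        push_cast
        ring
      rw [h3]
      exact (hux _ (hmem _)).le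
  obtain ⟨n, hn⟩ := cofinal_up hI hinv hux hx hs
  obtain ⟨m, hm⟩ := cofinal_up hI hinv hux hs hx
  have hlow : (u ^ (-(m : ℤ))) x ≤ s := by
    have h1 := (u ^ (-(m : ℤ))).strictMono hm
    have h2 : (u ^ (-(m : ℤ))) ((u ^ m) s) = s := by
      rw [← app_mul, ← zpow_natCast u m, ← zpow_add]
      simp
    rw [h2] at h1
    exact h1.le
  have hbd : ∀ z : ℤ, (u ^ z) x ≤ s → z ≤ (n : ℤ) := by
    intro z hz
    by_contra hc
    have h1 := hmono n z (not_le.mp hc).le
    rw [zpow_natCast] at h1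
    exact absurd (h1.trans hz) (not_le.mpr hn)
  obtain ⟨p, hp, hmax⟩ := Int.exists_greatest_of_bdd (P := fun z => (u ^ z) x ≤ s) ⟨n, hbd⟩ ⟨-(m : ℤ), hlow⟩
  refine ⟨p, hp, ?_⟩
  by_contra hc
  have := hmax (p + 1) (not_lt.mp hc)
  omega

/-- The closed (in `I`) nonempty invariant subsets. -/
def Fam (A : Subgroup (ℝ ≃o ℝ)) (I : Set ℝ) : Set (Set ℝ) :=
  {S | S.Nonempty ∧ S ⊆ I ∧ (∀ x ∈ I, x ∈ closure S → x ∈ S) ∧ ∀ g ∈ A, ∀ x ∈ S, g x ∈ S}

theorem exists_minimal {A : Subgroup (ℝ ≃o ℝ)} {I : Set ℝ} (hI : I.OrdConnected) (hIn : I.Nonempty)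
    (hA : ∀ g ∈ A, ∀ x ∈ I, g x ∈ I) {u : ℝ ≃o ℝ} (hu : u ∈ A) (hux : ∀ x ∈ I, x < u x) :
    ∃ m, Minimal (· ∈ Fam A I) m := by
  obtain ⟨x0, hx0⟩ := hIn
  have hK : Icc x0 (u x0) ⊆ I := hI.out hx0 (hA u hu x0 hx0)
  have hmeet : ∀ S ∈ Fam A I, (S ∩ Icc x0 (u x0)).Nonempty := by
    rintro S ⟨⟨s, hs⟩, hSI, -, hSA⟩
    obtain ⟨p, hp1, hp2⟩ := exists_floor hI (hA u hu) (hA u⁻¹ (A.inv_mem hu)) hux hx0 (hSI hs)
    refine ⟨(u ^ (-p)) s, hSA _ (A.zpow_mem hu _) s hs, ?_, ?_⟩
    · have h1 := (u ^ (-p)).monotone hp1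
      rw [← app_mul, ← zpow_add, neg_add_cancel, zpow_zero] at h1
      exact h1
    · have h1 := (u ^ (-p)).monotone hp2.le
      rw [← app_mul (u ^ (-p)) (u ^ (p + 1)), ← zpow_add, neg_add_cancel_left, zpow_one] at h1
      exact h1
  apply zorn_superset (Fam A I)
  intro c hc hchain
  rcases c.eq_empty_or_nonempty with rfl | hcn
  · exact ⟨I, ⟨⟨x0, hx0⟩, subset_rfl, fun x hx _ => hx, hA⟩, by simp⟩
  · refine ⟨⋂₀ c, ⟨?_, ?_, ?_, ?_⟩, fun s hs => sInter_subset_of_mem hs⟩
    · have hne : ((fun S => S ∩ Icc x0 (u x0)) '' c).Nonempty := hcn.image _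
      have : Nonempty ((fun S => S ∩ Icc x0 (u x0)) '' c) := hne.to_subtype
      have h1 : (⋂₀ ((fun S => S ∩ Icc x0 (u x0)) '' c)).Nonempty := by
        apply IsCompact.nonempty_sInter_of_directed_nonempty_isCompact_isClosed
        · rintro _ ⟨S, hS, rfl⟩ _ ⟨S', hS', rfl⟩
          rcases eq_or_ne S S' with rfl | hne'
          · exact ⟨_, ⟨S, hS, rfl⟩, subset_rfl, subset_rfl⟩
          · rcases hchain hS hS' hne' with h | h
            · exact ⟨_, ⟨S, hS, rfl⟩, subset_rfl, inter_subset_inter_left _ h⟩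
            · exact ⟨_, ⟨S', hS', rfl⟩, inter_subset_inter_left _ h, subset_rfl⟩
        · rintro _ ⟨S, hS, rfl⟩
          exact hmeet S (hc hS)
        · rintro _ ⟨S, hS, rfl⟩
          have hcl : IsClosed (S ∩ Icc x0 (u x0)) := by
            rw [← closure_subset_iff_isClosed]
            intro x hx
            have hxK : x ∈ Icc x0 (u x0) := by
              have := closure_mono inter_subset_right hx
              rwa [isClosed_Icc.closure_eq] at this
            exact ⟨(hc hS).2.2.1 x (hK hxK) (closure_mono inter_subset_left hx), hxK⟩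
          exact isCompact_Icc.of_isClosed_subset hcl inter_subset_right
        · rintro _ ⟨S, hS, rfl⟩
          rw [← closure_subset_iff_isClosed]
          intro x hx
          have hxK : x ∈ Icc x0 (u x0) := by
            have := closure_mono inter_subset_right hx
            rwa [isClosed_Icc.closure_eq] at this
          exact ⟨(hc hS).2.2.1 x (hK hxK) (closure_mono inter_subset_left hx), hxK⟩
      obtain ⟨z, hz⟩ := h1
      exact ⟨z, fun S hS => (hz _ ⟨S, hS, rfl⟩).1⟩
    · obtain ⟨S, hS⟩ := hcn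
      exact (sInter_subset_of_mem hS).trans (hc hS).2.1
    · intro x hx hxc S hS
      exact (hc hS).2.2.1 x hx (closure_mono (sInter_subset_of_mem hS) hxc)
    · intro g hg x hx S hS
      exact (hc hS).2.2.2 g hg x (hx S hS)

theorem orderIso_continuous (g : ℝ ≃o ℝ) : Continuous g := g.continuous

/-- **Dichotomy.** -/
theorem dichotomy {A₁ A₂ : Subgroup (ℝ ≃o ℝ)} (hcomm : ∀ g ∈ A₁, ∀ k ∈ A₂, g * k = k * g) {I : Set ℝ}
    (hI : I.OrdConnected) (hIo : IsOpen I) (hIn : I.Nonempty) (h1 : ∀ g ∈ A₁, ∀ x ∈ I, g x ∈ I)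
    (h2 : ∀ g ∈ A₂, ∀ x ∈ I, g x ∈ I) {u : ℝ ≃o ℝ} (hu1 : u ∈ A₁) (hu2 : u ∈ A₂) (hux : ∀ x ∈ I, x < u x) :
    (∃ L, FreeSet A₁ I L) ∨
    ∃ L, FreeSet A₂ I L ∧ ∀ x ∈ I, ∃ O, IsOpen O ∧ x ∈ O ∧ (L ∩ O).Subsingleton := by
  obtain ⟨m, ⟨hmne, hmI, hmcl, hminv⟩, hmin⟩ := exists_minimal hI hIn h2 hu2 hux
  have hmin' : ∀ S ∈ Fam A₂ I, S ⊆ m → m ⊆ S := fun S hS h => hmin hS h
  have hap : ∀ g ∈ A₁, ∀ k ∈ A₂, ∀ x, g (k x) = k (g x) := by
    intro g hg k hk x
    have := hcomm g hg k hk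
    calc g (k x) = (g * k) x := rfl
      _ = (k * g) x := by rw [this]
      _ = k (g x) := rfl
  by_cases hA : ∀ g ∈ A₁, ∀ x ∈ m, g x ∈ m
  · left
    refine ⟨m, hmne, hmI, hmcl, hA, ?_⟩
    intro g hg x hx hgx y hy
    have hS : {z | z ∈ m ∧ g z = z} ∈ Fam A₂ I := by
      refine ⟨⟨x, hx, hgx⟩, fun z hz => hmI hz.1, ?_, ?_⟩
      · intro z hz hzc
        have hcl : IsClosed {z | g z = z} := isClosed_eq (orderIso_continuous g) continuous_id
        refine ⟨hmcl z hz (closure_mono (fun w hw => hw.1) hzc), ?_⟩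
        have h3 : z ∈ closure {w | g w = w} := closure_mono (fun w hw => hw.2) hzc
        rw [hcl.closure_eq] at h3
        exact h3
      · intro k hk z hz
        exact ⟨hminv k hk z hz.1, by rw [hap g hg k hk, hz.2]⟩
    exact (hmin' _ hS (fun z hz => hz.1) hy).2
  · right
    push Not at hA
    obtain ⟨g, hg, x, hx, hgx⟩ := hA
    -- images of members of the family
    have himg : ∀ k ∈ A₁, ∀ S ∈ Fam A₂ I, k '' S ∈ Fam A₂ I := by
      rintro k hk S ⟨hne, hSI, hScl, hSA⟩
      refine ⟨hne.image _, ?_, ?_, ?_⟩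
      · rintro _ ⟨z, hz, rfl⟩
        exact h1 k hk z (hSI hz)
      · intro z hz hzc
        have h3 : k⁻¹ z ∈ closure S := by
          have h4 : k⁻¹ z ∈ (⇑(k⁻¹ : ℝ ≃o ℝ)) '' closure (k '' S) := ⟨z, hzc, rfl⟩
          have h5 : (⇑(k⁻¹ : ℝ ≃o ℝ)) '' closure (k '' S) ⊆ closure ((⇑(k⁻¹ : ℝ ≃o ℝ)) '' (k '' S)) :=
            image_closure_subset_closure_image (orderIso_continuous k⁻¹)
          have h6 : (⇑(k⁻¹ : ℝ ≃o ℝ)) '' (k '' S) = S := by
            rw [image_image]
            simp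
          rw [h6] at h5
          exact h5 h4
        have h7 := hScl _ (h1 _ (A₁.inv_mem hk) z hz) h3
        exact ⟨k⁻¹ z, h7, by simp⟩
      · rintro a ha _ ⟨z, hz, rfl⟩
        exact ⟨a z, hSA a ha z hz, hap k hk a ha z⟩
    have hmF : m ∈ Fam A₂ I := ⟨hmne, hmI, hmcl, hminv⟩
    set L' := g '' m with hL'
    have hL'F : L' ∈ Fam A₂ I := himg g hg m hmF
    have hdisj : ∀ z ∈ m, z ∉ L' := by
      intro z hz hz'
      have h3 : m ∩ L' ∈ Fam A₂ I := by
        refine ⟨⟨z, hz, hz'⟩, fun w hw => hmI hw.1, ?_, ?_⟩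
        · intro w hw hwc
          exact ⟨hmcl w hw (closure_mono inter_subset_left hwc),
            hL'F.2.2.1 w hw (closure_mono inter_subset_right hwc)⟩
        · intro a ha w hw
          exact ⟨hminv a ha w hw.1, hL'F.2.2.2 a ha w hw.2⟩
      have h4 : m ⊆ L' := (hmin' _ h3 inter_subset_left).trans inter_subset_right
      have h5 : (⇑(g⁻¹ : ℝ ≃o ℝ)) '' m ⊆ m := by
        rintro _ ⟨w, hw, rfl⟩
        obtain ⟨w', hw', rfl⟩ := h4 hw
        simpa using hw'
      have h6 := hmin' _ (himg g⁻¹ (A₁.inv_mem hg) m hmF) h5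
      obtain ⟨w, hw, hwx⟩ := h6 hx
      apply hgx
      rw [← hwx]
      simpa using hw
    -- the set of points of `m` with a gap above ended by a point of `L'`
    set W : Set ℝ := {w | w ∈ m ∧ ∃ v ∈ L', w < v ∧ ∀ z ∈ m, z < v → z ≤ w} with hW
    have hWF : W ∈ Fam A₂ I := by
      refine ⟨?_, fun w hw => hmI hw.1, ?_, ?_⟩
      · -- nonempty
        obtain ⟨l, hl⟩ := hmne
        obtain ⟨μ, hμ⟩ := hL'F.1
        obtain ⟨n, hn⟩ := cofinal_up hI (h2 u hu2) hux (hL'F.2.1 hμ) (hmI hl)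
        have hμ' : (u ^ n) μ ∈ L' := hL'F.2.2.2 _ (A₂.pow_mem hu2 n) μ hμ
        set C : Set ℝ := {z | z ∈ L' ∧ l < z} with hC
        have hCne : C.Nonempty := ⟨(u ^ n) μ, hμ', hn⟩
        have hCbd : BddBelow C := ⟨l, fun z hz => hz.2.le⟩
        have hv1 : l ≤ sInf C := le_csInf hCne (fun z hz => hz.2.le)
        have hv2 : sInf C ≤ (u ^ n) μ := csInf_le hCbd ⟨hμ', hn⟩
        have hvI : sInf C ∈ I := hI.out (hmI hl) (hL'F.2.1 hμ') ⟨hv1, hv2⟩
        have hvL : sInf C ∈ L' :=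
          hL'F.2.2.1 _ hvI (closure_mono (fun z hz => hz.1) (csInf_mem_closure hCne hCbd))
        have hlv : l < sInf C := lt_of_le_of_ne hv1 (fun e => hdisj l hl (e ▸ hvL))
        set B : Set ℝ := {z | z ∈ m ∧ z < sInf C} with hB
        have hBne : B.Nonempty := ⟨l, hl, hlv⟩
        have hBbd : BddAbove B := ⟨sInf C, fun z hz => hz.2.le⟩
        have hw1 : l ≤ sSup B := le_csSup hBbd ⟨hl, hlv⟩
        have hw2 : sSup B ≤ sInf C := csSup_le hBne (fun z hz => hz.2.le)
        have hwI : sSup B ∈ I := hI.out (hmI hl) hvI ⟨hw1, hw2⟩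
        have hwm : sSup B ∈ m := hmcl _ hwI (closure_mono (fun z hz => hz.1) (csSup_mem_closure hBne hBbd))
        refine ⟨sSup B, hwm, sInf C, hvL, lt_of_le_of_ne hw2 (fun e => hdisj _ hwm (e ▸ hvL)), ?_⟩
        intro z hz hzv
        exact le_csSup hBbd ⟨hz, hzv⟩
      · -- closed
        intro z hz hzc
        have hzm : z ∈ m := hmcl z hz (closure_mono (fun w hw => hw.1) hzc)
        have hzL : z ∉ closure L' := fun h => hdisj z hzm (hL'F.2.2.1 z hz h)
        obtain ⟨ε, hε, hball⟩ := Metric.mem_nhds_iff.mp (isClosed_closure.isOpen_compl.mem_nhds hzL)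
        have hO : ∀ y, z - ε < y → y < z + ε → y ∉ L' := by
          intro y hy1 hy2 hy
          have : y ∈ Metric.ball z ε := by
            rw [Metric.mem_ball, Real.dist_eq, abs_lt]
            constructor <;> linarith
          exact hball this (subset_closure hy)
        obtain ⟨w, ⟨hw1, hw2⟩, hwW⟩ := mem_closure_iff.mp hzc (Ioo (z - ε) (z + ε)) isOpen_Ioo
          ⟨by linarith, by linarith⟩
        rcases lt_trichotomy w z with hlt | heq | hgt
        · exfalso
          obtain ⟨hwm, v, hv, hwv, hgap⟩ := hwW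
          rcases lt_or_ge z v with h3 | h3
          · exact absurd (hgap z hzm h3) (not_le.mpr hlt)
          · exact hO v (hw1.trans hwv) (by linarith) hv
        · rw [← heq]
          exact hwW
        · exfalso
          obtain ⟨w', ⟨hw1', hw2'⟩, hwm', v', hv', hwv', hgap'⟩ :=
            mem_closure_iff.mp hzc (Ioo (z - ε) w) isOpen_Ioo ⟨by linarith, hgt⟩
          rcases lt_or_ge w v' with h3 | h3
          · exact absurd (hgap' w hwW.1 h3) (not_le.mpr hw2')
          · exact hO v' (hw1'.trans hwv') (by linarith) hv'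
      · -- invariant
        rintro a ha w ⟨hw, v, hv, hwv, hgap⟩
        refine ⟨hminv a ha w hw, a v, hL'F.2.2.2 a ha v hv, a.strictMono hwv, ?_⟩
        intro z hz hzv
        have h3 : a⁻¹ z < v := by
          rw [← a.lt_iff_lt]
          simpa using hzv
        have h4 := hgap (a⁻¹ z) (hminv _ (A₂.inv_mem ha) z hz) h3
        have h5 := a.monotone h4
        simpa using h5
    have hmW : m ⊆ W := hmin' W hWF (fun w hw => hw.1)
    refine ⟨m, ⟨hmne, hmI, hmcl, hminv, ?_⟩, ?_⟩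
    · -- free
      intro k hk l0 hl0 hkl
      have hup : ∀ y ∈ m, l0 ≤ y → k y = y := by
        intro y hy hly
        set B : Set ℝ := {z | z ∈ m ∧ l0 ≤ z ∧ z ≤ y ∧ k z = z} with hB
        have hBne : B.Nonempty := ⟨l0, hl0, le_rfl, hly, hkl⟩
        have hBbd : BddAbove B := ⟨y, fun z hz => hz.2.2.1⟩
        have hs1 : l0 ≤ sSup B := le_csSup hBbd ⟨hl0, le_rfl, hly, hkl⟩
        have hs2 : sSup B ≤ y := csSup_le hBne (fun z hz => hz.2.2.1)
        have hsI : sSup B ∈ I := hI.out (hmI hl0) (hmI hy) ⟨hs1, hs2⟩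
        have hsm : sSup B ∈ m := hmcl _ hsI (closure_mono (fun z hz => hz.1) (csSup_mem_closure hBne hBbd))
        have hsk : k (sSup B) = sSup B := by
          have hcl : IsClosed {z | k z = z} := isClosed_eq (orderIso_continuous k) continuous_id
          have h3 : sSup B ∈ closure {w | k w = w} :=
            closure_mono (fun w hw => hw.2.2.2) (csSup_mem_closure hBne hBbd)
          rw [hcl.closure_eq] at h3
          exact h3
        rcases hs2.eq_or_lt with heq | hlt
        · rw [← heq]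
          exact hsk
        · exfalso
          obtain ⟨-, v, hv, hsv, hgap⟩ := hmW hsm
          set C : Set ℝ := {z | z ∈ m ∧ sSup B < z} with hC
          have hCne : C.Nonempty := ⟨y, hy, hlt⟩
          have hCbd : BddBelow C := ⟨sSup B, fun z hz => hz.2.le⟩
          have hvC : ∀ z ∈ C, v ≤ z := by
            intro z hz
            by_contra hcon
            exact absurd (hgap z hz.1 (not_le.mp hcon)) (not_le.mpr hz.2)
          have hn1 : v ≤ sInf C := le_csInf hCne hvC
          have hn2 : sInf C ≤ y := csInf_le hCbd ⟨hy, hlt⟩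
          have hsn : sSup B < sInf C := hsv.trans_le hn1
          have hnI : sInf C ∈ I := hI.out hsI (hmI hy) ⟨hsn.le, hn2⟩
          have hnm : sInf C ∈ m := hmcl _ hnI (closure_mono (fun z hz => hz.1) (csInf_mem_closure hCne hCbd))
          have hk1 : sInf C ≤ k (sInf C) := by
            apply csInf_le hCbd
            refine ⟨hminv k hk _ hnm, ?_⟩
            have := k.strictMono hsn
            rwa [hsk] at this
          have hk2 : sInf C ≤ k⁻¹ (sInf C) := by
            apply csInf_le hCbd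
            refine ⟨hminv _ (A₂.inv_mem hk) _ hnm, ?_⟩
            rw [← k.lt_iff_lt]
            have h3 : k (k⁻¹ (sInf C)) = sInf C := by simp
            rw [h3, hsk]
            exact hsn
          have hk3 : k (sInf C) ≤ sInf C := by
            have := k.monotone hk2
            simpa using this
          have hnB : sInf C ∈ B := ⟨hnm, hs1.trans hsn.le, hn2, le_antisymm hk3 hk1⟩
          exact absurd (le_csSup hBbd hnB) (not_le.mpr hsn)
      intro y hy
      rcases le_total l0 y with h3 | h3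
      · exact hup y hy h3
      · obtain ⟨n, hn⟩ := cofinal_up hI (h2 u hu2) hux (hmI hy) (hmI hl0)
        have h4 := hup ((u ^ n) y) (hminv _ (A₂.pow_mem hu2 n) y hy) hn.le
        rw [← hap (u ^ n) (A₁.pow_mem hu1 n) k hk] at h4
        exact (u ^ n).injective h4
    · intro z hz
      by_cases hzm : z ∈ m
      · have hzL : z ∉ closure L' := fun h => hdisj z hzm (hL'F.2.2.1 z hz h)
        obtain ⟨ε, hε, hball⟩ := Metric.mem_nhds_iff.mp (isClosed_closure.isOpen_compl.mem_nhds hzL)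
        have hO : ∀ y, z - ε < y → y < z + ε → y ∉ L' := by
          intro y hy1 hy2 hy
          have : y ∈ Metric.ball z ε := by
            rw [Metric.mem_ball, Real.dist_eq, abs_lt]
            constructor <;> linarith
          exact hball this (subset_closure hy)
        refine ⟨Ioo (z - ε) (z + ε), isOpen_Ioo, ⟨by linarith, by linarith⟩, ?_⟩
        have key : ∀ a b, a ∈ m → a ∈ Ioo (z - ε) (z + ε) → b ∈ m → b ∈ Ioo (z - ε) (z + ε) → ¬ a < b := by
          intro a b ha ha' hb hb' hab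
          obtain ⟨-, v, hv, hav, hgap⟩ := hmW ha
          have h3 : v ≤ b := by
            by_contra hcon
            exact absurd (hgap b hb (not_le.mp hcon)) (not_le.mpr hab)
          exact hO v (ha'.1.trans hav) (h3.trans_lt hb'.2) hv
        rintro a ⟨ha, ha'⟩ b ⟨hb, hb'⟩
        rcases lt_trichotomy a b with h3 | h3 | h3
        · exact absurd h3 (key a b ha ha' hb hb')
        · exact h3
        · exact absurd h3 (key b a hb hb' ha ha')
      · have hzc : z ∉ closure m := fun h => hzm (hmcl z hz h)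
        refine ⟨(closure m)ᶜ, isClosed_closure.isOpen_compl, hzc, ?_⟩
        rintro a ⟨ha, ha'⟩
        exact absurd (subset_closure ha) ha'

end Pool.Agent.MCG51
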