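import Pool.Agent.MCG51.Circ2

/-!
Open intervals of the line as images of open embeddings of the line.
-/

set_option autoImplicit false

open Set Filter Topology

namespace Pool.Agent.MCG51

theorem emb_of_strictMono {e : ℝ → ℝ} (he : StrictMono e) (ho : IsOpen (range e)) (hc : (range e).OrdConnected) :
    IsOpenEmbedding e := ⟨he.isEmbedding_of_ordConnected hc, ho⟩

theorem exists_emb_up {U : Set ℝ} (ho : IsOpen U) (hc : U.OrdConnected) (hn : U.Nonempty) (hub : ¬ BddAbove U) :
    ∃ e : ℝ → ℝ, IsOpenEmbedding e ∧ range e = U := by
  by_cases hlb : BddBelow U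
  · have hU : U = Ioi (sInf U) := by
      ext x
      constructor
      · intro hx
        have h1 : sInf U ≤ x := csInf_le hlb hx
        rcases h1.lt_or_eq with h | h
        · exact h
        · exfalso
          obtain ⟨ε, hε, hball⟩ := Metric.isOpen_iff.mp ho x hx
          have h2 : x - ε / 2 ∈ U := hball (by
            rw [Metric.mem_ball, Real.dist_eq, abs_lt]
            constructor <;> linarith)
          have := csInf_le hlb h2
          linarith
      · intro hx
        obtain ⟨u, hu, hux⟩ := exists_lt_of_csInf_lt hn (show sInf U < x from hx)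
        rw [not_bddAbove_iff] at hub
        obtain ⟨v, hv, hvx⟩ := hub x
        exact hc.out hu hv ⟨hux.le, hvx.le⟩
    set c := sInf U with hcdef
    have hm : StrictMono (fun x : ℝ => c + Real.exp x) := fun x y h => by
      have := Real.exp_lt_exp.mpr h
      change c + Real.exp x < c + Real.exp y
      linarith
    have hr : range (fun x : ℝ => c + Real.exp x) = Ioi c := by
      ext y
      constructor
      · rintro ⟨x, rfl⟩
        have := Real.exp_pos x
        change c < c + Real.exp x
        linarith
      · intro hy
        refine ⟨Real.log (y - c), ?_⟩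
        change c + Real.exp (Real.log (y - c)) = y
        rw [Real.exp_log (sub_pos.mpr hy)]
        ring
    refine ⟨_, emb_of_strictMono hm (by rw [hr]; exact isOpen_Ioi) (by rw [hr]; exact ordConnected_Ioi), ?_⟩
    rw [hr, hU]
  · refine ⟨id, IsOpenEmbedding.id, ?_⟩
    rw [range_id]
    symm
    rw [eq_univ_iff_forall]
    intro x
    rw [not_bddAbove_iff] at hub
    rw [not_bddBelow_iff] at hlb
    obtain ⟨v, hv, hvx⟩ := hub x
    obtain ⟨u, hu, hux⟩ := hlb x
    exact hc.out hu hv ⟨hux.le, hvx.le⟩

theorem exists_emb {U : Set ℝ} (ho : IsOpen U) (hc : U.OrdConnected) (hn : U.Nonempty) :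
    ∃ e : ℝ → ℝ, IsOpenEmbedding e ∧ range e = U := by
  by_cases hub : BddAbove U
  · set b := sSup U with hb
    have hUb : ∀ x ∈ U, x < b := by
      intro x hx
      have h1 : x ≤ b := le_csSup hub hx
      rcases h1.lt_or_eq with h | h
      · exact h
      · exfalso
        obtain ⟨ε, hε, hball⟩ := Metric.isOpen_iff.mp ho x hx
        have h2 : x + ε / 2 ∈ U := hball (by
          rw [Metric.mem_ball, Real.dist_eq, abs_lt]
          constructor <;> linarith)
        have := le_csSup hub h2
        linarith
    have hm : StrictMono (fun x : ℝ => b - Real.exp (-x)) := fun x y h => by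
      have := Real.exp_lt_exp.mpr (neg_lt_neg h)
      change b - Real.exp (-x) < b - Real.exp (-y)
      linarith
    have hr : range (fun x : ℝ => b - Real.exp (-x)) = Iio b := by
      ext y
      constructor
      · rintro ⟨x, rfl⟩
        have := Real.exp_pos (-x)
        change b - Real.exp (-x) < b
        linarith
      · intro hy
        refine ⟨-Real.log (b - y), ?_⟩
        change b - Real.exp (- -Real.log (b - y)) = y
        rw [neg_neg, Real.exp_log (sub_pos.mpr hy)]
        ring
    set u := fun x : ℝ => b - Real.exp (-x) with hu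
    have hue : IsOpenEmbedding u := emb_of_strictMono hm (by rw [hr]; exact isOpen_Iio) (by rw [hr]; exact ordConnected_Iio)
    have hsub : U ⊆ range u := by
      rw [hr]
      exact hUb
    obtain ⟨x0, hx0⟩ := hn
    obtain ⟨e, he, her⟩ := exists_emb_up (U := u ⁻¹' U) (ho.preimage hue.continuous)
      (hc.preimage_mono hm.monotone) (by
        obtain ⟨y, hy⟩ := hsub hx0
        exact ⟨y, by rw [mem_preimage, hy]; exact hx0⟩) (by
        rw [not_bddAbove_iff]
        intro z
        obtain ⟨v, hv, hvz⟩ := exists_lt_of_lt_csSup ⟨x0, hx0⟩ (show u z < sSup U by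
          have : u z ∈ range u := mem_range_self z
          rw [hr] at this
          exact this)
        obtain ⟨y, rfl⟩ := hsub hv
        exact ⟨y, hv, hm.lt_iff_lt.mp hvz⟩)
    refine ⟨u ∘ e, hue.comp he, ?_⟩
    rw [range_comp, her, image_preimage_eq_of_subset hsub]
  · exact exists_emb_up ho hc hn hub

/-- Connected components and open embeddings. -/
theorem component_image {X : Type*} [TopologicalSpace X] {e : ℝ → X} (he : IsOpenEmbedding e) {F : Set X}
    (hF : F ⊆ range e) {x : ℝ} (hx : e x ∈ F) :
    connectedComponentIn F (e x) = e '' connectedComponentIn (e ⁻¹' F) x := by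
  apply Subset.antisymm
  · have h1 : IsPreconnected (e ⁻¹' connectedComponentIn F (e x)) :=
      isPreconnected_connectedComponentIn.preimage_of_isOpenMap he.injective he.isOpenMap
        ((connectedComponentIn_subset _ _).trans hF)
    have h2 : e ⁻¹' connectedComponentIn F (e x) ⊆ connectedComponentIn (e ⁻¹' F) x :=
      h1.subset_connectedComponentIn (mem_connectedComponentIn hx)
        (preimage_mono (connectedComponentIn_subset _ _))
    intro y hy
    obtain ⟨z, rfl⟩ := hF (connectedComponentIn_subset _ _ hy)
    exact ⟨z, h2 hy, rfl⟩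
  · apply IsPreconnected.subset_connectedComponentIn
    · exact isPreconnected_connectedComponentIn.image _ he.continuous.continuousOn
    · exact ⟨x, mem_connectedComponentIn hx, rfl⟩
    · rintro _ ⟨z, hz, rfl⟩
      exact connectedComponentIn_subset (e ⁻¹' F) x hz

/-- A component of an open subset of a chart is the image of an open embedding of the line. -/
theorem component_emb {X : Type*} [TopologicalSpace X] {e : ℝ → X} (he : IsOpenEmbedding e) {F : Set X}
    (hFo : IsOpen F) (hF : F ⊆ range e) {y : X} (hy : y ∈ F) :
    ∃ d : ℝ → X, IsOpenEmbedding d ∧ range d = connectedComponentIn F y := by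
  obtain ⟨x, rfl⟩ := hF hy
  obtain ⟨d, hd, hdr⟩ := exists_emb (U := connectedComponentIn (e ⁻¹' F) x)
    (hFo.preimage he.continuous).connectedComponentIn
    isPreconnected_connectedComponentIn.ordConnected ⟨x, mem_connectedComponentIn hy⟩
  exact ⟨e ∘ d, he.comp hd, by rw [range_comp, hdr, component_image he hF hy]⟩

end Pool.Agent.MCG51
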