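import Pool.Agent.MCG51.Twist

/-!
No positive power of the twists is an inner automorphism.
-/

set_option autoImplicit false

namespace Pool.Agent.MCG51

open Matrix

/-- The matrix `[1 1; 0 1]`. -/
def mp : SpecialLinearGroup (Fin 2) ℤ := ⟨!![1, 1; 0, 1], by simp⟩
/-- The matrix `[1 0; 1 1]`. -/
def mq : SpecialLinearGroup (Fin 2) ℤ := ⟨!![1, 0; 1, 1], by simp⟩

/-- The entries of a matrix. -/
def ent (A : SpecialLinearGroup (Fin 2) ℤ) (i j : Fin 2) : ℤ := A.1 i j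

theorem ent_mul (A B : SpecialLinearGroup (Fin 2) ℤ) (i j : Fin 2) :
    ent (A * B) i j = ent A i 0 * ent B 0 j + ent A i 1 * ent B 1 j := by
  change (A.1 * B.1) i j = _
  rw [Matrix.mul_apply, Fin.sum_univ_two]
  rfl

theorem cm_pq : ent (cm mp mq) 0 0 = 3 ∧ ent (cm mp mq) 0 1 = -1 ∧ ent (cm mp mq) 1 0 = 1 ∧
    ent (cm mp mq) 1 1 = 0 := by
  have p1 : ent mp⁻¹ 0 0 = 1 ∧ ent mp⁻¹ 0 1 = -1 ∧ ent mp⁻¹ 1 0 = 0 ∧ ent mp⁻¹ 1 1 = 1 := by decide
  have p2 : ent mq⁻¹ 0 0 = 1 ∧ ent mq⁻¹ 0 1 = 0 ∧ ent mq⁻¹ 1 0 = -1 ∧ ent mq⁻¹ 1 1 = 1 := by decide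
  have p3 : ent mp 0 0 = 1 ∧ ent mp 0 1 = 1 ∧ ent mp 1 0 = 0 ∧ ent mp 1 1 = 1 := by decide
  have p4 : ent mq 0 0 = 1 ∧ ent mq 0 1 = 0 ∧ ent mq 1 0 = 1 ∧ ent mq 1 1 = 1 := by decide
  simp only [cm, ent_mul, p1.1, p1.2.1, p1.2.2.1, p1.2.2.2, p2.1, p2.2.1, p2.2.2.1, p2.2.2.2, p3.1, p3.2.1,
    p3.2.2.1, p3.2.2.2, p4.1, p4.2.1, p4.2.2.1, p4.2.2.2]
  norm_num

theorem pow_pos_entry (m : ℕ) : 0 ≤ ent (cm mp mq ^ m) 1 0 ∧ ent (cm mp mq ^ m) 1 0 + 1 ≤ ent (cm mp mq ^ m) 0 0 := by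
  induction m with
  | zero =>
    rw [pow_zero]
    decide
  | succ m ih =>
    rw [pow_succ', ent_mul, ent_mul, cm_pq.1, cm_pq.2.1, cm_pq.2.2.1, cm_pq.2.2.2]
    constructor <;> linarith [ih.1, ih.2]

theorem pow_ne (m : ℕ) (hm : 1 ≤ m) : mp * cm mp mq ^ m ≠ cm mp mq ^ m * mp := by
  intro h
  obtain ⟨n, rfl⟩ : ∃ n, m = n + 1 := ⟨m - 1, by omega⟩
  have h1 := congrArg (fun A => ent A 0 0) h
  have p3 : ent mp 0 0 = 1 ∧ ent mp 0 1 = 1 ∧ ent mp 1 0 = 0 ∧ ent mp 1 1 = 1 := by decide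
  simp only [ent_mul, p3.1, p3.2.1, p3.2.2.1] at h1
  have h2 : ent (cm mp mq ^ (n + 1)) 1 0 = 0 := by linarith
  rw [pow_succ', ent_mul, cm_pq.2.2.1, cm_pq.2.2.2] at h2
  have := pow_pos_entry n
  linarith [this.1, this.2]

/-- A homomorphism to `SL₂(ℤ)`. -/
theorem exists_rep {g h : ℕ} (h1 : 1 ≤ h) (hh : h < g) : ∃ θ : SG g →* SpecialLinearGroup (Fin 2) ℤ,
    θ (av g 0) = mp ∧ θ (bv g 0) = mq ∧ θ (av g h) = mq ∧ θ (bv g h) = mp ∧
    θ (Pr (kap g) h) = cm mp mq := by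
  set α : ℕ → SpecialLinearGroup (Fin 2) ℤ := fun n => if n = 0 then mp else if n = h then mq else 1 with hα
  set β : ℕ → SpecialLinearGroup (Fin 2) ℤ := fun n => if n = 0 then mq else if n = h then mp else 1 with hβ
  have hc : ∀ n, cm (α n) (β n) = if n = 0 then cm mp mq else if n = h then cm mq mp else 1 := by
    intro n
    simp only [hα, hβ]
    split_ifs <;> simp [cm]
  have p1 : ∀ n, 1 ≤ n → n ≤ h → Pr (fun n => cm (α n) (β n)) n = cm mp mq := by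
    intro n hn
    induction n, hn using Nat.le_induction with
    | base =>
      intro _
      rw [Pr_succ, Pr_zero, one_mul, hc, if_pos rfl]
    | succ n hn ih =>
      intro hnh
      rw [Pr_succ, ih (by omega), hc, if_neg (by omega), if_neg (by omega), mul_one]
  have p2 : ∀ n, h + 1 ≤ n → Pr (fun n => cm (α n) (β n)) n = 1 := by
    intro n hn
    induction n, hn using Nat.le_induction with
    | base =>
      rw [Pr_succ, p1 h h1 le_rfl, hc, if_neg (by omega), if_pos rfl]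
      simp only [cm]
      group
    | succ n hn ih => rw [Pr_succ, ih, hc, if_neg (by omega), if_neg (by omega), mul_one]
  refine ⟨sgHom α β (p2 g hh), ?_, ?_, ?_, ?_, ?_⟩
  · rw [sgHom_a _ _ _ (by omega)]; simp [hα]
  · rw [sgHom_b _ _ _ (by omega)]; simp [hβ]
  · rw [sgHom_a _ _ _ hh]; simp [hα]; omega
  · rw [sgHom_b _ _ _ hh]; simp [hβ]; omega
  · rw [map_Pr, ← p1 h h1 le_rfl]
    apply Pr_congr
    intro k hk
    rw [kap, map_cm, sgHom_a _ _ _ (by omega), sgHom_b _ _ _ (by omega)]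

theorem SepTwist.fix_c {g h : ℕ} {T : MulAut (SG g)} (hT : SepTwist g h T) :
    T (Pr (kap g) h) = Pr (kap g) h := by
  have h1 : T (Pr (kap g) h) = (Pr (kap g) h)⁻¹⁻¹ * Pr (kap g) h * (Pr (kap g) h)⁻¹ := by
    have := map_Pr T.toMonoidHom (kap g) h
    rw [← Pr_conj]
    refine Eq.trans this (Pr_congr ?_)
    intro k hk
    change T (kap g k) = _
    rw [kap, map_cm, (hT.inside k hk).1, (hT.inside k hk).2, ← cm_conj, inv_inv]
  rw [h1]
  group

theorem SepTwist.pow_inside {g h : ℕ} {T : MulAut (SG g)} (hT : SepTwist g h T) (m : ℕ) {k : ℕ} (hk : k < h) :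
    (T ^ m) (av g k) = Pr (kap g) h ^ m * av g k * (Pr (kap g) h ^ m)⁻¹ ∧
    (T ^ m) (bv g k) = Pr (kap g) h ^ m * bv g k * (Pr (kap g) h ^ m)⁻¹ := by
  induction m with
  | zero => simp
  | succ m ih =>
    rw [pow_succ', MulAut.mul_apply, MulAut.mul_apply, ih.1, ih.2]
    simp only [map_mul, map_inv, map_pow, hT.fix_c, (hT.inside k hk).1, (hT.inside k hk).2]
    constructor <;> (rw [pow_succ]; group)

theorem SepTwist.pow_outside {g h : ℕ} {T : MulAut (SG g)} (hT : SepTwist g h T) (m : ℕ) {k : ℕ} (hk : h ≤ k) :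
    (T ^ m) (av g k) = av g k ∧ (T ^ m) (bv g k) = bv g k := by
  induction m with
  | zero => simp
  | succ m ih =>
    rw [pow_succ', MulAut.mul_apply, MulAut.mul_apply, ih.1, ih.2]
    exact hT.outside k hk

theorem sep_not_inner {g h : ℕ} (h1 : 1 ≤ h) (hh : h < g) {T : MulAut (SG g)} (hT : SepTwist g h T) {m : ℕ}
    (hm : 1 ≤ m) : T ^ m ∉ (MulAut.conj : SG g →* MulAut (SG g)).range := by
  rintro ⟨w, hw⟩
  obtain ⟨θ, e1, e2, e3, e4, e5⟩ := exists_rep h1 hh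
  have hy : ∀ y, (T ^ m) y = w * y * w⁻¹ := by
    intro y
    rw [← hw]
    rfl
  have hin := hT.pow_inside m (show 0 < h by omega)
  have hout := hT.pow_outside m (le_refl h)
  rw [hy, hy] at hin hout
  have i1 := congrArg θ hin.1
  have o2 := congrArg θ hout.2
  simp only [map_mul, map_inv, map_pow, e1, e2, e3, e4, e5] at i1 o2
  -- `θ w` commutes with `mp`
  have o3 : θ w * mp = mp * θ w := by
    rw [mul_inv_eq_iff_eq_mul] at o2
    exact o2
  rw [o3] at i1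
  rw [mul_inv_cancel_right] at i1
  exact pow_ne m hm (mul_inv_eq_iff_eq_mul.mp i1.symm).symm

theorem nonsep_not_inner {g : ℕ} (hg : 3 ≤ g) {T : MulAut (SG g)} (hT : NonsepTwist g T) {m : ℕ}
    (hm : 1 ≤ m) : T ^ m ∉ (MulAut.conj : SG g →* MulAut (SG g)).range := by
  rintro ⟨w, hw⟩
  have hy : ∀ y, (T ^ m) y = w * y * w⁻¹ := by
    intro y
    rw [← hw]
    rfl
  have hpow : ∀ n : ℕ, (T ^ n) (bv g 2) = bv g 2 * (av g 2)⁻¹ ^ n := by
    intro n
    induction n with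
    | zero => simp
    | succ n ih =>
      rw [pow_succ', MulAut.mul_apply, ih, map_mul, map_pow, map_inv, hT.b2, hT.a, pow_succ', mul_assoc]
  -- a homomorphism to the integers
  set α : ℕ → Multiplicative ℤ := fun n => if n = 2 then Multiplicative.ofAdd 1 else 1 with hα
  have hrel : Pr (fun n => cm (α n) ((fun _ => 1 : ℕ → Multiplicative ℤ) n)) g = 1 := by
    have : (fun n => cm (α n) ((fun _ => 1 : ℕ → Multiplicative ℤ) n)) = fun _ => 1 := by
      funext n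
      simp [cm]
    rw [this]
    clear * -
    induction g with
    | zero => rfl
    | succ n ih => rw [Pr_succ, ih, mul_one]
  set θ := sgHom α (fun _ => 1) hrel with hθ
  have e1 : θ (av g 2) = Multiplicative.ofAdd 1 := by
    rw [hθ, sgHom_a _ _ _ (by omega)]; simp [hα]
  have h2 := congrArg θ (hpow m)
  rw [hy] at h2
  simp only [map_mul, map_inv, map_pow, e1] at h2
  have h3 : (Multiplicative.ofAdd (1 : ℤ)) ^ m = 1 := by
    have h4 : θ w * θ (bv g 2) * (θ w)⁻¹ = θ (bv g 2) := by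
      rw [mul_comm (θ w), mul_assoc, mul_inv_cancel, mul_one]
    rw [h4] at h2
    have h5 := mul_left_cancel (show θ (bv g 2) * 1 = θ (bv g 2) * (Multiplicative.ofAdd (1 : ℤ))⁻¹ ^ m by
      rw [mul_one]; exact h2)
    rw [inv_pow] at h5
    exact inv_eq_one.mp h5.symm
  rw [← ofAdd_nsmul, ← ofAdd_zero] at h3
  have h4 := Multiplicative.ofAdd.injective h3
  simp at h4
  omega

end Pool.Agent.MCG51
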