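import Pool.Agent.MCG51.Strong
import Pool.Agent.MCG51.Inf

/-!
The final form of the theorem for two commuting groups.
-/

set_option autoImplicit false

open Set Filter Topology

namespace Pool.Agent.MCG51

/-- `F`, the fixed point set of `ρ (t ^ m)`, is also the fixed point set of all positive powers of `ρ (t ^ m)`;
every component of the complement of `F` has infinitely many images under the elements of `Γ` that commute with
`t`; and `F` is everything or has infinitely many boundary points. -/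
structure Good {X : Type*} [TopologicalSpace X] {G : Type*} [Group G] (t : G) (Γ : Subgroup G)
    (ρ : Γ →* (X ≃ₜ X)) (m : ℕ) (hm : t ^ m ∈ Γ) : Prop where
  pow : ∀ k : ℕ, 1 ≤ k → ∀ x, (ρ (⟨t ^ m, hm⟩ ^ k) x = x ↔ ρ ⟨t ^ m, hm⟩ x = x)
  orbit : ∀ x, ρ ⟨t ^ m, hm⟩ x ≠ x →
    {J : Set X | ∃ γ : Γ, γ.1 * t = t * γ.1 ∧ J = ρ γ '' connectedComponentIn {y | ρ ⟨t ^ m, hm⟩ y ≠ y} x}.Infinite
  boundary : ρ ⟨t ^ m, hm⟩ = 1 ∨ (frontier {x | ρ ⟨t ^ m, hm⟩ x = x}).Infinite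

theorem TwoSides.pow {G : Type*} [Group G] {G₁ G₂ : Subgroup G} {t : G} (hT : TwoSides G₁ G₂ t) (n : ℕ) :
    TwoSides G₁ G₂ (t ^ n) where
  comm := hT.comm
  mem₁ := G₁.pow_mem hT.mem₁ n
  mem₂ := G₂.pow_mem hT.mem₂ n
  com₁ := by
    rw [← pow_mul, mul_comm, pow_mul]
    exact Subgroup.pow_mem _ hT.com₁ n
  com₂ := by
    rw [← pow_mul, mul_comm, pow_mul]
    exact Subgroup.pow_mem _ hT.com₂ n

theorem boundary_of {X : Type*} [TopologicalSpace X] {G : Type*} [Group G] {t : G} {Γ : Subgroup G}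
    {ρ : Γ →* (X ≃ₜ X)} {m : ℕ} {hm : t ^ m ∈ Γ}
    (hpow : ∀ k : ℕ, 1 ≤ k → ∀ x, (ρ (⟨t ^ m, hm⟩ ^ k) x = x ↔ ρ ⟨t ^ m, hm⟩ x = x))
    (h : ∃ (k : ℕ) (hk : (t ^ m) ^ k ∈ Γ), 1 ≤ k ∧
      (ρ ⟨(t ^ m) ^ k, hk⟩ = 1 ∨ (frontier {x | ρ ⟨(t ^ m) ^ k, hk⟩ x = x}).Infinite)) :
    ρ ⟨t ^ m, hm⟩ = 1 ∨ (frontier {x | ρ ⟨t ^ m, hm⟩ x = x}).Infinite := by
  obtain ⟨k, hk, hk1, h⟩ := h
  have e : (⟨(t ^ m) ^ k, hk⟩ : Γ) = ⟨t ^ m, hm⟩ ^ k := rfl
  rw [e] at h
  have e2 : {x | ρ (⟨t ^ m, hm⟩ ^ k) x = x} = {x | ρ ⟨t ^ m, hm⟩ x = x} := by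
    ext x
    exact hpow k hk1 x
  rcases h with h | h
  · left
    apply Homeomorph.ext
    intro x
    change ρ ⟨t ^ m, hm⟩ x = x
    rw [← hpow k hk1 x, h]
    rfl
  · right
    rw [← e2]
    exact h

theorem circ_final {G : Type*} [Group G] {G₁ G₂ : Subgroup G} {t : G} (hT : TwoSides G₁ G₂ t) (Γ : Subgroup G)
    (h1 : Γ.relIndex G₁ ≠ 0) (h2 : Γ.relIndex G₂ ≠ 0) (ρ : Γ →* (S1 ≃ₜ S1)) :
    ∃ (m : ℕ) (hm : t ^ m ∈ Γ), 1 ≤ m ∧ Good t Γ ρ m hm := by
  obtain ⟨m, hm, hm1, hpow, horb⟩ := circ_strong hT Γ h1 h2 ρ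
  exact ⟨m, hm, hm1, hpow, horb, boundary_of hpow (circ (hT.pow m) Γ h1 h2 ρ)⟩

/-- Components that contain a ray have finitely many images. -/
theorem ray_finite {G : Type*} [Group G] {t : G} {Γ : Subgroup G} {ρ : Γ →* (ℝ ≃ₜ ℝ)} {m : ℕ} {hm : t ^ m ∈ Γ}
    {C : Set ℝ} {x : ℝ} (hC : C = connectedComponentIn {y | ρ ⟨t ^ m, hm⟩ y ≠ y} x)
    (hray : ∃ M, Ioi M ⊆ C ∨ Iio M ⊆ C) :
    {J : Set ℝ | ∃ γ : Γ, γ.1 * t = t * γ.1 ∧ J = ρ γ '' C}.Finite := by
  set f := ρ ⟨t ^ m, hm⟩ with hf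
  -- images are components
  have hcomp : ∀ γ : Γ, γ.1 * t = t * γ.1 → ∀ z ∈ ρ γ '' C, ρ γ '' C = connectedComponentIn {y | f y ≠ y} z := by
    intro γ hγ z hz
    have hc : ∀ x, f (ρ γ x) = ρ γ (f x) := by
      intro x
      have h3 : (⟨t ^ m, hm⟩ : Γ) * γ = γ * ⟨t ^ m, hm⟩ := by
        apply Subtype.ext
        change t ^ m * γ.1 = γ.1 * t ^ m
        exact ((Commute.pow_right (show Commute γ.1 t from hγ) m).eq).symm
      have h4 := congrArg ρ h3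
      rw [map_mul, map_mul] at h4
      exact DFunLike.congr_fun h4 x
    have hCsub : C ⊆ {y | f y ≠ y} := by
      rw [hC]
      exact connectedComponentIn_subset _ _
    apply Subset.antisymm
    · apply IsPreconnected.subset_connectedComponentIn
      · rw [hC]
        exact isPreconnected_connectedComponentIn.image _ (ρ γ).continuous.continuousOn
      · exact hz
      · rintro _ ⟨w, hw, rfl⟩
        change f (ρ γ w) ≠ ρ γ w
        rw [hc]
        exact fun h => hCsub hw ((ρ γ).injective h)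
    · obtain ⟨w, hw, rfl⟩ := hz
      have h5 : (ρ γ).symm '' connectedComponentIn {y | f y ≠ y} (ρ γ w) ⊆ C := by
        have h6 : C = connectedComponentIn {y | f y ≠ y} w := by
          rw [hC] at hw ⊢
          exact connectedComponentIn_eq hw
        rw [h6]
        apply IsPreconnected.subset_connectedComponentIn
        · exact isPreconnected_connectedComponentIn.image _ (ρ γ).symm.continuous.continuousOn
        · refine ⟨ρ γ w, mem_connectedComponentIn ?_, (ρ γ).symm_apply_apply w⟩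
          change f (ρ γ w) ≠ ρ γ w
          rw [hc]
          exact fun h => hCsub hw ((ρ γ).injective h)
        · rintro _ ⟨v, hv, rfl⟩
          have hv' : f v ≠ v := connectedComponentIn_subset _ _ hv
          change f ((ρ γ).symm v) ≠ (ρ γ).symm v
          intro h
          apply hv'
          have h7 := hc ((ρ γ).symm v)
          rw [h, (ρ γ).apply_symm_apply] at h7
          exact h7
      intro v hv
      exact ⟨(ρ γ).symm v, h5 ⟨v, hv, rfl⟩, (ρ γ).apply_symm_apply v⟩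
  -- each image contains a ray
  have hup : ∀ (φ : ℝ ≃ₜ ℝ) (M : ℝ), StrictMono φ → φ '' Ioi M = Ioi (φ M) ∧ φ '' Iio M = Iio (φ M) := by
    intro φ M hφ
    constructor
    · ext y
      constructor
      · rintro ⟨z, hz, rfl⟩
        exact hφ hz
      · intro hy
        refine ⟨φ.symm y, ?_, φ.apply_symm_apply y⟩
        exact hφ.lt_iff_lt.mp (by rw [φ.apply_symm_apply]; exact hy)
    · ext y
      constructor
      · rintro ⟨z, hz, rfl⟩
        exact hφ hz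
      · intro hy
        refine ⟨φ.symm y, ?_, φ.apply_symm_apply y⟩
        exact hφ.lt_iff_lt.mp (by rw [φ.apply_symm_apply]; exact hy)
  have hdn : ∀ (φ : ℝ ≃ₜ ℝ) (M : ℝ), StrictAnti φ → φ '' Ioi M = Iio (φ M) ∧ φ '' Iio M = Ioi (φ M) := by
    intro φ M hφ
    constructor
    · ext y
      constructor
      · rintro ⟨z, hz, rfl⟩
        exact hφ hz
      · intro hy
        refine ⟨φ.symm y, ?_, φ.apply_symm_apply y⟩
        exact hφ.lt_iff_gt.mp (by rw [φ.apply_symm_apply]; exact hy)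
    · ext y
      constructor
      · rintro ⟨z, hz, rfl⟩
        exact hφ hz
      · intro hy
        refine ⟨φ.symm y, ?_, φ.apply_symm_apply y⟩
        exact hφ.lt_iff_gt.mp (by rw [φ.apply_symm_apply]; exact hy)
  have hrays : ∀ γ : Γ, ∃ M, Ioi M ⊆ ρ γ '' C ∨ Iio M ⊆ ρ γ '' C := by
    intro γ
    obtain ⟨M, hM⟩ := hray
    refine ⟨ρ γ M, ?_⟩
    rcases mono_or_anti (ρ γ) with h | h
    · rcases hM with h' | h'
      · left
        rw [← (hup _ M h).1]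
        exact image_mono h'
      · right
        rw [← (hup _ M h).2]
        exact image_mono h'
    · rcases hM with h' | h'
      · right
        rw [← (hdn _ M h).1]
        exact image_mono h'
      · left
        rw [← (hdn _ M h).2]
        exact image_mono h'
  have hsplit : {J : Set ℝ | ∃ γ : Γ, γ.1 * t = t * γ.1 ∧ J = ρ γ '' C} ⊆
      {J | (∃ γ : Γ, γ.1 * t = t * γ.1 ∧ J = ρ γ '' C) ∧ ∃ M, Ioi M ⊆ J} ∪
      {J | (∃ γ : Γ, γ.1 * t = t * γ.1 ∧ J = ρ γ '' C) ∧ ∃ M, Iio M ⊆ J} := by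
    rintro J ⟨γ, hγ, rfl⟩
    obtain ⟨M, hM | hM⟩ := hrays γ
    · exact Or.inl ⟨⟨γ, hγ, rfl⟩, M, hM⟩
    · exact Or.inr ⟨⟨γ, hγ, rfl⟩, M, hM⟩
  refine Finite.subset (Finite.union (Set.Subsingleton.finite ?_) (Set.Subsingleton.finite ?_)) hsplit
  · rintro _ ⟨⟨γ, hγ, rfl⟩, M, hM⟩ _ ⟨⟨δ, hδ, rfl⟩, N, hN⟩
    have z1 : max M N + 1 ∈ ρ γ '' C := hM (lt_of_le_of_lt (le_max_left M N) (by linarith))
    have z2 : max M N + 1 ∈ ρ δ '' C := hN (lt_of_le_of_lt (le_max_right M N) (by linarith))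
    rw [hcomp γ hγ _ z1, hcomp δ hδ _ z2]
  · rintro _ ⟨⟨γ, hγ, rfl⟩, M, hM⟩ _ ⟨⟨δ, hδ, rfl⟩, N, hN⟩
    have z1 : min M N - 1 ∈ ρ γ '' C := hM (lt_of_lt_of_le (by linarith) (min_le_left M N))
    have z2 : min M N - 1 ∈ ρ δ '' C := hN (lt_of_lt_of_le (by linarith) (min_le_right M N))
    rw [hcomp γ hγ _ z1, hcomp δ hδ _ z2]

theorem line_final {G : Type*} [Group G] {G₁ G₂ : Subgroup G} {t : G} (hT : TwoSides G₁ G₂ t) (Γ : Subgroup G)
    (h1 : Γ.relIndex G₁ ≠ 0) (h2 : Γ.relIndex G₂ ≠ 0) (ρ : Γ →* (ℝ ≃ₜ ℝ)) :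
    ∃ (m : ℕ) (hm : t ^ m ∈ Γ), 1 ≤ m ∧ Good t Γ ρ m hm ∧
      ∀ M : ℝ, (∃ x > M, ρ ⟨t ^ m, hm⟩ x = x) ∧ ∃ x < M, ρ ⟨t ^ m, hm⟩ x = x := by
  obtain ⟨m, hm, hm1, hpow, horb⟩ := line_strong hT Γ h1 h2 ρ
  refine ⟨m, hm, hm1, ⟨hpow, horb, boundary_of hpow (line (hT.pow m) Γ h1 h2 ρ)⟩, ?_⟩
  intro M
  constructor
  · by_contra hcon
    push Not at hcon
    have h3 : Ioi M ⊆ connectedComponentIn {y | ρ ⟨t ^ m, hm⟩ y ≠ y} (M + 1) := by
      apply IsPreconnected.subset_connectedComponentIn isPreconnected_Ioi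
      · change M < M + 1
        linarith
      · intro y hy
        exact hcon y hy
    exact horb (M + 1) (hcon _ (by linarith)) (ray_finite rfl ⟨M, Or.inl h3⟩)
  · by_contra hcon
    push Not at hcon
    have h3 : Iio M ⊆ connectedComponentIn {y | ρ ⟨t ^ m, hm⟩ y ≠ y} (M - 1) := by
      apply IsPreconnected.subset_connectedComponentIn isPreconnected_Iio
      · change M - 1 < M
        linarith
      · intro y hy
        exact hcon y hy
    exact horb (M - 1) (hcon _ (by linarith)) (ray_finite rfl ⟨M, Or.inr h3⟩)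

end Pool.Agent.MCG51
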