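import Pool.Agent.MCG51.Tau

/-!
The homomorphism of `FreeSet` (Hölder): the limit.
-/

set_option autoImplicit false

open Set Filter Topology

namespace Pool.Agent.MCG51

namespace FreeSet

variable {A : Subgroup (ℝ ≃o ℝ)} {I L : Set ℝ}

section

variable (hI : I.OrdConnected) (h : FreeSet A I L) {u : ℝ ≃o ℝ} (hu : u ∈ A) {x : ℝ} (hx : x ∈ L)
    (hux : x < u x) (hc : ∀ g ∈ A, g * u = u * g)

theorem fl_one : h.fl hI hu hx hux 1 = 0 := by
  have h1 : 0 ≤ h.fl hI hu hx hux 1 := by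
    apply h.le_fl hI hu hx hux
    simp
  have h2 : h.fl hI hu hx hux 1 < 1 := by
    apply h.fl_lt hI hu hx hux
    simpa using hux
  omega

theorem fl_u (n : ℕ) : h.fl hI hu hx hux (⟨u, hu⟩ ^ n) = n := by
  have h1 : (n : ℤ) ≤ h.fl hI hu hx hux (⟨u, hu⟩ ^ n) := by
    apply h.le_fl hI hu hx hux
    simp
  have h2 : h.fl hI hu hx hux (⟨u, hu⟩ ^ n) < n + 1 := by
    apply h.fl_lt hI hu hx hux
    have h3 : (u ^ n) x < (u ^ n) (u x) := (u ^ n).strictMono hux
    have h4 : (u ^ ((n : ℤ) + 1)) x = (u ^ n) (u x) := by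
      rw [← mul_app, ← pow_succ, ← zpow_natCast]
      push_cast
      rfl
    rw [h4]
    simpa using h3
  omega

include hc in
theorem fl_pow_le (g : A) (n : ℕ) : h.fl hI hu hx hux (g ^ n) ≤ n * (h.fl hI hu hx hux g + 1) := by
  induction n with
  | zero => simp [fl_one]
  | succ n ih =>
    have h1 := h.le_add hI hu hx hux hc (g ^ n) g
    rw [← pow_succ] at h1
    push_cast
    nlinarith

include hc in
theorem exists_lim (g : A) :
    ∃ t : ℝ, Tendsto (fun n : ℕ => (h.fl hI hu hx hux (g ^ n) : ℝ) / n) atTop (𝓝 t) := by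
  set a : ℕ → ℝ := fun n => -(h.fl hI hu hx hux (g ^ n) : ℝ) with ha
  have hs : Subadditive a := by
    intro m n
    have h1 := h.add_le hI hu hx hux hc (g ^ m) (g ^ n)
    rw [← pow_add] at h1
    have h2 : ((h.fl hI hu hx hux (g ^ m) : ℤ) : ℝ) + (h.fl hI hu hx hux (g ^ n) : ℝ) ≤
        (h.fl hI hu hx hux (g ^ (m + n)) : ℝ) := by exact_mod_cast h1
    simp only [ha]
    linarith
  have hb : BddBelow (Set.range fun n => a n / n) := by
    refine ⟨-(|(h.fl hI hu hx hux g : ℝ)| + 1), ?_⟩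
    rintro _ ⟨n, rfl⟩
    rcases Nat.eq_zero_or_pos n with rfl | hn
    · simp only [Nat.cast_zero, div_zero]
      have := abs_nonneg (h.fl hI hu hx hux g : ℝ)
      linarith
    · have hn' : (0 : ℝ) < n := by exact_mod_cast hn
      have h1 : (h.fl hI hu hx hux (g ^ n) : ℝ) ≤ n * (h.fl hI hu hx hux g + 1) := by
        exact_mod_cast h.fl_pow_le hI hu hx hux hc g n
      have h2 : (h.fl hI hu hx hux g : ℝ) ≤ |(h.fl hI hu hx hux g : ℝ)| := le_abs_self _
      simp only [ha]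
      rw [le_div_iff₀ hn']
      nlinarith
  refine ⟨-hs.lim, ?_⟩
  have h1 := (hs.tendsto_lim hb).neg
  refine h1.congr (fun n => ?_)
  simp only [ha]
  ring

/-- The translation number. -/
noncomputable def tn (g : A) : ℝ := (h.exists_lim hI hu hx hux hc g).choose

theorem tn_spec (g : A) :
    Tendsto (fun n : ℕ => (h.fl hI hu hx hux (g ^ n) : ℝ) / n) atTop (𝓝 (h.tn hI hu hx hux hc g)) :=
  (h.exists_lim hI hu hx hux hc g).choose_spec

theorem tn_mul (g k : A) :
    h.tn hI hu hx hux hc (g * k) = h.tn hI hu hx hux hc g + h.tn hI hu hx hux hc k := by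
  have h1 := (h.tn_spec hI hu hx hux hc (g * k)).sub
    ((h.tn_spec hI hu hx hux hc g).add (h.tn_spec hI hu hx hux hc k))
  have h2 : Tendsto (fun n : ℕ => (h.fl hI hu hx hux ((g * k) ^ n) : ℝ) / n -
      ((h.fl hI hu hx hux (g ^ n) : ℝ) / n + (h.fl hI hu hx hux (k ^ n) : ℝ) / n)) atTop (𝓝 0) := by
    refine squeeze_zero_norm (a := fun n : ℕ => 1 / (n : ℝ)) ?_ tendsto_one_div_atTop_nhds_zero_nat
    intro n
    rcases Nat.eq_zero_or_pos n with rfl | hn
    · simp
    · have hn' : (0 : ℝ) < n := by exact_mod_cast hn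
      obtain ⟨h3, h4⟩ := h.pow_close hI hu hx hux hc g k n
      have h3' : (h.fl hI hu hx hux (g ^ n) : ℝ) + (h.fl hI hu hx hux (k ^ n) : ℝ) ≤
          (h.fl hI hu hx hux ((g * k) ^ n) : ℝ) := by exact_mod_cast h3
      have h4' : (h.fl hI hu hx hux ((g * k) ^ n) : ℝ) ≤ (h.fl hI hu hx hux (g ^ n) : ℝ) +
          (h.fl hI hu hx hux (k ^ n) : ℝ) + 1 := by exact_mod_cast h4
      rw [← add_div, ← sub_div, norm_div, Real.norm_natCast, Real.norm_eq_abs]
      apply div_le_div_of_nonneg_right _ hn'.le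
      rw [abs_le]
      constructor <;> linarith
  have h5 := tendsto_nhds_unique h1 h2
  linarith

theorem tn_u : h.tn hI hu hx hux hc ⟨u, hu⟩ = 1 := by
  have h1 := h.tn_spec hI hu hx hux hc ⟨u, hu⟩
  have h2 : Tendsto (fun n : ℕ => (h.fl hI hu hx hux (⟨u, hu⟩ ^ n) : ℝ) / n) atTop (𝓝 1) := by
    have : ∀ᶠ n : ℕ in atTop, (h.fl hI hu hx hux (⟨u, hu⟩ ^ n) : ℝ) / n = 1 := by
      filter_upwards [eventually_gt_atTop 0] with n hn
      rw [fl_u]
      have hn' : (n : ℝ) ≠ 0 := by exact_mod_cast hn.ne'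
      push_cast
      field_simp
    exact (tendsto_congr' this).mpr tendsto_const_nhds
  exact tendsto_nhds_unique h1 h2

theorem tn_one : h.tn hI hu hx hux hc 1 = 0 := by
  have := h.tn_mul hI hu hx hux hc 1 1
  rw [mul_one] at this
  linarith

/-- The homomorphism. -/
noncomputable def tau : A →* Multiplicative ℝ where
  toFun g := Multiplicative.ofAdd (h.tn hI hu hx hux hc g)
  map_one' := by rw [tn_one]; rfl
  map_mul' g k := by rw [tn_mul]; rfl

theorem tn_pow (g : A) (n : ℕ) : h.tn hI hu hx hux hc (g ^ n) = n * h.tn hI hu hx hux hc g := by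
  induction n with
  | zero => simp [tn_one]
  | succ n ih =>
    rw [pow_succ, tn_mul, ih]
    push_cast
    ring

theorem tn_pos (g : A) (hg : x < g.1 x) : 0 < h.tn hI hu hx hux hc g := by
  obtain ⟨n, hn⟩ := h.cofinal hI g.2 hx (h.inv u hu x hx) hg
  -- u ≤ g ^ n, so (g ^ n) ^ k has floor ≥ k
  have h1 : ∀ k : ℕ, ∀ y ∈ L, (u ^ k) y ≤ ((g.1 ^ n) ^ k) y := by
    intro k
    induction k with
    | zero => intro y _; simp
    | succ k ih =>
      intro y hy
      have h2 : (u ^ (k + 1)) y = u ((u ^ k) y) := by rw [pow_succ', mul_app]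
      have h3 : ((g.1 ^ n) ^ (k + 1)) y = (g.1 ^ n) (((g.1 ^ n) ^ k) y) := by rw [pow_succ', mul_app]
      rw [h2, h3]
      have h4 : ((g.1 ^ n) ^ k) y ∈ L := h.inv _ (A.pow_mem (A.pow_mem g.2 n) k) y hy
      have h5 := h.le_of_le hI hu (A.pow_mem g.2 n) hx h4 hn.le
      exact (u.monotone (ih y hy)).trans h5
  have h2 : 1 ≤ h.tn hI hu hx hux hc (g ^ n) := by
    refine ge_of_tendsto (h.tn_spec hI hu hx hux hc (g ^ n)) ?_
    filter_upwards [eventually_gt_atTop 0] with k hk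
    have hk' : (0 : ℝ) < k := by exact_mod_cast hk
    rw [le_div_iff₀ hk', one_mul]
    have h3 : (k : ℤ) ≤ h.fl hI hu hx hux ((g ^ n) ^ k) := by
      apply h.le_fl hI hu hx hux
      have := h1 k x hx
      simpa using this
    exact_mod_cast h3
  rw [tn_pow] at h2
  by_contra hcon
  have h3 : (n : ℝ) * h.tn hI hu hx hux hc g ≤ 0 :=
    mul_nonpos_of_nonneg_of_nonpos (Nat.cast_nonneg n) (not_lt.mp hcon)
  linarith

end

/-- **Hölder.** -/
theorem exists_tau (hI : I.OrdConnected) (h : FreeSet A I L) {u : ℝ ≃o ℝ} (hu : u ∈ A) {x : ℝ} (hx : x ∈ L)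
    (hux : x < u x) (hc : ∀ g ∈ A, g * u = u * g) :
    ∃ τ : A →* Multiplicative ℝ, τ ⟨u, hu⟩ = Multiplicative.ofAdd 1 ∧
      ∀ g : A, τ g = 1 → ∀ y ∈ L, g.1 y = y := by
  refine ⟨h.tau hI hu hx hux hc, ?_, ?_⟩
  · change Multiplicative.ofAdd (h.tn hI hu hx hux hc ⟨u, hu⟩) = _
    rw [tn_u]
  · intro g hg
    have hg0 : h.tn hI hu hx hux hc g = 0 := by
      have : Multiplicative.ofAdd (h.tn hI hu hx hux hc g) = Multiplicative.ofAdd (0 : ℝ) := hg
      exact Multiplicative.ofAdd.injective this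
    have hgx : g.1 x = x := by
      rcases lt_trichotomy (g.1 x) x with h1 | h1 | h1
      · exfalso
        have h2 : x < (g⁻¹).1 x := by
          have := ((g⁻¹).1).strictMono h1
          simpa using this
        have h3 := h.tn_pos hI hu hx hux hc g⁻¹ h2
        have h4 := h.tn_mul hI hu hx hux hc g g⁻¹
        rw [mul_inv_cancel, tn_one, hg0] at h4
        linarith
      · exact h1
      · exact absurd (h.tn_pos hI hu hx hux hc g h1) (by rw [hg0]; exact lt_irrefl 0)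
    exact h.free g.1 g.2 x hx hgx

/-- An element of the commutator subgroup is trivial on `L`. -/
theorem comm_trivial (hI : I.OrdConnected) (h : FreeSet A I L) {u : ℝ ≃o ℝ} (hu : u ∈ A) {x : ℝ} (hx : x ∈ L)
    (hux : x < u x) (hc : ∀ g ∈ A, g * u = u * g) {g : ℝ ≃o ℝ} (hg : g ∈ ⁅A, A⁆) : ∀ y ∈ L, g y = y := by
  obtain ⟨τ, -, h2⟩ := h.exists_tau hI hu hx hux hc
  rw [← Subgroup.map_subtype_commutator] at hg
  obtain ⟨k, hk, rfl⟩ := hg
  exact h2 k (Abelianization.commutator_subset_ker τ hk)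

end FreeSet

end Pool.Agent.MCG51
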