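import Mathlib

/-!
A group of increasing homeomorphisms of the real line that acts freely (modulo the kernel) on a closed invariant
subset of an interval has a homomorphism to the real numbers which is `1` on a given central element without fixed
points (Hölder).
-/

set_option autoImplicit false

open Set Filter Topology

namespace Pool.Agent.MCG51

/-- `L` is a nonempty subset of `I`, closed in `I`, invariant under `A`, and every element of `A` that fixes a point
of `L` fixes every point of `L`. -/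
structure FreeSet (A : Subgroup (ℝ ≃o ℝ)) (I L : Set ℝ) : Prop where
  ne : L.Nonempty
  sub : L ⊆ I
  cl : ∀ x ∈ I, x ∈ closure L → x ∈ L
  inv : ∀ g ∈ A, ∀ x ∈ L, g x ∈ L
  free : ∀ g ∈ A, ∀ x ∈ L, g x = x → ∀ y ∈ L, g y = y

namespace FreeSet

variable {A : Subgroup (ℝ ≃o ℝ)} {I L : Set ℝ}

theorem sup_mem (hI : I.OrdConnected) (h : FreeSet A I L) {B : Set ℝ} (hB : B ⊆ L) (hne : B.Nonempty)
    {y : ℝ} (hy : y ∈ I) (hb : ∀ z ∈ B, z ≤ y) : sSup B ∈ L := by
  obtain ⟨b, hb'⟩ := hne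
  have hbd : BddAbove B := ⟨y, hb⟩
  have h1 : b ≤ sSup B := le_csSup hbd hb'
  have h2 : sSup B ≤ y := csSup_le ⟨b, hb'⟩ hb
  exact h.cl _ (hI.out (h.sub (hB hb')) hy ⟨h1, h2⟩) (closure_mono hB (csSup_mem_closure ⟨b, hb'⟩ hbd))

theorem sign_up (hI : I.OrdConnected) (h : FreeSet A I L) {g : ℝ ≃o ℝ} (hg : g ∈ A) {x y : ℝ} (hx : x ∈ L)
    (hy : y ∈ L) (hxy : x ≤ y) (hgx : x < g x) : y < g y := by
  by_contra hc
  have hne : ∀ z ∈ L, g z ≠ z := fun z hz e => hgx.ne' (h.free g hg z hz e x hx)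
  have hgy : g y < y := lt_of_le_of_ne (not_lt.mp hc) (hne y hy)
  set B : Set ℝ := {z | z ∈ L ∧ x ≤ z ∧ z ≤ y ∧ z < g z} with hB
  have hxB : x ∈ B := ⟨hx, le_rfl, hxy, hgx⟩
  have hbd : BddAbove B := ⟨y, fun z hz => hz.2.2.1⟩
  have hsL : sSup B ∈ L := h.sup_mem hI (fun z hz => hz.1) ⟨x, hxB⟩ (h.sub hy) (fun z hz => hz.2.2.1)
  set s := sSup B with hs
  have hxs : x ≤ s := le_csSup hbd hxB
  have hsy : s ≤ y := csSup_le ⟨x, hxB⟩ (fun z hz => hz.2.2.1)
  have h1 : s ≤ g s := csSup_le ⟨x, hxB⟩ (fun z hz => (hz.2.2.2.trans_le (g.monotone (le_csSup hbd hz))).le)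
  have h2 : s < g s := lt_of_le_of_ne h1 (hne s hsL).symm
  have h3 : s ≠ y := fun e => by rw [e] at h2; exact absurd h2 (not_lt.mpr hgy.le)
  have h4 : s < y := lt_of_le_of_ne hsy h3
  have h5 : g s ∈ B := ⟨h.inv g hg s hsL, hxs.trans h1, ((g.strictMono h4).trans hgy).le, g.strictMono h2⟩
  exact absurd (le_csSup hbd h5) (not_le.mpr h2)

theorem sign (hI : I.OrdConnected) (h : FreeSet A I L) {g : ℝ ≃o ℝ} (hg : g ∈ A) {x y : ℝ} (hx : x ∈ L)
    (hy : y ∈ L) (hgx : x < g x) : y < g y := by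
  rcases le_total x y with hxy | hxy
  · exact h.sign_up hI hg hx hy hxy hgx
  · by_contra hc
    have hne : g y ≠ y := fun e => hgx.ne' (h.free g hg y hy e x hx)
    have hgy : g y < y := lt_of_le_of_ne (not_lt.mp hc) hne
    have h1 : y < g⁻¹ y := by
      have := (g⁻¹).strictMono hgy
      simpa using this
    have h2 := h.sign_up hI (A.inv_mem hg) hy hx hxy h1
    have h3 := g.strictMono h2
    have h4 : g (g⁻¹ x) = x := by simp
    rw [h4] at h3
    exact absurd h3 (not_lt.mpr hgx.le)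

/-- Comparison of two elements of `A` at one point of `L` gives the comparison on `L`. -/
theorem le_of_le (hI : I.OrdConnected) (h : FreeSet A I L) {g k : ℝ ≃o ℝ} (hg : g ∈ A) (hk : k ∈ A) {x y : ℝ}
    (hx : x ∈ L) (hy : y ∈ L) (hle : g x ≤ k x) : g y ≤ k y := by
  have hm : g⁻¹ * k ∈ A := A.mul_mem (A.inv_mem hg) hk
  have e : ∀ z, g ((g⁻¹ * k) z) = k z := fun z => by simp
  rcases hle.eq_or_lt with heq | hlt
  · have h1 : (g⁻¹ * k) x = x := by
      apply g.injective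
      rw [e, heq]
    have h2 := h.free _ hm x hx h1 y hy
    have h3 := e y
    rw [h2] at h3
    exact h3.le
  · have h1 : x < (g⁻¹ * k) x := by
      rw [← g.lt_iff_lt, e]
      exact hlt
    have h2 := h.sign hI hm hx hy h1
    have h3 := g.strictMono h2
    rw [e] at h3
    exact h3.le

theorem lt_of_lt (hI : I.OrdConnected) (h : FreeSet A I L) {g k : ℝ ≃o ℝ} (hg : g ∈ A) (hk : k ∈ A) {x y : ℝ}
    (hx : x ∈ L) (hy : y ∈ L) (hlt : g x < k x) : g y < k y := by
  by_contra hc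
  exact absurd (h.le_of_le hI hk hg hy hx (not_lt.mp hc)) (not_le.mpr hlt)

/-- An element that moves the points of `L` up is cofinal. -/
theorem cofinal (hI : I.OrdConnected) (h : FreeSet A I L) {g : ℝ ≃o ℝ} (hg : g ∈ A) {x y : ℝ} (hx : x ∈ L)
    (hy : y ∈ L) (hgx : x < g x) : ∃ n : ℕ, y < (g ^ n) x := by
  by_contra hc
  push Not at hc
  set B : Set ℝ := Set.range (fun n : ℕ => (g ^ n) x) with hB
  have hBL : B ⊆ L := by
    rintro z ⟨n, rfl⟩
    exact h.inv _ (A.pow_mem hg n) x hx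
  have hne : B.Nonempty := ⟨x, 0, by simp⟩
  have hbd : BddAbove B := ⟨y, by rintro z ⟨n, rfl⟩; exact hc n⟩
  have hsL : sSup B ∈ L := h.sup_mem hI hBL hne (h.sub hy) (by rintro z ⟨n, rfl⟩; exact hc n)
  have h1 : sSup B < g (sSup B) := h.sign hI hg hx hsL hgx
  have h2 : g (sSup B) ≤ sSup B := by
    have h3 : sSup B ≤ g⁻¹ (sSup B) := by
      refine csSup_le hne ?_
      rintro z ⟨n, rfl⟩
      have h4 : (g ^ (n + 1)) x ≤ sSup B := le_csSup hbd ⟨n + 1, rfl⟩
      have h5 := (g⁻¹).monotone h4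
      have h6 : g⁻¹ ((g ^ (n + 1)) x) = (g ^ n) x := by
        rw [pow_succ', ← RelIso.mul_apply, ← mul_assoc, inv_mul_cancel, one_mul]
      rwa [h6] at h5
    have h7 := g.monotone h3
    simpa using h7
  exact absurd h1 (not_lt.mpr h2)

end FreeSet

end Pool.Agent.MCG51
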