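import Mathlib

/-!
The transfer: if a power of a central element `t` is a product of commutators, the same is true in every subgroup of
finite index.
-/

set_option autoImplicit false

namespace Pool.Agent.MCG51

theorem transfer_central {G : Type*} [Group G] (H : Subgroup G) [H.FiniteIndex] (t : G) (ht : ∀ g, g * t = t * g)
    {k : ℕ} (hk : t ^ k ∈ commutator G) : t ^ (H.index * k) ∈ ⁅H, H⁆ := by
  have key : ∀ (n : ℕ) (g₀ : G), g₀⁻¹ * t ^ n * g₀ ∈ H → g₀⁻¹ * t ^ n * g₀ = t ^ n := by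
    intro n g₀ _
    have : Commute g₀ t := ht g₀
    rw [mul_assoc, ← (this.pow_right n).eq, inv_mul_cancel_left]
  have h1 := MonoidHom.transfer_eq_pow (Abelianization.of : H →* Abelianization H) t key
  have h2 : MonoidHom.transfer (Abelianization.of : H →* Abelianization H) (t ^ k) = 1 :=
    Abelianization.commutator_subset_ker (MonoidHom.transfer (Abelianization.of : H →* Abelianization H)) hk
  rw [map_pow, h1, ← map_pow] at h2
  have h3 : (⟨t ^ H.index, MonoidHom.transfer_eq_pow_aux t key⟩ : H) ^ k ∈ commutator H := by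
    rw [← Abelianization.ker_of]
    exact h2
  rw [← Subgroup.map_subtype_commutator]
  refine ⟨_, h3, ?_⟩
  simp [pow_mul]

theorem transfer_sub {G : Type*} [Group G] {K A : Subgroup G} (hAK : A ≤ K) (hf : A.relIndex K ≠ 0) {t : G}
    (htK : t ∈ K) (ht : ∀ g ∈ K, g * t = t * g) {k : ℕ} (hk0 : 1 ≤ k) (hk : t ^ k ∈ ⁅K, K⁆) :
    ∃ n : ℕ, 1 ≤ n ∧ t ^ n ∈ ⁅A, A⁆ := by
  have : (A.subgroupOf K).FiniteIndex := ⟨hf⟩
  have h1 : (⟨t, htK⟩ : K) ^ k ∈ commutator K := by
    rw [← Subgroup.map_subtype_commutator] at hk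
    obtain ⟨z, hz, hz'⟩ := hk
    have : (⟨t, htK⟩ : K) ^ k = z := by
      apply Subtype.ext
      exact (by simpa using hz'.symm : ((⟨t, htK⟩ : K) ^ k : K).1 = z.1)
    rw [this]
    exact hz
  have h2 := transfer_central (A.subgroupOf K) (⟨t, htK⟩ : K) (fun g => Subtype.ext (ht g.1 g.2)) h1
  refine ⟨(A.subgroupOf K).index * k, ?_, ?_⟩
  · exact Nat.one_le_iff_ne_zero.mpr (Nat.mul_ne_zero hf (by omega))
  · have h3 : K.subtype ((⟨t, htK⟩ : K) ^ ((A.subgroupOf K).index * k)) ∈
        (⁅A.subgroupOf K, A.subgroupOf K⁆).map K.subtype := ⟨_, h2, rfl⟩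
    rw [Subgroup.map_commutator, Subgroup.subgroupOf_map_subtype, inf_of_le_left hAK] at h3
    simpa using h3

end Pool.Agent.MCG51
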