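import Pool.Agent.MCG51.Dich
import Pool.Agent.MCG51.Trans

/-!
Actions on the real line.
-/

set_option autoImplicit false

open Set Filter Topology

namespace Pool.Agent.MCG51

/-- Two commuting subgroups that contain `t`, such that `t ^ 4` is a product of commutators in both. -/
structure TwoSides {G : Type*} [Group G] (G₁ G₂ : Subgroup G) (t : G) : Prop where
  comm : ∀ a ∈ G₁, ∀ b ∈ G₂, a * b = b * a
  mem₁ : t ∈ G₁
  mem₂ : t ∈ G₂
  com₁ : t ^ 4 ∈ ⁅G₁, G₁⁆
  com₂ : t ^ 4 ∈ ⁅G₂, G₂⁆

/-- An increasing homeomorphism that permutes a finite set fixes it pointwise. -/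
theorem fix_finite {P : Set ℝ} (hP : P.Finite) (g : ℝ ≃o ℝ) (hg : ∀ p ∈ P, g p ∈ P) : ∀ p ∈ P, g p = p := by
  intro p hp
  have hmem : ∀ n : ℕ, (g ^ n) p ∈ P := by
    intro n
    induction n with
    | zero => simpa using hp
    | succ n ih =>
      rw [pow_succ', app_mul]
      exact hg _ ih
  have hs : ∀ n : ℕ, (g ^ (n + 1)) p = (g ^ n) (g p) := by
    intro n
    rw [pow_succ, app_mul]
  rcases lt_trichotomy (g p) p with h | h | h
  · exfalso
    have hanti : StrictAnti (fun n : ℕ => (g ^ n) p) := by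
      refine strictAnti_nat_of_succ_lt (fun n => ?_)
      rw [hs n]
      exact (g ^ n).strictMono h
    exact (Set.infinite_of_injective_forall_mem hanti.injective hmem) hP
  · exact h
  · exfalso
    have hmono : StrictMono (fun n : ℕ => (g ^ n) p) := by
      refine strictMono_nat_of_lt_succ (fun n => ?_)
      rw [hs n]
      exact (g ^ n).strictMono h
    exact (Set.infinite_of_injective_forall_mem hmono.injective hmem) hP

theorem no_fixed_between (f g : ℝ ≃o ℝ) (hfg : ∀ x, f (g x) = g (f x))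
    (hfin : (frontier {x | f x = x}).Finite) {x : ℝ} (hx : f x ≠ x) : ∀ y ∈ uIcc x (g x), f y ≠ y := by
  have hcl : IsClosed {z | f z = z} := isClosed_eq (orderIso_continuous f) continuous_id
  have hpre : (g.toHomeomorph) ⁻¹' {x | f x = x} = {x | f x = x} := by
    ext z
    simp only [mem_preimage, mem_setOf_eq]
    change f (g z) = g z ↔ _
    rw [hfg z]
    exact g.injective.eq_iff
  have hfr : ∀ p ∈ frontier {x | f x = x}, g p ∈ frontier {x | f x = x} := by
    intro p hp
    have h1 := (g.toHomeomorph).preimage_frontier {x | f x = x}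
    rw [hpre] at h1
    have h2 : p ∈ (g.toHomeomorph) ⁻¹' frontier {x | f x = x} := by
      rw [h1]
      exact hp
    exact h2
  have hfix := fix_finite hfin g hfr
  intro y hy hfy
  rcases le_total x (g x) with hle | hle
  · rw [uIcc_of_le hle] at hy
    set S : Set ℝ := {z | f z = z} ∩ Ici x with hS
    have hScl : IsClosed S := hcl.inter isClosed_Ici
    have hSne : S.Nonempty := ⟨y, hfy, hy.1⟩
    have hSbd : BddBelow S := ⟨x, fun z hz => hz.2⟩
    have hβ : sInf S ∈ S := hScl.csInf_mem hSne hSbd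
    have hβy : sInf S ≤ y := csInf_le hSbd ⟨hfy, hy.1⟩
    have hxβ : x < sInf S := lt_of_le_of_ne hβ.2 (fun e => hx (by rw [e]; exact hβ.1))
    have hfront : sInf S ∈ frontier {x | f x = x} := by
      rw [hcl.frontier_eq]
      refine ⟨hβ.1, fun hint => ?_⟩
      rw [mem_interior_iff_mem_nhds, Metric.mem_nhds_iff] at hint
      obtain ⟨ε, hε, hball⟩ := hint
      set z := max (sInf S - ε / 2) ((x + sInf S) / 2) with hz
      have hz1 : z < sInf S := max_lt (by linarith) (by linarith)
      have hz2 : x < z := lt_of_lt_of_le (by linarith) (le_max_right _ _)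
      have hz3 : sInf S - ε / 2 ≤ z := le_max_left _ _
      have hzb : z ∈ Metric.ball (sInf S) ε := by
        rw [Metric.mem_ball, Real.dist_eq, abs_lt]
        constructor <;> linarith
      exact absurd (csInf_le hSbd ⟨hball hzb, hz2.le⟩) (not_le.mpr hz1)
    have h1 := hfix _ hfront
    have h2 := g.strictMono hxβ
    rw [h1] at h2
    linarith [hy.2]
  · rw [uIcc_of_ge hle] at hy
    set S : Set ℝ := {z | f z = z} ∩ Iic x with hS
    have hScl : IsClosed S := hcl.inter isClosed_Iic
    have hSne : S.Nonempty := ⟨y, hfy, hy.2⟩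
    have hSbd : BddAbove S := ⟨x, fun z hz => hz.2⟩
    have hβ : sSup S ∈ S := hScl.csSup_mem hSne hSbd
    have hβy : y ≤ sSup S := le_csSup hSbd ⟨hfy, hy.2⟩
    have hxβ : sSup S < x := lt_of_le_of_ne hβ.2 (fun e => hx (by rw [← e]; exact hβ.1))
    have hfront : sSup S ∈ frontier {x | f x = x} := by
      rw [hcl.frontier_eq]
      refine ⟨hβ.1, fun hint => ?_⟩
      rw [mem_interior_iff_mem_nhds, Metric.mem_nhds_iff] at hint
      obtain ⟨ε, hε, hball⟩ := hint
      set z := min (sSup S + ε / 2) ((x + sSup S) / 2) with hz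
      have hz1 : sSup S < z := lt_min (by linarith) (by linarith)
      have hz2 : z < x := lt_of_le_of_lt (min_le_right _ _) (by linarith)
      have hz3 : z ≤ sSup S + ε / 2 := min_le_left _ _
      have hzb : z ∈ Metric.ball (sSup S) ε := by
        rw [Metric.mem_ball, Real.dist_eq, abs_lt]
        constructor <;> linarith
      exact absurd (le_csSup hSbd ⟨hball hzb, hz2.le⟩) (not_le.mpr hz1)
    have h1 := hfix _ hfront
    have h2 := g.strictMono hxβ
    rw [h1] at h2
    linarith [hy.1]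

/-- **Two commuting groups of increasing homeomorphisms.** A common element `f` that is a product of commutators in
both has a fixed point set with infinite boundary, or is trivial. -/
theorem two_groups {B₁ B₂ : Subgroup (ℝ ≃o ℝ)} (hcomm : ∀ g ∈ B₁, ∀ k ∈ B₂, g * k = k * g) {f : ℝ ≃o ℝ}
    (hf1 : f ∈ B₁) (hf2 : f ∈ B₂) (hc1 : f ∈ ⁅B₁, B₁⁆) (hc2 : f ∈ ⁅B₂, B₂⁆)
    (hfin : (frontier {x | f x = x}).Finite) : f = 1 := by
  by_contra hne
  have hx0 : ∃ x0, f x0 ≠ x0 := by
    by_contra hcon
    push Not at hcon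
    exact hne (RelIso.ext hcon)
  obtain ⟨x0, hx0⟩ := hx0
  have hcl : IsClosed {z | f z = z} := isClosed_eq (orderIso_continuous f) continuous_id
  set I : Set ℝ := {x | ∀ y ∈ uIcc x0 x, f y ≠ y} with hIdef
  have hx0I : x0 ∈ I := by
    intro y hy
    rw [uIcc_self, mem_singleton_iff] at hy
    rw [hy]
    exact hx0
  have hsub : ∀ x ∈ I, ∀ y, y ∈ uIcc x0 x → y ∈ I := by
    intro x hx y hy z hz
    exact hx z (uIcc_subset_uIcc_left hy hz)
  have hIoc : I.OrdConnected := by
    constructor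
    intro a ha b hb z hz
    rcases le_total x0 z with h | h
    · exact hsub b hb z (by rw [uIcc_of_le (h.trans hz.2)]; exact ⟨h, hz.2⟩)
    · exact hsub a ha z (by rw [uIcc_of_ge (hz.1.trans h)]; exact ⟨hz.1, h⟩)
  have hIfix : ∀ x ∈ I, f x ≠ x := fun x hx => hx x right_mem_uIcc
  have hIo : IsOpen I := by
    rw [isOpen_iff_mem_nhds]
    intro x hx
    have hxc : x ∈ {z | f z = z}ᶜ := hIfix x hx
    obtain ⟨ε, hε, hball⟩ := Metric.mem_nhds_iff.mp (hcl.isOpen_compl.mem_nhds hxc)
    rw [Metric.mem_nhds_iff]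
    refine ⟨ε, hε, ?_⟩
    intro y hy z hz
    -- z between x0 and y
    by_cases hzx : z ∈ uIcc x0 x
    · exact hx z hzx
    · have h1 : z ∈ uIcc x y := by
        have := uIcc_subset_uIcc_union_uIcc (a := x0) (b := x) (c := y) hz
        rcases this with h | h
        · exact absurd h hzx
        · exact h
      have h2 : z ∈ Metric.ball x ε := by
        rw [Metric.mem_ball, Real.dist_eq] at hy ⊢
        refine lt_of_le_of_lt ?_ hy
        have := abs_sub_left_of_mem_uIcc h1
        rw [abs_sub_comm z x, abs_sub_comm y x]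
        rw [abs_sub_comm x z, abs_sub_comm x y]
        exact this
      exact hball h2
  have hIinv : ∀ g : ℝ ≃o ℝ, (∀ x, f (g x) = g (f x)) → ∀ x ∈ I, g x ∈ I := by
    intro g hg x hx z hz
    have := uIcc_subset_uIcc_union_uIcc (a := x0) (b := x) (c := g x) hz
    rcases this with h | h
    · exact hx z h
    · exact no_fixed_between f g hg hfin (hIfix x hx) z h
  have hc1' : ∀ g ∈ B₁, g * f = f * g := fun g hg => hcomm g hg f hf2
  have hc2' : ∀ g ∈ B₂, g * f = f * g := fun g hg => (hcomm f hf1 g hg).symm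
  have happ : ∀ g : ℝ ≃o ℝ, g * f = f * g → ∀ x, f (g x) = g (f x) := by
    intro g hg x
    calc f (g x) = (f * g) x := rfl
      _ = (g * f) x := by rw [hg]
      _ = g (f x) := rfl
  have hI1 : ∀ g ∈ B₁, ∀ x ∈ I, g x ∈ I := fun g hg => hIinv g (happ g (hc1' g hg))
  have hI2 : ∀ g ∈ B₂, ∀ x ∈ I, g x ∈ I := fun g hg => hIinv g (happ g (hc2' g hg))
  -- sign
  have hsign : (∀ x ∈ I, x < f x) ∨ ∀ x ∈ I, f x < x := by
    have hcont : Continuous (fun z => f z - z) := (orderIso_continuous f).sub continuous_id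
    have hivt : ∀ x ∈ I, (0 : ℝ) ∉ uIcc (f x0 - x0) (f x - x) := by
      intro x hx h0
      obtain ⟨y, hy, hy0⟩ := intermediate_value_uIcc (f := fun z => f z - z) (a := x0) (b := x)
        hcont.continuousOn h0
      exact hx y hy (by simpa [sub_eq_zero] using hy0)
    rcases lt_or_gt_of_ne hx0 with h | h
    · right
      intro x hx
      by_contra hcon
      exact hivt x hx (by rw [uIcc_of_le (by linarith [not_lt.mp hcon])]; constructor <;> linarith [not_lt.mp hcon])
    · left
      intro x hx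
      by_contra hcon
      exact hivt x hx (by rw [uIcc_of_ge (by linarith [not_lt.mp hcon])]; constructor <;> linarith [not_lt.mp hcon])
  obtain ⟨u, hu1, hu2, hux, hcu1, hcu2⟩ : ∃ u : ℝ ≃o ℝ, u ∈ B₁ ∧ u ∈ B₂ ∧ (∀ x ∈ I, x < u x) ∧
      (∀ g ∈ B₁, g * u = u * g) ∧ ∀ g ∈ B₂, g * u = u * g := by
    rcases hsign with h | h
    · exact ⟨f, hf1, hf2, h, hc1', hc2'⟩
    · refine ⟨f⁻¹, B₁.inv_mem hf1, B₂.inv_mem hf2, ?_, ?_, ?_⟩
      · intro x hx
        have h1 := (f⁻¹).strictMono (h x hx)
        simpa using h1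
      · intro g hg
        exact hcomm g hg _ (B₂.inv_mem hf2)
      · intro g hg
        exact (hcomm _ (B₁.inv_mem hf1) g hg).symm
  rcases dichotomy hcomm hIoc hIo ⟨x0, hx0I⟩ hI1 hI2 hu1 hu2 hux with ⟨L, hL⟩ | ⟨L, hL, -⟩
  · obtain ⟨l, hl⟩ := hL.ne
    exact hIfix l (hL.sub hl) (hL.comm_trivial hIoc hu1 hl (hux l (hL.sub hl)) hcu1 hc1 l hl)
  · obtain ⟨l, hl⟩ := hL.ne
    exact hIfix l (hL.sub hl) (hL.comm_trivial hIoc hu2 hl (hux l (hL.sub hl)) hcu2 hc2 l hl)

end Pool.Agent.MCG51
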