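import Pool.Agent.MCG51.Line

/-!
Actions on the real line by homeomorphisms that preserve or reverse the orientation.
-/

set_option autoImplicit false

open Set Filter Topology

namespace Pool.Agent.MCG51

theorem mono_or_anti (φ : ℝ ≃ₜ ℝ) : StrictMono φ ∨ StrictAnti φ :=
  φ.continuous.strictMono_of_inj φ.injective

theorem not_mono_of_anti {φ : ℝ → ℝ} (h : StrictAnti φ) : ¬ StrictMono φ := fun h' =>
  absurd (h' (zero_lt_one (α := ℝ))) (not_lt.mpr (h (zero_lt_one (α := ℝ))).le)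

open Classical in
/-- The orientation character. -/
noncomputable def sgn : (ℝ ≃ₜ ℝ) →* ℤˣ where
  toFun φ := if StrictMono φ then 1 else -1
  map_one' := by
    rw [if_pos]
    exact strictMono_id
  map_mul' φ ψ := by
    have hcoe : ⇑(φ * ψ) = φ ∘ ψ := rfl
    rcases mono_or_anti φ with h1 | h1 <;> rcases mono_or_anti ψ with h2 | h2
    · rw [if_pos h1, if_pos h2, if_pos (hcoe ▸ h1.comp h2), mul_one]
    · rw [if_pos h1, if_neg (not_mono_of_anti h2), if_neg (not_mono_of_anti (hcoe ▸ h1.comp_strictAnti h2)), one_mul]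
    · rw [if_neg (not_mono_of_anti h1), if_pos h2, if_neg (not_mono_of_anti (hcoe ▸ h1.comp_strictMono h2)), mul_one]
    · rw [if_neg (not_mono_of_anti h1), if_neg (not_mono_of_anti h2), if_pos (hcoe ▸ h1.comp h2)]
      rfl

theorem mem_ker_sgn {φ : ℝ ≃ₜ ℝ} : φ ∈ sgn.ker ↔ StrictMono φ := by
  rw [MonoidHom.mem_ker]
  constructor
  · intro h
    by_contra hcon
    have h1 : sgn φ = -1 := by
      classical
      exact if_neg hcon
    rw [h1] at h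
    exact absurd h (by decide)
  · intro h
    classical
    exact if_pos h

/-- An increasing homeomorphism as an order isomorphism. -/
def toOI : (sgn.ker : Subgroup (ℝ ≃ₜ ℝ)) →* (ℝ ≃o ℝ) where
  toFun φ := { toEquiv := φ.1.toEquiv, map_rel_iff' := (mem_ker_sgn.mp φ.2).le_iff_le }
  map_one' := rfl
  map_mul' _ _ := rfl

theorem toOI_apply (φ : (sgn.ker : Subgroup (ℝ ≃ₜ ℝ))) (x : ℝ) : toOI φ x = φ.1 x := rfl

theorem line {G : Type*} [Group G] {G₁ G₂ : Subgroup G} {t : G} (hT : TwoSides G₁ G₂ t) (H : Subgroup G)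
    (h1 : H.relIndex G₁ ≠ 0) (h2 : H.relIndex G₂ ≠ 0) (ρ : H →* (ℝ ≃ₜ ℝ)) :
    ∃ (m : ℕ) (hm : t ^ m ∈ H), 1 ≤ m ∧ (ρ ⟨t ^ m, hm⟩ = 1 ∨ (frontier {x | ρ ⟨t ^ m, hm⟩ x = x}).Infinite) := by
  -- the orientation preserving subgroup
  set K : Subgroup H := (sgn.comp ρ).ker with hK
  set P : Subgroup G := K.map H.subtype with hP
  have hPH : P ≤ H := Subgroup.map_subtype_le K
  have hPrel : P.relIndex H ≠ 0 := by
    have : P.subgroupOf H = K := Subgroup.comap_map_eq_self_of_injective H.subtype_injective K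
    rw [Subgroup.relIndex, this]
    have hfi : K.FiniteIndex := Subgroup.finiteIndex_ker _
    exact hfi.index_ne_zero
  have hP1 : P.relIndex G₁ ≠ 0 := Subgroup.relIndex_ne_zero_trans hPrel h1
  have hP2 : P.relIndex G₂ ≠ 0 := Subgroup.relIndex_ne_zero_trans hPrel h2
  -- a power of t
  have ht1 : ∀ g ∈ G₁, g * t = t * g := fun g hg => hT.comm g hg t hT.mem₂
  have ht2 : ∀ g ∈ G₂, g * t = t * g := fun g hg => (hT.comm t hT.mem₁ g hg).symm
  obtain ⟨n1, hn1, hn1'⟩ := transfer_sub (A := P ⊓ G₁) (K := G₁) inf_le_right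
    (by rw [Subgroup.inf_relIndex_right]; exact hP1) hT.mem₁ ht1 (by norm_num) hT.com₁
  obtain ⟨n2, hn2, hn2'⟩ := transfer_sub (A := P ⊓ G₂) (K := G₂) inf_le_right
    (by rw [Subgroup.inf_relIndex_right]; exact hP2) hT.mem₂ ht2 (by norm_num) hT.com₂
  set N := n1 * n2 with hN
  have hN1 : t ^ N ∈ ⁅P ⊓ G₁, P ⊓ G₁⁆ := by
    rw [hN, pow_mul]
    exact Subgroup.pow_mem _ hn1' n2
  have hN2 : t ^ N ∈ ⁅P ⊓ G₂, P ⊓ G₂⁆ := by
    rw [hN, mul_comm, pow_mul]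
    exact Subgroup.pow_mem _ hn2' n1
  have hcle : ∀ S : Subgroup G, ⁅S, S⁆ ≤ S := by
    intro S
    rw [Subgroup.commutator_le]
    intro a ha b hb
    exact S.mul_mem (S.mul_mem (S.mul_mem ha hb) (S.inv_mem ha)) (S.inv_mem hb)
  have hNP1 : t ^ N ∈ P ⊓ G₁ := hcle _ hN1
  have hNP2 : t ^ N ∈ P ⊓ G₂ := hcle _ hN2
  have hNH : t ^ N ∈ H := hPH hNP1.1
  refine ⟨N, hNH, Nat.mul_pos hn1 hn2, ?_⟩
  by_contra hcon
  push Not at hcon
  obtain ⟨hne, hfin⟩ := hcon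
  -- the homomorphism to order isomorphisms
  have hPmem : ∀ g : P, ∃ h : g.1 ∈ H, ρ ⟨g.1, h⟩ ∈ sgn.ker := by
    rintro ⟨g, ⟨k, hk, rfl⟩⟩
    exact ⟨k.2, hk⟩
  let Θ : P →* (ℝ ≃o ℝ) :=
    { toFun := fun g => toOI ⟨ρ ⟨g.1, hPH g.2⟩, (hPmem g).2⟩
      map_one' := by
        have : (⟨ρ ⟨(1 : P).1, hPH (1 : P).2⟩, (hPmem 1).2⟩ : (sgn.ker : Subgroup (ℝ ≃ₜ ℝ))) = 1 := by
          apply Subtype.ext
          change ρ ⟨1, _⟩ = 1
          exact map_one ρ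
        rw [this, map_one]
      map_mul' := by
        intro a b
        rw [← map_mul]
        congr 1
        apply Subtype.ext
        change ρ ⟨a.1 * b.1, _⟩ = ρ ⟨a.1, _⟩ * ρ ⟨b.1, _⟩
        rw [← map_mul]
        rfl }
  have hΘ : ∀ (g : P) (x : ℝ), Θ g x = ρ ⟨g.1, hPH g.2⟩ x := fun g x => rfl
  set B₁ := ((P ⊓ G₁).subgroupOf P).map Θ with hB1
  set B₂ := ((P ⊓ G₂).subgroupOf P).map Θ with hB2
  set f := Θ ⟨t ^ N, hNP1.1⟩ with hf
  have hcomm : ∀ g ∈ B₁, ∀ k ∈ B₂, g * k = k * g := by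
    rintro _ ⟨a, ha, rfl⟩ _ ⟨b, hb, rfl⟩
    rw [← map_mul, ← map_mul]
    congr 1
    apply Subtype.ext
    exact hT.comm a.1 (Subgroup.mem_subgroupOf.mp ha).2 b.1 (Subgroup.mem_subgroupOf.mp hb).2
  have hcomm_mem : ∀ S : Subgroup G, S ≤ P → ∀ (h : t ^ N ∈ P), t ^ N ∈ ⁅S, S⁆ →
      Θ ⟨t ^ N, h⟩ ∈ ⁅(S.subgroupOf P).map Θ, (S.subgroupOf P).map Θ⁆ := by
    intro S hSP h hS
    rw [← Subgroup.map_commutator]
    refine ⟨⟨t ^ N, h⟩, ?_, rfl⟩
    have h3 : t ^ N ∈ (⁅S.subgroupOf P, S.subgroupOf P⁆).map P.subtype := by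
      rw [Subgroup.map_commutator, Subgroup.subgroupOf_map_subtype, inf_of_le_left hSP]
      exact hS
    obtain ⟨z, hz, hz'⟩ := h3
    have : z = ⟨t ^ N, h⟩ := Subtype.ext hz'
    rw [← this]
    exact hz
  have hf1 : f ∈ B₁ := ⟨⟨t ^ N, hNP1.1⟩, Subgroup.mem_subgroupOf.mpr hNP1, rfl⟩
  have hf2 : f ∈ B₂ := ⟨⟨t ^ N, hNP1.1⟩, Subgroup.mem_subgroupOf.mpr hNP2, rfl⟩
  have hfrf : (frontier {x | f x = x}).Finite := hfin
  have := two_groups hcomm hf1 hf2 (hcomm_mem _ inf_le_left _ hN1) (hcomm_mem _ inf_le_left _ hN2) hfrf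
  apply hne
  apply Homeomorph.ext
  intro x
  have h3 : f x = x := by rw [this]; rfl
  exact h3

end Pool.Agent.MCG51
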