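import Pool.Agent.MCG51.Alg

/-!
Relations in `MM`; the fourth powers of the twists about the two boundary components are products of commutators.
-/

set_option autoImplicit false

namespace Pool.Agent.MCG51

theorem mul_left (p q : MM) : (p * q).1.left = p.1.left * p.1.right q.1.left := rfl
theorem mul_right (p q : MM) (z : M) : (p * q).1.right z = p.1.right (q.1.right z) := rfl
theorem mk_left (w : M) (φ : MulAut M) (h1) (h2) : (mk w φ h1 h2).1.left = w⁻¹ := rfl
theorem mk_right (w : M) (φ : MulAut M) (h1) (h2) : (mk w φ h1 h2).1.right = φ := rfl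

theorem relS : eS * eK2 = eK1 * eS := by
  apply MM_ext <;>
    simp only [mul_left, mul_right, mk_left, mk_right, eS, eK1, eK2, aS, aK1, aK2, mkAut_apply, lf_x, lf_a, lf_b,
      lf_c, lf_d, map_mul, map_inv, map_one, inv_one] <;> group

theorem relU1 : eD * eE * eRa1 * eRb1 = eK1 * eRb1 * eRa1 := by
  apply MM_ext <;>
    simp only [mul_left, mul_right, mk_left, mk_right, eD, eE, eK1, eRa1, eRb1, aD, aK1, aRa1, aRb1, mkAut_apply,
      MulAut.one_apply, lf_x, lf_a, lf_b, lf_c, lf_d, map_mul, map_inv, map_one, inv_one] <;> group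

theorem relU2 : eC * eD * eRa2 * eRb2 = eK2 * eRb2 * eRa2 := by
  apply MM_ext <;>
    simp only [mul_left, mul_right, mk_left, mk_right, eC, eD, eK2, eRa2, eRb2, aC, aD, aK2, aRa2, aRb2, mkAut_apply,
      MulAut.one_apply, lf_x, lf_a, lf_b, lf_c, lf_d, map_mul, map_inv, map_one, inv_one] <;> group

theorem relU3 : eF * eK1 * eRa3 * eRb3 = eK2 * eRb3 * eRa3 := by
  apply MM_ext <;>
    simp only [mul_left, mul_right, mk_left, mk_right, eF, eK1, eK2, eRa3, eRb3, aF, aK1, aK2, aRa3, aRb3,
      mkAut_apply, MulAut.one_apply, lf_x, lf_a, lf_b, lf_c, lf_d, map_mul, map_inv, map_one, inv_one] <;> group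

theorem relL : eD * eS * eD * eF = eE * eK1 * eK2 * eC * eS := by
  apply MM_ext <;>
    simp only [mul_left, mul_right, mk_left, mk_right, eD, eS, eF, eE, eK1, eK2, eC, aD, aS, aF, aK1, aK2, aC,
      mkAut_apply, MulAut.one_apply, lf_x, lf_a, lf_b, lf_c, lf_d, map_mul, map_inv, map_one, inv_one] <;> group


end Pool.Agent.MCG51
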