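import Pool.Agent.MCG51.Rel

/-!
The fourth powers of the twists about the two boundary components are products of commutators.
-/

set_option autoImplicit false

namespace Pool.Agent.MCG51

/-- In every commutative quotient the fourth powers of the boundary twists are trivial. -/
theorem pow_four {A : Type*} [CommGroup A] (q : MM →* A) : q (eE ^ 4) = 1 ∧ q (eC ^ 4) = 1 := by
  have s := congrArg q relS
  have u1 := congrArg q relU1
  have u2 := congrArg q relU2
  have u3 := congrArg q relU3
  have l := congrArg q relL
  simp only [map_mul] at s u1 u2 u3 l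
  have s' : q eK2 = q eK1 := by
    rw [mul_comm] at s
    exact mul_right_cancel s
  have u1' : q eD * q eE = q eK1 := by
    have h : q eD * q eE * (q eRa1 * q eRb1) = q eK1 * (q eRa1 * q eRb1) := by
      rw [← mul_assoc, u1, mul_assoc, mul_comm (q eRb1)]
    exact mul_right_cancel h
  have u2' : q eC * q eD = q eK2 := by
    have h : q eC * q eD * (q eRa2 * q eRb2) = q eK2 * (q eRa2 * q eRb2) := by
      rw [← mul_assoc, u2, mul_assoc, mul_comm (q eRb2)]
    exact mul_right_cancel h
  have u3' : q eF * q eK1 = q eK2 := by
    have h : q eF * q eK1 * (q eRa3 * q eRb3) = q eK2 * (q eRa3 * q eRb3) := by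
      rw [← mul_assoc, u3, mul_assoc, mul_comm (q eRb3)]
    exact mul_right_cancel h
  have l' : q eD * q eD * q eF = q eE * q eK1 * q eK2 * q eC := by
    have h : q eD * q eD * q eF * q eS = q eE * q eK1 * q eK2 * q eC * q eS := by
      rw [← l, mul_right_comm (q eD * q eD), mul_right_comm (q eD)]
    exact mul_right_cancel h
  have f' : q eF = 1 := by
    rw [s'] at u3'
    exact mul_eq_right.mp u3'
  have c' : q eC = q eE := by
    rw [s', ← u1', mul_comm (q eD)] at u2'
    exact mul_right_cancel u2'
  rw [f', mul_one, s', c', ← u1'] at l'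
  have key : q eE ^ 4 = 1 := by
    have h : q eD * q eD * 1 = q eD * q eD * q eE ^ 4 := by
      rw [mul_one]
      conv_lhs => rw [l']
      rw [pow_succ, pow_succ, pow_succ, pow_one]
      simp only [mul_assoc, mul_comm, mul_left_comm]
    exact (mul_left_cancel h).symm
  rw [map_pow, map_pow, c']
  exact ⟨key, key⟩

theorem comm_four : eE ^ 4 ∈ commutator MM ∧ eC ^ 4 ∈ commutator MM := by
  obtain ⟨h1, h2⟩ := pow_four (Abelianization.of : MM →* Abelianization MM)
  rw [← Abelianization.ker_of]
  exact ⟨h1, h2⟩

end Pool.Agent.MCG51
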