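import Pool.Agent.MCG51.Emb

/-!
The components of the complement of the fixed point set have infinitely many images under the centraliser.
-/

set_option autoImplicit false

open Set Filter Topology

namespace Pool.Agent.MCG51

/-- The setwise stabiliser. -/
def SStab {X : Type*} [TopologicalSpace X] (U : Set X) : Subgroup (X ≃ₜ X) where
  carrier := {f | f '' U = U}
  one_mem' := image_id U
  mul_mem' := by
    intro a b (ha : a '' U = U) (hb : b '' U = U)
    change (fun x => a (b x)) '' U = U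
    have h1 : (fun x => a (b x)) '' U = a '' (b '' U) := (image_image a b U).symm
    rw [h1, hb, ha]
  inv_mem' := by
    intro a (ha : a '' U = U)
    change a.symm '' U = U
    rw [a.symm.image_eq_preimage_symm]
    change a ⁻¹' U = U
    conv_lhs => rw [← ha]
    exact preimage_image_eq U a.injective

theorem exists_restrict_set {X : Type*} [TopologicalSpace X] {U : Set X} {e : ℝ → X} (he : IsOpenEmbedding e)
    (hr : range e = U) :
    ∃ R : SStab U →* (ℝ ≃ₜ ℝ), ∀ (f : SStab U) (x : ℝ), e (R f x) = f.1 (e x) := by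
  have hmem : ∀ (f : SStab U) (x : ℝ), f.1 (e x) ∈ range e := by
    intro f x
    rw [hr]
    have h1 : f.1 '' U = U := f.2
    exact h1.subset ⟨e x, by rw [← hr]; exact mem_range_self x, rfl⟩
  set E := he.isEmbedding.toHomeomorph with hE
  have hEv : ∀ y : range e, e (E.symm y) = y.1 := by
    intro y
    have : E (E.symm y) = y := E.apply_symm_apply y
    exact congrArg Subtype.val this
  let F : SStab U → ℝ → ℝ := fun f x => E.symm ⟨f.1 (e x), hmem f x⟩
  have hF : ∀ (f : SStab U) (x : ℝ), e (F f x) = f.1 (e x) := fun f x => hEv _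
  have hFc : ∀ f : SStab U, Continuous (F f) := by
    intro f
    exact E.symm.continuous.comp ((f.1.continuous.comp he.continuous).subtype_mk _)
  have hinv : ∀ (f : SStab U) (x : ℝ), F f⁻¹ (F f x) = x := by
    intro f x
    apply he.injective
    rw [hF, hF]
    exact f.1.symm_apply_apply _
  have hinv' : ∀ (f : SStab U) (x : ℝ), F f (F f⁻¹ x) = x := by
    intro f x
    apply he.injective
    rw [hF, hF]
    exact f.1.apply_symm_apply _
  let R : SStab U →* (ℝ ≃ₜ ℝ) :=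
    { toFun := fun f =>
        { toFun := F f
          invFun := F f⁻¹
          left_inv := hinv f
          right_inv := hinv' f
          continuous_toFun := hFc f
          continuous_invFun := hFc f⁻¹ }
      map_one' := by
        apply Homeomorph.ext
        intro x
        change F 1 x = x
        apply he.injective
        rw [hF]
        rfl
      map_mul' := by
        intro a b
        apply Homeomorph.ext
        intro x
        change F (a * b) x = F a (F b x)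
        apply he.injective
        rw [hF, hF, hF]
        rfl }
  exact ⟨R, fun f x => hF f x⟩

/-- Finite index of the setwise stabiliser of a set with finitely many images under the centraliser of `t`. -/
theorem relIndex_stab {X : Type*} [TopologicalSpace X] {G : Type*} [Group G] {t : G} {H : Subgroup G}
    (ρ : H →* (X ≃ₜ X)) {U : Set X} (hfin : {J : Set X | ∃ γ : H, γ.1 * t = t * γ.1 ∧ J = ρ γ '' U}.Finite)
    {S : Subgroup G} (hS : ∀ g ∈ S, g * t = t * g) (hHS : H.relIndex S ≠ 0) :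
    (((SStab U).comap ρ).map H.subtype).relIndex S ≠ 0 := by
  set K := ((SStab U).comap ρ).map H.subtype with hK
  have h3 : K.relIndex (H ⊓ S) ≠ 0 := by
    have hfinite : Finite (↥(H ⊓ S) ⧸ K.subgroupOf (H ⊓ S)) := by
      have : Finite {J : Set X | ∃ γ : H, γ.1 * t = t * γ.1 ∧ J = ρ γ '' U} := hfin.to_subtype
      refine Finite.of_injective (fun c : ↥(H ⊓ S) ⧸ K.subgroupOf (H ⊓ S) =>
        (⟨ρ ⟨c.out.1, c.out.2.1⟩ '' U, ⟨c.out.1, c.out.2.1⟩, hS c.out.1 c.out.2.2, rfl⟩ :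
          {J : Set X | ∃ γ : H, γ.1 * t = t * γ.1 ∧ J = ρ γ '' U})) ?_
      intro a b hab
      have hab' : ρ ⟨a.out.1, a.out.2.1⟩ '' U = ρ ⟨b.out.1, b.out.2.1⟩ '' U := congrArg Subtype.val hab
      rw [← QuotientGroup.out_eq' a, ← QuotientGroup.out_eq' b]
      rw [QuotientGroup.eq]
      rw [Subgroup.mem_subgroupOf]
      refine ⟨(⟨a.out.1, a.out.2.1⟩ : H)⁻¹ * ⟨b.out.1, b.out.2.1⟩, ?_, rfl⟩
      change ρ ((⟨a.out.1, a.out.2.1⟩ : H)⁻¹ * ⟨b.out.1, b.out.2.1⟩) '' U = U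
      rw [map_mul, map_inv]
      change (fun x => (ρ ⟨a.out.1, a.out.2.1⟩).symm (ρ ⟨b.out.1, b.out.2.1⟩ x)) '' U = U
      rw [← image_image (ρ ⟨a.out.1, a.out.2.1⟩).symm (ρ ⟨b.out.1, b.out.2.1⟩), ← hab', image_image]
      simp
    exact (Subgroup.finiteIndex_of_finite_quotient (H := K.subgroupOf (H ⊓ S))).index_ne_zero
  exact Subgroup.relIndex_ne_zero_trans h3 (by rw [Subgroup.inf_relIndex_right]; exact hHS)

/-- An open interval on which no positive power of `t` has a fixed point has infinitely many images under the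
centraliser of `t`. -/
theorem orbit_infinite {X : Type*} [TopologicalSpace X] {G : Type*} [Group G] {G₁ G₂ : Subgroup G} {t : G}
    (hT : TwoSides G₁ G₂ t) (H : Subgroup G) (h1 : H.relIndex G₁ ≠ 0) (h2 : H.relIndex G₂ ≠ 0)
    (ρ : H →* (X ≃ₜ X)) {U : Set X} (hU : ∃ e : ℝ → X, IsOpenEmbedding e ∧ range e = U)
    (hfree : ∀ (m : ℕ) (hm : t ^ m ∈ H), 1 ≤ m → ∀ y ∈ U, ρ ⟨t ^ m, hm⟩ y ≠ y) :
    {J : Set X | ∃ γ : H, γ.1 * t = t * γ.1 ∧ J = ρ γ '' U}.Infinite := by
  intro hfin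
  obtain ⟨e, he, hr⟩ := hU
  have ht1 : ∀ g ∈ G₁, g * t = t * g := fun g hg => hT.comm g hg t hT.mem₂
  have ht2 : ∀ g ∈ G₂, g * t = t * g := fun g hg => (hT.comm t hT.mem₁ g hg).symm
  obtain ⟨R, hR⟩ := exists_restrict_set he hr
  set K : Subgroup G := ((SStab U).comap ρ).map H.subtype with hK
  have hKH : K ≤ H := Subgroup.map_subtype_le _
  have hKmem : ∀ g : K, ρ ⟨g.1, hKH g.2⟩ ∈ SStab U := by
    rintro ⟨_, ⟨k, hk, rfl⟩⟩
    exact hk
  let ρ' : K →* (ℝ ≃ₜ ℝ) :=
    { toFun := fun g => R ⟨ρ ⟨g.1, hKH g.2⟩, hKmem g⟩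
      map_one' := by
        have : (⟨ρ ⟨(1 : K).1, hKH (1 : K).2⟩, hKmem 1⟩ : SStab U) = 1 := by
          apply Subtype.ext
          change ρ ⟨1, _⟩ = 1
          exact map_one ρ
        rw [this, map_one]
      map_mul' := by
        intro a b
        rw [← map_mul]
        congr 1
        apply Subtype.ext
        change ρ ⟨a.1 * b.1, _⟩ = ρ ⟨a.1, _⟩ * ρ ⟨b.1, _⟩
        rw [← map_mul]
        rfl }
  have hρ' : ∀ (g : K) (x : ℝ), e (ρ' g x) = ρ ⟨g.1, hKH g.2⟩ (e x) := fun g x => hR _ x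
  obtain ⟨m, hm, hm1, hcase⟩ := line hT K (relIndex_stab ρ hfin ht1 h1) (relIndex_stab ρ hfin ht2 h2) ρ'
  have hno : ∀ x : ℝ, ρ' ⟨t ^ m, hm⟩ x ≠ x := by
    intro x hx
    apply hfree m (hKH hm) hm1 (e x) (by rw [← hr]; exact mem_range_self x)
    rw [← hρ' ⟨t ^ m, hm⟩ x, hx]
  rcases hcase with h | h
  · exact hno 0 (by rw [h]; rfl)
  · apply h
    have : {x | ρ' ⟨t ^ m, hm⟩ x = x} = ∅ := by
      ext x
      simp only [mem_setOf_eq, mem_empty_iff_false, iff_false]
      exact hno x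
    rw [this, frontier_empty]
    exact finite_empty

/-- The conclusion of the theorem for a subgroup `H` of `G`, an element `t` of `G` and an action of `H`. -/
def Concl {X : Type*} [TopologicalSpace X] {G : Type*} [Group G] (t : G) (H : Subgroup G) (ρ : H →* (X ≃ₜ X)) :
    Prop :=
  ∃ (m : ℕ) (hm : t ^ m ∈ H), 1 ≤ m ∧
    (∀ k : ℕ, 1 ≤ k → ∀ x, (ρ (⟨t ^ m, hm⟩ ^ k) x = x ↔ ρ ⟨t ^ m, hm⟩ x = x)) ∧
    ∀ x, ρ ⟨t ^ m, hm⟩ x ≠ x →
      {J : Set X | ∃ γ : H, γ.1 * t = t * γ.1 ∧ J = ρ γ '' connectedComponentIn {y | ρ ⟨t ^ m, hm⟩ y ≠ y} x}.Infinite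

theorem concl_of {X : Type*} [TopologicalSpace X] [T2Space X] {G : Type*} [Group G] {G₁ G₂ : Subgroup G} {t : G}
    (hT : TwoSides G₁ G₂ t) (H : Subgroup G) (h1 : H.relIndex G₁ ≠ 0) (h2 : H.relIndex G₂ ≠ 0)
    (ρ : H →* (X ≃ₜ X)) (m : ℕ) (hm : t ^ m ∈ H) (hm1 : 1 ≤ m) {e : ℝ → X} (he : IsOpenEmbedding e)
    (hF : {y | ρ ⟨t ^ m, hm⟩ y ≠ y} ⊆ range e)
    (hpow : ∀ k : ℕ, 1 ≤ k → ∀ x, (ρ (⟨t ^ m, hm⟩ ^ k) x = x ↔ ρ ⟨t ^ m, hm⟩ x = x)) : Concl t H ρ := by
  refine ⟨m, hm, hm1, hpow, ?_⟩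
  intro x hx
  have hFo : IsOpen {y | ρ ⟨t ^ m, hm⟩ y ≠ y} :=
    (isClosed_eq (ρ ⟨t ^ m, hm⟩).continuous continuous_id).isOpen_compl
  apply orbit_infinite hT H h1 h2 ρ (component_emb he hFo hF hx)
  intro n hn hn1 y hy hfix
  have hy' : ρ ⟨t ^ m, hm⟩ y ≠ y := connectedComponentIn_subset _ _ hy
  apply hy'
  rw [← hpow n hn1 y]
  have h3 : (⟨t ^ m, hm⟩ : H) ^ n = ⟨t ^ n, hn⟩ ^ m := by
    apply Subtype.ext
    change (t ^ m) ^ n = (t ^ n) ^ m
    rw [← pow_mul, ← pow_mul, mul_comm]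
  rw [h3, map_pow]
  have h4 : ∀ j : ℕ, ((ρ ⟨t ^ n, hn⟩) ^ j) y = y := by
    intro j
    induction j with
    | zero => rfl
    | succ j ih =>
      rw [pow_succ']
      change ρ ⟨t ^ n, hn⟩ (((ρ ⟨t ^ n, hn⟩) ^ j) y) = y
      rw [ih, hfix]
  exact h4 m

/-- A periodic point of an increasing homeomorphism of the line is fixed. -/
theorem fixed_of_pow {f : ℝ ≃ₜ ℝ} (hf : StrictMono f) (k : ℕ) (hk : 1 ≤ k) (x : ℝ) : (f ^ k) x = x ↔ f x = x := by
  have hsucc : ∀ (j : ℕ) (z : ℝ), (f ^ (j + 1)) z = (f ^ j) (f z) := by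
    intro j z
    rw [pow_succ]
    rfl
  have hmono : ∀ j : ℕ, StrictMono (f ^ j) := by
    intro j
    induction j with
    | zero => exact strictMono_id
    | succ j ih =>
      intro a b hab
      rw [hsucc, hsucc]
      exact ih (hf hab)
  constructor
  · intro h
    rcases lt_trichotomy (f x) x with h1 | h1 | h1
    · exfalso
      have : ∀ j : ℕ, 1 ≤ j → (f ^ j) x < x := by
        intro j hj
        induction j, hj using Nat.le_induction with
        | base => rw [pow_one]; exact h1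
        | succ j hj ih =>
          rw [hsucc]
          exact ((hmono j) h1).trans ih
      exact (this k hk).ne h
    · exact h1
    · exfalso
      have : ∀ j : ℕ, 1 ≤ j → x < (f ^ j) x := by
        intro j hj
        induction j, hj using Nat.le_induction with
        | base => rw [pow_one]; exact h1
        | succ j hj ih =>
          rw [hsucc]
          exact ih.trans ((hmono j) h1)
      exact (this k hk).ne h.symm
  · intro h
    induction k, hk using Nat.le_induction with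
    | base => rw [pow_one]; exact h
    | succ k hk ih => rw [hsucc, h, ih]

/-- Actions on the line. -/
theorem line_strong {G : Type*} [Group G] {G₁ G₂ : Subgroup G} {t : G} (hT : TwoSides G₁ G₂ t) (H : Subgroup G)
    (h1 : H.relIndex G₁ ≠ 0) (h2 : H.relIndex G₂ ≠ 0) (ρ : H →* (ℝ ≃ₜ ℝ)) : Concl t H ρ := by
  -- some power of `t` lies in `H`
  obtain ⟨n, hn, hn1⟩ : ∃ (n : ℕ) (_ : t ^ n ∈ H), 1 ≤ n := by
    obtain ⟨m, hm, hm1, -⟩ := line hT H h1 h2 ρ
    exact ⟨m, hm, hm1⟩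
  have hsq : (⟨t ^ (n + n), by rw [pow_add]; exact H.mul_mem hn hn⟩ : H) = ⟨t ^ n, hn⟩ * ⟨t ^ n, hn⟩ :=
    Subtype.ext (pow_add t n n)
  have hm : t ^ (n + n) ∈ H := by rw [pow_add]; exact H.mul_mem hn hn
  have hinc : StrictMono (ρ ⟨t ^ (n + n), hm⟩) := by
    rw [hsq, map_mul]
    rcases mono_or_anti (ρ ⟨t ^ n, hn⟩) with h | h
    · exact h.comp h
    · exact h.comp h
  refine concl_of hT H h1 h2 ρ (n + n) hm (by omega) IsOpenEmbedding.id (by rw [range_id]; exact subset_univ _) ?_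
  intro k hk x
  rw [map_pow]
  exact fixed_of_pow hinc k hk x

/-- Actions on the circle. -/
theorem circ_strong {G : Type*} [Group G] {G₁ G₂ : Subgroup G} {t : G} (hT : TwoSides G₁ G₂ t) (H : Subgroup G)
    (h1 : H.relIndex G₁ ≠ 0) (h2 : H.relIndex G₂ ≠ 0) (ρ : H →* (S1 ≃ₜ S1)) : Concl t H ρ := by
  -- some power of `t` has a fixed point
  obtain ⟨n, hn, hn1, p, hp⟩ : ∃ (n : ℕ) (hn : t ^ n ∈ H), 1 ≤ n ∧ ∃ p, ρ ⟨t ^ n, hn⟩ p = p := by
    obtain ⟨m, hm, hm1, h⟩ := circ hT H h1 h2 ρ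
    refine ⟨m, hm, hm1, ?_⟩
    rcases h with h | h
    · exact ⟨0, by rw [h]; rfl⟩
    · by_contra hcon
      push Not at hcon
      have : {x | ρ ⟨t ^ m, hm⟩ x = x} = ∅ := by
        ext x
        simp only [mem_setOf_eq, mem_empty_iff_false, iff_false]
        exact hcon x
      rw [this, frontier_empty] at h
      exact h finite_empty
  have hm : t ^ (n + n) ∈ H := by rw [pow_add]; exact H.mul_mem hn hn
  have hsq : (⟨t ^ (n + n), hm⟩ : H) = ⟨t ^ n, hn⟩ * ⟨t ^ n, hn⟩ := Subtype.ext (pow_add t n n)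
  obtain ⟨e, he, hr⟩ := exists_chart p
  obtain ⟨R, hR⟩ := exists_restrict he hr
  have hg : ρ ⟨t ^ n, hn⟩ ∈ Stab p := hp
  have hf : ρ ⟨t ^ (n + n), hm⟩ ∈ Stab p := by
    rw [hsq, map_mul]
    exact (Stab p).mul_mem hg hg
  have hinc : StrictMono (R ⟨_, hf⟩) := by
    have : (⟨_, hf⟩ : Stab p) = ⟨_, hg⟩ * ⟨_, hg⟩ := by
      apply Subtype.ext
      change ρ ⟨t ^ (n + n), hm⟩ = ρ ⟨t ^ n, hn⟩ * ρ ⟨t ^ n, hn⟩
      rw [hsq, map_mul]
    rw [this, map_mul]
    rcases mono_or_anti (R ⟨_, hg⟩) with h | h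
    · exact h.comp h
    · exact h.comp h
  refine concl_of hT H h1 h2 ρ (n + n) hm (by omega) he ?_ ?_
  · intro y hy
    rw [hr]
    rintro rfl
    exact hy hf
  · intro k hk x
    rw [map_pow]
    have hk' : (ρ ⟨t ^ (n + n), hm⟩) ^ k ∈ Stab p := (Stab p).pow_mem hf k
    by_cases hx : x = p
    · subst hx
      constructor
      · intro _
        exact hf
      · intro _
        exact hk'
    · have : x ∈ range e := by
        rw [hr]
        exact hx
      obtain ⟨y, rfl⟩ := this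
      have h3 := hR ⟨_, hf⟩ y
      have h4 := hR (⟨_, hf⟩ ^ k) y
      have h5 : ((⟨_, hf⟩ : Stab p) ^ k).1 = (ρ ⟨t ^ (n + n), hm⟩) ^ k := rfl
      rw [h5, map_pow] at h4
      rw [← h4]
      change _ ↔ ρ ⟨t ^ (n + n), hm⟩ (e y) = e y
      have h6 : e (R ⟨_, hf⟩ y) = ρ ⟨t ^ (n + n), hm⟩ (e y) := h3
      rw [← h6, he.injective.eq_iff, he.injective.eq_iff]
      exact fixed_of_pow hinc k hk y

end Pool.Agent.MCG51
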