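import Pool.Agent.MCG51.Rel2

/-!
The fundamental group of the closed orientable surface of genus `g` and homomorphisms defined on it.
-/

set_option autoImplicit false

namespace Pool.Agent.MCG51

/-- The fundamental group of the closed orientable surface of genus `g`: generators `a_i = (i, false)`,
`b_i = (i, true)`, `i < g`, and the relator `[a_0, b_0] [a_1, b_1] ⋯ [a_(g-1), b_(g-1)]`. -/
abbrev SG (g : ℕ) : Type := PresentedGroup
  ({(List.ofFn fun i : Fin g => FreeGroup.of (i, false) * FreeGroup.of (i, true) * (FreeGroup.of (i, false))⁻¹ *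
      (FreeGroup.of (i, true))⁻¹).prod} : Set (FreeGroup (Fin g × Bool)))

/-- The generator `a_n` (trivial for `n ≥ g`). -/
def av (g n : ℕ) : SG g := if h : n < g then PresentedGroup.of (⟨n, h⟩, false) else 1

/-- The generator `b_n` (trivial for `n ≥ g`). -/
def bv (g n : ℕ) : SG g := if h : n < g then PresentedGroup.of (⟨n, h⟩, true) else 1

/-- The product of the first `n` values. -/
def Pr {H : Type*} [Group H] (c : ℕ → H) (n : ℕ) : H := ((List.range n).map c).prod

theorem Pr_zero {H : Type*} [Group H] (c : ℕ → H) : Pr c 0 = 1 := rfl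

theorem Pr_succ {H : Type*} [Group H] (c : ℕ → H) (n : ℕ) : Pr c (n + 1) = Pr c n * c n := by
  simp [Pr, List.range_succ]

theorem ofFn_prod {H : Type*} [Group H] (c : ℕ → H) (g : ℕ) :
    (List.ofFn fun i : Fin g => c i).prod = Pr c g := by
  have : (List.ofFn fun i : Fin g => c i) = (List.range g).map c := by
    apply List.ext_getElem
    · simp
    · intro i h1 h2
      simp
  rw [this]
  rfl

theorem map_Pr {H K : Type*} [Group H] [Group K] (f : H →* K) (c : ℕ → H) (n : ℕ) :
    f (Pr c n) = Pr (fun k => f (c k)) n := by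
  induction n with
  | zero => simp [Pr_zero]
  | succ n ih => rw [Pr_succ, Pr_succ, map_mul, ih]

theorem Pr_congr {H : Type*} [Group H] {c d : ℕ → H} {n : ℕ} (h : ∀ k < n, c k = d k) : Pr c n = Pr d n := by
  induction n with
  | zero => rfl
  | succ n ih => rw [Pr_succ, Pr_succ, ih (fun k hk => h k (by omega)), h n (by omega)]

/-- The commutator `a b a⁻¹ b⁻¹`. -/
def cm {H : Type*} [Group H] (a b : H) : H := a * b * a⁻¹ * b⁻¹

/-- The commutators `[a_n, b_n]`. -/
def kap (g n : ℕ) : SG g := cm (av g n) (bv g n)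

theorem Pr_kap (g : ℕ) : Pr (kap g) g = 1 := by
  rw [← ofFn_prod]
  have h1 : (List.ofFn fun i : Fin g => kap g i).prod =
      PresentedGroup.mk _ ((List.ofFn fun i : Fin g => FreeGroup.of (i, false) * FreeGroup.of (i, true) *
        (FreeGroup.of (i, false))⁻¹ * (FreeGroup.of (i, true))⁻¹).prod) := by
    rw [map_list_prod, List.map_ofFn]
    congr 1
    congr 1
    funext i
    simp only [Function.comp, kap, cm, av, bv, i.2, dif_pos, Fin.eta, map_mul, map_inv]
    rfl
  rw [h1]
  apply (PresentedGroup.mk_eq_one_iff).mpr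
  exact Subgroup.subset_normalClosure rfl

section

variable {g : ℕ} {H : Type*} [Group H]

/-- The homomorphism with `a_n ↦ α n`, `b_n ↦ β n`. -/
def sgHom (α β : ℕ → H) (h : Pr (fun n => cm (α n) (β n)) g = 1) : SG g →* H :=
  PresentedGroup.toGroup (f := fun p : Fin g × Bool => if p.2 then β p.1 else α p.1) (by
    intro r hr
    rw [Set.mem_singleton_iff] at hr
    rw [hr, map_list_prod, List.map_ofFn]
    have : (⇑(FreeGroup.lift fun p : Fin g × Bool => if p.2 = true then β p.1 else α p.1) ∘
        fun i : Fin g => FreeGroup.of (i, false) * FreeGroup.of (i, true) * (FreeGroup.of (i, false))⁻¹ *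
          (FreeGroup.of (i, true))⁻¹) =
        fun i : Fin g => (fun n : ℕ => cm (α n) (β n)) i := by
      funext i
      simp [cm]
    rw [this]
    exact (ofFn_prod (fun n => cm (α n) (β n)) g).trans h)

theorem sgHom_a (α β : ℕ → H) (h : Pr (fun n => cm (α n) (β n)) g = 1) {n : ℕ} (hn : n < g) :
    sgHom α β h (av g n) = α n := by
  rw [av, dif_pos hn, sgHom, PresentedGroup.toGroup.of]
  simp

theorem sgHom_b (α β : ℕ → H) (h : Pr (fun n => cm (α n) (β n)) g = 1) {n : ℕ} (hn : n < g) :
    sgHom α β h (bv g n) = β n := by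
  rw [bv, dif_pos hn, sgHom, PresentedGroup.toGroup.of]
  simp

theorem sg_ext {f k : SG g →* H} (h : ∀ n < g, f (av g n) = k (av g n) ∧ f (bv g n) = k (bv g n)) : f = k := by
  apply PresentedGroup.ext
  rintro ⟨i, c⟩
  have h1 := h i i.2
  rw [av, bv, dif_pos i.2, dif_pos i.2] at h1
  cases c
  · exact h1.1
  · exact h1.2

/-- The homomorphism on the free group with given values. -/
def l5 (x a b c d : H) : M →* H := FreeGroup.lift ![x, a, b, c, d]

variable (x a b c d : H)
@[simp] theorem l5_x : l5 x a b c d gx = x := by simp [l5, gx]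
@[simp] theorem l5_a : l5 x a b c d ga = a := by simp [l5, ga]
@[simp] theorem l5_b : l5 x a b c d gb = b := by simp [l5, gb]
@[simp] theorem l5_c : l5 x a b c d gc = c := by simp [l5, gc]
@[simp] theorem l5_d : l5 x a b c d gd = d := by simp [l5, gd]

end

/-- Automorphisms from endomorphisms. -/
def autOfEnd {G π : Type*} [Group G] [Group π] (Φ : G → (π →* π)) (h1 : Φ 1 = MonoidHom.id π)
    (h2 : ∀ a b, Φ (a * b) = (Φ a).comp (Φ b)) : G →* MulAut π where
  toFun a := MonoidHom.toMulEquiv (Φ a) (Φ a⁻¹) (by rw [← h2, inv_mul_cancel, h1]) (by rw [← h2, mul_inv_cancel, h1])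
  map_one' := by
    ext z
    change Φ 1 z = z
    rw [h1]
    rfl
  map_mul' a b := by
    ext z
    change Φ (a * b) z = Φ a (Φ b z)
    rw [h2]
    rfl

theorem autOfEnd_apply {G π : Type*} [Group G] [Group π] (Φ : G → (π →* π)) (h1) (h2) (a : G) (z : π) :
    autOfEnd Φ h1 h2 a z = Φ a z := rfl

end Pool.Agent.MCG51
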