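import Pool.Agent.MCG51.LemH

/-!
The homomorphism of `FreeSet` (Hölder): floor function, powers, limit.
-/

set_option autoImplicit false

open Set Filter Topology

namespace Pool.Agent.MCG51

namespace FreeSet

variable {A : Subgroup (ℝ ≃o ℝ)} {I L : Set ℝ}

theorem mul_app (g k : ℝ ≃o ℝ) (x : ℝ) : (g * k) x = g (k x) := rfl

/-- the floor exists -/
theorem floor_exists (hI : I.OrdConnected) (h : FreeSet A I L) {u : ℝ ≃o ℝ} (hu : u ∈ A) {x : ℝ} (hx : x ∈ L)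
    (hux : x < u x) {g : ℝ ≃o ℝ} (hg : g ∈ A) :
    ∃ p : ℤ, (u ^ p) x ≤ g x ∧ g x < (u ^ (p + 1)) x := by
  have hmono : ∀ p q : ℤ, p ≤ q → (u ^ p) x ≤ (u ^ q) x := by
    intro p q hpq
    obtain ⟨n, rfl⟩ := Int.le.dest hpq
    induction n with
    | zero => simp
    | succ n ih =>
      refine (ih (by omega)).trans ?_
      have h1 : (u ^ (p + (n : ℤ))) x ∈ L := h.inv _ (A.zpow_mem hu _) x hx
      have h2 : (u ^ (p + (n : ℤ))) x < u ((u ^ (p + (n : ℤ))) x) := h.sign hI hu hx h1 hux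
      have h3 : (u ^ (p + ((n + 1 : ℕ) : ℤ))) x = u ((u ^ (p + (n : ℤ))) x) := by
        rw [← mul_app, ← zpow_one_add]
        congr 2
        push_cast
        ring
      rw [h3]
      exact h2.le
  obtain ⟨n, hn⟩ := h.cofinal hI hu hx (h.inv g hg x hx) hux
  -- lower bound
  have hlow : ∃ m : ℕ, (u ^ (-(m : ℤ))) x ≤ g x := by
    obtain ⟨m, hm⟩ := h.cofinal hI hu (h.inv g hg x hx) hx (h.sign hI hu hx (h.inv g hg x hx) hux)
    refine ⟨m, ?_⟩
    have h1 := (u ^ (-(m : ℤ))).strictMono hm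
    have h2 : (u ^ (-(m : ℤ))) ((u ^ m) (g x)) = g x := by
      rw [← mul_app, ← zpow_natCast u m, ← zpow_add]
      simp
    rw [h2] at h1
    exact h1.le
  obtain ⟨m, hm⟩ := hlow
  have hbd : ∀ z : ℤ, (u ^ z) x ≤ g x → z ≤ (n : ℤ) := by
    intro z hz
    by_contra hc
    have h1 := hmono n z (not_le.mp hc).le
    rw [zpow_natCast] at h1
    exact absurd (h1.trans hz) (not_le.mpr hn)
  obtain ⟨p, hp, hmax⟩ := Int.exists_greatest_of_bdd (P := fun z => (u ^ z) x ≤ g x) ⟨n, hbd⟩ ⟨-(m : ℤ), hm⟩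
  refine ⟨p, hp, ?_⟩
  by_contra hc
  have := hmax (p + 1) (not_lt.mp hc)
  omega

/-- the floor of `g` -/
noncomputable def fl (hI : I.OrdConnected) (h : FreeSet A I L) {u : ℝ ≃o ℝ} (hu : u ∈ A) {x : ℝ} (hx : x ∈ L)
    (hux : x < u x) (g : A) : ℤ := (h.floor_exists hI hu hx hux g.2).choose

section

variable (hI : I.OrdConnected) (h : FreeSet A I L) {u : ℝ ≃o ℝ} (hu : u ∈ A) {x : ℝ} (hx : x ∈ L)
    (hux : x < u x)

theorem fl_le (g : A) : (u ^ (h.fl hI hu hx hux g)) x ≤ g.1 x :=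
  (h.floor_exists hI hu hx hux g.2).choose_spec.1

theorem lt_fl (g : A) : g.1 x < (u ^ (h.fl hI hu hx hux g + 1)) x :=
  (h.floor_exists hI hu hx hux g.2).choose_spec.2

include hI h hu hx hux in
theorem zpow_lt {p q : ℤ} (hlt : (u ^ p) x < (u ^ q) x) : p < q := by
  by_contra hc
  have hpq := not_lt.mp hc
  obtain ⟨n, rfl⟩ := Int.le.dest hpq
  clear hc hpq
  have : (u ^ q) x ≤ (u ^ (q + (n : ℤ))) x := by
    induction n with
    | zero => simp
    | succ n ih =>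
      rcases lt_or_ge ((u ^ (q + (n : ℤ))) x) ((u ^ q) x) with h0 | h0
      · exact absurd (ih h0) (not_le.mpr h0)
      · refine h0.trans ?_
        have h1 : (u ^ (q + (n : ℤ))) x ∈ L := h.inv _ (A.zpow_mem hu _) x hx
        have h2 : (u ^ (q + (n : ℤ))) x < u ((u ^ (q + (n : ℤ))) x) := h.sign hI hu hx h1 hux
        have h3 : (u ^ (q + ((n + 1 : ℕ) : ℤ))) x = u ((u ^ (q + (n : ℤ))) x) := by
          rw [← mul_app, ← zpow_one_add]
          congr 2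
          push_cast
          ring
        rw [h3]
        exact h2.le
  exact absurd hlt (not_lt.mpr this)

theorem le_fl {g : A} {p : ℤ} (hp : (u ^ p) x ≤ g.1 x) : p ≤ h.fl hI hu hx hux g := by
  have h1 := hp.trans_lt (h.lt_fl hI hu hx hux g)
  have h2 := zpow_lt hI h hu hx hux h1
  omega

theorem fl_lt {g : A} {p : ℤ} (hp : g.1 x < (u ^ p) x) : h.fl hI hu hx hux g < p := by
  have h1 := (h.fl_le hI hu hx hux g).trans_lt hp
  exact zpow_lt hI h hu hx hux h1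

theorem fl_mono {g k : A} (hgk : g.1 x ≤ k.1 x) : h.fl hI hu hx hux g ≤ h.fl hI hu hx hux k :=
  h.le_fl hI hu hx hux ((h.fl_le hI hu hx hux g).trans hgk)

theorem comm_zpow {g : ℝ ≃o ℝ} (hc : g * u = u * g) (p : ℤ) (y : ℝ) : g ((u ^ p) y) = (u ^ p) (g y) := by
  rw [← mul_app, ← mul_app]
  have : Commute g u := hc
  rw [(this.zpow_right p).eq]

variable (hc : ∀ g ∈ A, g * u = u * g)

include hc in
theorem add_le (g k : A) : h.fl hI hu hx hux g + h.fl hI hu hx hux k ≤ h.fl hI hu hx hux (g * k) := by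
  apply h.le_fl hI hu hx hux
  have h1 := g.1.monotone (h.fl_le hI hu hx hux k)
  rw [comm_zpow (hc g.1 g.2)] at h1
  have h2 := (u ^ (h.fl hI hu hx hux k)).monotone (h.fl_le hI hu hx hux g)
  rw [← mul_app, ← zpow_add, add_comm] at h2
  exact h2.trans h1

include hc in
theorem le_add (g k : A) : h.fl hI hu hx hux (g * k) ≤ h.fl hI hu hx hux g + h.fl hI hu hx hux k + 1 := by
  have h1 := g.1.strictMono (h.lt_fl hI hu hx hux k)
  rw [comm_zpow (hc g.1 g.2)] at h1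
  have h2 := (u ^ (h.fl hI hu hx hux k + 1)).strictMono (h.lt_fl hI hu hx hux g)
  rw [← mul_app (u ^ (h.fl hI hu hx hux k + 1)) (u ^ (h.fl hI hu hx hux g + 1)), ← zpow_add] at h2
  have h3 : (g * k).1 x < (u ^ (h.fl hI hu hx hux k + 1 + (h.fl hI hu hx hux g + 1))) x := h1.trans h2
  have := h.fl_lt hI hu hx hux h3
  omega

/-- `h ^ n g ≤ g h ^ n` on `L` if `h g ≤ g h` on `L`. -/
theorem pow_move {g k : ℝ ≃o ℝ} (hg : g ∈ A) (hk : k ∈ A) (h : FreeSet A I L)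
    (hle : ∀ y ∈ L, k (g y) ≤ g (k y)) (n : ℕ) : ∀ y ∈ L, (k ^ n) (g y) ≤ g ((k ^ n) y) := by
  induction n with
  | zero => intro y _; simp
  | succ n ih =>
    intro y hy
    have h1 : (k ^ (n + 1)) (g y) = k ((k ^ n) (g y)) := by rw [pow_succ', mul_app]
    have h2 : (k ^ (n + 1)) y = k ((k ^ n) y) := by rw [pow_succ', mul_app]
    rw [h1, h2]
    exact (k.monotone (ih y hy)).trans (hle _ (h.inv _ (A.pow_mem hk n) y hy))

theorem pow_mul_le {g k : ℝ ≃o ℝ} (hg : g ∈ A) (hk : k ∈ A) (h : FreeSet A I L)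
    (hle : ∀ y ∈ L, k (g y) ≤ g (k y)) (n : ℕ) : ∀ y ∈ L, ((g * k) ^ n) y ≤ (g ^ n) ((k ^ n) y) := by
  induction n with
  | zero => intro y _; simp
  | succ n ih =>
    intro y hy
    have h1 : ((g * k) ^ (n + 1)) y = ((g * k) ^ n) (g (k y)) := by rw [pow_succ, mul_app, mul_app]
    rw [h1]
    refine (ih _ (h.inv g hg _ (h.inv k hk y hy))).trans ?_
    have h2 := pow_move hg hk h hle n (k y) (h.inv k hk y hy)
    have h3 := (g ^ n).monotone h2
    have h4 : (g ^ (n + 1)) ((k ^ (n + 1)) y) = (g ^ n) (g ((k ^ n) (k y))) := by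
      rw [pow_succ g, pow_succ k, mul_app, mul_app]
    rw [h4]
    exact h3

theorem le_pow_mul {g k : ℝ ≃o ℝ} (hg : g ∈ A) (hk : k ∈ A) (h : FreeSet A I L)
    (hle : ∀ y ∈ L, k (g y) ≤ g (k y)) (n : ℕ) : ∀ y ∈ L, (k ^ n) ((g ^ n) y) ≤ ((g * k) ^ n) y := by
  induction n with
  | zero => intro y _; simp
  | succ n ih =>
    intro y hy
    have h1 : ((g * k) ^ (n + 1)) y = g (k (((g * k) ^ n) y)) := by rw [pow_succ', mul_app, mul_app]
    rw [h1]
    have h2 := g.monotone (k.monotone (ih y hy))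
    refine le_trans ?_ h2
    have hgn : (g ^ n) y ∈ L := h.inv _ (A.pow_mem hg n) y hy
    have h3 := pow_move hg hk h hle (n + 1) _ hgn
    have h4 : (k ^ (n + 1)) ((g ^ (n + 1)) y) = (k ^ (n + 1)) (g ((g ^ n) y)) := by rw [pow_succ' g, mul_app]
    have h5 : g (k ((k ^ n) ((g ^ n) y))) = g ((k ^ (n + 1)) ((g ^ n) y)) := by rw [pow_succ' k, mul_app]
    rw [h4, h5]
    exact h3

include hc in
theorem pow_close (g k : A) (n : ℕ) :
    h.fl hI hu hx hux (g ^ n) + h.fl hI hu hx hux (k ^ n) ≤ h.fl hI hu hx hux ((g * k) ^ n) ∧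
    h.fl hI hu hx hux ((g * k) ^ n) ≤ h.fl hI hu hx hux (g ^ n) + h.fl hI hu hx hux (k ^ n) + 1 := by
  have key : ∀ a b : A, (∀ y ∈ L, b.1 (a.1 y) ≤ a.1 (b.1 y)) →
      h.fl hI hu hx hux (a ^ n) + h.fl hI hu hx hux (b ^ n) ≤ h.fl hI hu hx hux ((a * b) ^ n) ∧
      h.fl hI hu hx hux ((a * b) ^ n) ≤ h.fl hI hu hx hux (a ^ n) + h.fl hI hu hx hux (b ^ n) + 1 := by
    intro a b hab
    constructor
    · have h1 := h.add_le hI hu hx hux hc (b ^ n) (a ^ n)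
      have h2 : h.fl hI hu hx hux (b ^ n * a ^ n) ≤ h.fl hI hu hx hux ((a * b) ^ n) := by
        apply h.fl_mono hI hu hx hux
        have := le_pow_mul a.2 b.2 h hab n x hx
        simpa using this
      omega
    · have h1 := h.le_add hI hu hx hux hc (a ^ n) (b ^ n)
      have h2 : h.fl hI hu hx hux ((a * b) ^ n) ≤ h.fl hI hu hx hux (a ^ n * b ^ n) := by
        apply h.fl_mono hI hu hx hux
        have := pow_mul_le a.2 b.2 h hab n x hx
        simpa using this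
      omega
  -- the case of the other order: work with the opposite inequality
  have key2 : ∀ a b : A, (∀ y ∈ L, a.1 (b.1 y) ≤ b.1 (a.1 y)) →
      h.fl hI hu hx hux (a ^ n) + h.fl hI hu hx hux (b ^ n) ≤ h.fl hI hu hx hux ((a * b) ^ n) ∧
      h.fl hI hu hx hux ((a * b) ^ n) ≤ h.fl hI hu hx hux (a ^ n) + h.fl hI hu hx hux (b ^ n) + 1 := by
    intro a b hab
    -- inverses
    have hinv : ∀ y ∈ L, (a⁻¹).1 ((b⁻¹).1 y) ≤ (b⁻¹).1 ((a⁻¹).1 y) := by
      intro y hy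
      have h1 : (a⁻¹).1 ((b⁻¹).1 y) ∈ L := h.inv _ (a⁻¹).2 _ (h.inv _ (b⁻¹).2 y hy)
      have h2 := hab _ h1
      have e1 : b.1 (a.1 ((a⁻¹).1 ((b⁻¹).1 y))) = y := by
        have : (b.1 * a.1 * (a⁻¹).1 * (b⁻¹).1) y = y := by simp
        exact this
      rw [e1] at h2
      have h3 := ((b⁻¹).1).monotone ((a⁻¹).1.monotone h2)
      have e2 : (b⁻¹).1 ((a⁻¹).1 (a.1 (b.1 ((a⁻¹).1 ((b⁻¹).1 y))))) = (a⁻¹).1 ((b⁻¹).1 y) := by
        have : ((b⁻¹).1 * (a⁻¹).1 * a.1 * b.1) ((a⁻¹).1 ((b⁻¹).1 y)) = (a⁻¹).1 ((b⁻¹).1 y) := by simp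
        exact this
      rw [e2] at h3
      exact h3
    have hA := pow_mul_le (b⁻¹).2 (a⁻¹).2 h hinv n
    have hB := le_pow_mul (b⁻¹).2 (a⁻¹).2 h hinv n
    -- (b⁻¹ a⁻¹)^n ≤ b⁻ⁿ a⁻ⁿ, i.e. aⁿ bⁿ ≤ (ab)ⁿ
    have hC : ∀ y ∈ L, (a.1 ^ n) ((b.1 ^ n) y) ≤ ((a.1 * b.1) ^ n) y := by
      intro y hy
      have hz : ((a.1 * b.1) ^ n) y ∈ L := h.inv _ (A.pow_mem (A.mul_mem a.2 b.2) n) y hy
      have h1 := hA _ hz
      have e1 : (((b⁻¹).1 * (a⁻¹).1) ^ n) (((a.1 * b.1) ^ n) y) = y := by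
        have : (((b⁻¹).1 * (a⁻¹).1) ^ n * (a.1 * b.1) ^ n) y = y := by
          have e0 : (b⁻¹).1 * (a⁻¹).1 = (a.1 * b.1)⁻¹ := by simp
          rw [e0, inv_pow, inv_mul_cancel]
          rfl
        exact this
      rw [e1] at h1
      have h2 := (a.1 ^ n).monotone ((b.1 ^ n).monotone h1)
      have e2 : (a.1 ^ n) ((b.1 ^ n) (((b⁻¹).1 ^ n) (((a⁻¹).1 ^ n) (((a.1 * b.1) ^ n) y)))) =
          ((a.1 * b.1) ^ n) y := by
        have : (a.1 ^ n * b.1 ^ n * (b⁻¹).1 ^ n * (a⁻¹).1 ^ n) (((a.1 * b.1) ^ n) y) = ((a.1 * b.1) ^ n) y := by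
          simp
        exact this
      rw [e2] at h2
      exact h2
    have hD : ∀ y ∈ L, ((a.1 * b.1) ^ n) y ≤ (b.1 ^ n) ((a.1 ^ n) y) := by
      intro y hy
      have hz : (b.1 ^ n) ((a.1 ^ n) y) ∈ L := h.inv _ (A.pow_mem b.2 n) _ (h.inv _ (A.pow_mem a.2 n) y hy)
      have h1 := hB _ hz
      have e1 : ((a⁻¹).1 ^ n) (((b⁻¹).1 ^ n) ((b.1 ^ n) ((a.1 ^ n) y))) = y := by
        have : ((a⁻¹).1 ^ n * (b⁻¹).1 ^ n * b.1 ^ n * a.1 ^ n) y = y := by simp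
        exact this
      rw [e1] at h1
      have h2 := ((a.1 * b.1) ^ n).monotone h1
      have e2 : ((a.1 * b.1) ^ n) ((((b⁻¹).1 * (a⁻¹).1) ^ n) ((b.1 ^ n) ((a.1 ^ n) y))) =
          (b.1 ^ n) ((a.1 ^ n) y) := by
        have : ((a.1 * b.1) ^ n * ((b⁻¹).1 * (a⁻¹).1) ^ n) ((b.1 ^ n) ((a.1 ^ n) y)) =
            (b.1 ^ n) ((a.1 ^ n) y) := by
          have e0 : (b⁻¹).1 * (a⁻¹).1 = (a.1 * b.1)⁻¹ := by simp
          rw [e0, inv_pow, mul_inv_cancel]
          rfl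
        exact this
      rw [e2] at h2
      exact h2
    constructor
    · have h1 := h.add_le hI hu hx hux hc (a ^ n) (b ^ n)
      have h2 : h.fl hI hu hx hux (a ^ n * b ^ n) ≤ h.fl hI hu hx hux ((a * b) ^ n) := by
        apply h.fl_mono hI hu hx hux
        have := hC x hx
        simpa using this
      omega
    · have h1 := h.le_add hI hu hx hux hc (b ^ n) (a ^ n)
      have h2 : h.fl hI hu hx hux ((a * b) ^ n) ≤ h.fl hI hu hx hux (b ^ n * a ^ n) := by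
        apply h.fl_mono hI hu hx hux
        have := hD x hx
        simpa using this
      omega
  rcases le_total (k.1 (g.1 x)) (g.1 (k.1 x)) with h0 | h0
  · refine key g k (fun y hy => ?_)
    exact h.le_of_le hI (A.mul_mem k.2 g.2) (A.mul_mem g.2 k.2) hx hy h0
  · refine key2 g k (fun y hy => ?_)
    exact h.le_of_le hI (A.mul_mem g.2 k.2) (A.mul_mem k.2 g.2) hx hy h0

end

end FreeSet

end Pool.Agent.MCG51
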