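import Pool.Agent.MCG51.Act2
import Pool.Agent.MCG51.Line2

/-!
The Dehn twists, and the two commuting groups that contain them.
-/

set_option autoImplicit false

namespace Pool.Agent.MCG51

/-- `T` is the twist about the separating curve `c = [a_0, b_0] ⋯ [a_(h-1), b_(h-1)]`: it conjugates the
generators of the first `h` handles by `c` and fixes the other generators. -/
structure SepTwist (g h : ℕ) (T : MulAut (SG g)) : Prop where
  inside : ∀ k < h, T (av g k) = Pr (kap g) h * av g k * (Pr (kap g) h)⁻¹ ∧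
    T (bv g k) = Pr (kap g) h * bv g k * (Pr (kap g) h)⁻¹
  outside : ∀ k, h ≤ k → T (av g k) = av g k ∧ T (bv g k) = bv g k

/-- `T` is the twist about the nonseparating curve `a_2`: it maps `b_2` to `b_2 a_2⁻¹` and fixes the other
generators. -/
structure NonsepTwist (g : ℕ) (T : MulAut (SG g)) : Prop where
  a : ∀ k, T (av g k) = av g k
  b2 : T (bv g 2) = bv g 2 * (av g 2)⁻¹
  b : ∀ k, k ≠ 2 → T (bv g k) = bv g k

theorem sides_of_homs {G : Type*} [Group G] {Ψ₁ Ψ₂ : MM →* G} (hc : ∀ m n, Ψ₁ m * Ψ₂ n = Ψ₂ n * Ψ₁ m) {t : G}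
    (m₁ m₂ : MM) (h1 : Ψ₁ m₁ = t) (h2 : Ψ₂ m₂ = t) (c1 : m₁ ^ 4 ∈ commutator MM) (c2 : m₂ ^ 4 ∈ commutator MM) :
    TwoSides Ψ₁.range Ψ₂.range t where
  comm := by
    rintro _ ⟨a, rfl⟩ _ ⟨b, rfl⟩
    exact hc a b
  mem₁ := ⟨m₁, h1⟩
  mem₂ := ⟨m₂, h2⟩
  com₁ := by
    rw [MonoidHom.range_eq_map, ← Subgroup.map_commutator, ← h1, ← map_pow]
    exact ⟨m₁ ^ 4, c1, rfl⟩
  com₂ := by
    rw [MonoidHom.range_eq_map, ← Subgroup.map_commutator, ← h2, ← map_pow]
    exact ⟨m₂ ^ 4, c2, rfl⟩

theorem eE_left : eE.1.left = gx⁻¹ := rfl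
theorem eE_right (z : M) : eE.1.right z = z := rfl
theorem eC_left : eC.1.left = gw⁻¹ := rfl
theorem eC_a : eC.1.right ga = gw * ga * gw⁻¹ := by
  change aC ga = _
  rw [aC, mkAut_apply, lf_a]
  rfl
theorem eC_b : eC.1.right gb = gw * gb * gw⁻¹ := by
  change aC gb = _
  rw [aC, mkAut_apply, lf_b]
  rfl
theorem eC_c : eC.1.right gc = gw * gc * gw⁻¹ := by
  change aC gc = _
  rw [aC, mkAut_apply, lf_c]
  rfl
theorem eC_d : eC.1.right gd = gw * gd * gw⁻¹ := by
  change aC gd = _
  rw [aC, mkAut_apply, lf_d]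
  rfl

theorem io_a (g j : ℕ) : io g j ga = av g j := by simp [io]
theorem io_b (g j : ℕ) : io g j gb = bv g j := by simp [io]
theorem io_c (g j : ℕ) : io g j gc = av g (j + 1) := by simp [io]
theorem io_d (g j : ℕ) : io g j gd = bv g (j + 1) := by simp [io]
theorem io_x (g j : ℕ) : io g j gx = Pr (kap g) j := by simp [io]

/-- The separating twist as the image of the twist about the inner boundary. -/
theorem sepTwist_in {g h : ℕ} (hh : h + 2 ≤ g) : SepTwist g h (psi hh eE) where
  inside := by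
    intro k hk
    rw [psi_a, psi_b, al, be, if_pos hk, if_pos hk, eE_left, map_inv, inv_inv, io_x]
    exact ⟨rfl, rfl⟩
  outside := by
    intro k hk
    rw [psi_a, psi_b, al, be]
    simp only [eE_right, io_a, io_b, io_c, io_d]
    constructor
    · split_ifs with h0 h1 h2
      · omega
      · rw [h1]
      · rw [h2]
      · rfl
    · split_ifs with h0 h1 h2
      · omega
      · rw [h1]
      · rw [h2]
      · rfl

/-- The separating twist as the image of the twist about the outer boundary. -/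
theorem sepTwist_out {g j : ℕ} (hj : j + 2 ≤ g) : SepTwist g (j + 2) (psi hj eC) where
  inside := by
    intro k hk
    rw [psi_a, psi_b, al, be]
    simp only [eC_left, eC_a, eC_b, eC_c, eC_d, map_mul, map_inv, io_a, io_b, io_c, io_d, io_gw, inv_inv]
    constructor
    · split_ifs with h1 h2 h3
      · rfl
      · rw [h2]
      · rw [h3]
      · omega
    · split_ifs with h1 h2 h3
      · rfl
      · rw [h2]
      · rw [h3]
      · omega
  outside := by
    intro k hk
    rw [psi_a, psi_b, al, be, if_neg (by omega), if_neg (by omega), if_neg (by omega), if_neg (by omega),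
      if_neg (by omega), if_neg (by omega)]
    exact ⟨rfl, rfl⟩

theorem SepTwist.unique {g h : ℕ} {S T : MulAut (SG g)} (hS : SepTwist g h S) (hT : SepTwist g h T) : S = T := by
  apply aut_ext
  intro n _
  by_cases hn : n < h
  · rw [(hS.inside n hn).1, (hT.inside n hn).1, (hS.inside n hn).2, (hT.inside n hn).2]
    exact ⟨rfl, rfl⟩
  · rw [(hS.outside n (by omega)).1, (hT.outside n (by omega)).1, (hS.outside n (by omega)).2,
      (hT.outside n (by omega)).2]
    exact ⟨rfl, rfl⟩

theorem NonsepTwist.unique {g : ℕ} {S T : MulAut (SG g)} (hS : NonsepTwist g S) (hT : NonsepTwist g T) : S = T := by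
  apply aut_ext
  intro n _
  rw [hS.a, hT.a]
  refine ⟨rfl, ?_⟩
  by_cases hn : n = 2
  · rw [hn, hS.b2, hT.b2]
  · rw [hS.b n hn, hT.b n hn]

theorem nonsep_r {g : ℕ} (hg : 5 ≤ g) : NonsepTwist g (psr hg eE) where
  a := by
    intro k
    rw [psr_a, ar, eE_right, eE_right, ir_a, ir_c]
    split_ifs with h1 h2
    · rw [h1]
    · rw [h2]
    · rfl
  b2 := by
    rw [psr_b, br, if_pos rfl, eE_left, map_inv, inv_inv, ir_x]
    group
  b := by
    intro k hk
    rw [psr_b, br, if_neg hk, eE_right, eE_right, ir_b, ir_d]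
    split_ifs with h1 h2
    · rw [h1]
    · rw [h2]
    · rfl

theorem nonsep_l {g : ℕ} (hg : 5 ≤ g) : psl hg eE⁻¹ = psr hg eE := by
  rw [map_inv]
  apply inv_eq_of_mul_eq_one_right
  apply aut_ext
  intro k _
  rw [MulAut.mul_apply, MulAut.mul_apply, (nonsep_r hg).a, MulAut.one_apply, MulAut.one_apply]
  constructor
  · rw [psl_a, aL, eE_right, eE_right, il_b, il_d, eE_left, map_inv, inv_inv, il_x]
    split_ifs with h1 h2 h3
    · rw [h1]; group
    · rw [h2]
    · rw [h3]
    · rfl
  · by_cases hk : k = 2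
    · subst hk
      rw [(nonsep_r hg).b2, map_mul, map_inv, psl_a, psl_b, aL, bL, if_pos rfl, if_pos rfl, eE_left, map_inv,
        inv_inv, il_x]
      group
    · rw [(nonsep_r hg).b k hk, psl_b, bL, if_neg hk, eE_right, eE_right, il_a, il_c]
      split_ifs with h2 h3
      · rw [h2]
      · rw [h3]
      · rfl

theorem inv_four : (eE⁻¹) ^ 4 ∈ commutator MM := by
  rw [inv_pow]
  exact Subgroup.inv_mem _ comm_four.1

/-- The two commuting groups for the image of the separating twist under any homomorphism `q`. -/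
theorem sep_sides {g h : ℕ} (h2 : 2 ≤ h) (hh : h + 2 ≤ g) {T : MulAut (SG g)} (hT : SepTwist g h T)
    {G : Type*} [Group G] (q : MulAut (SG g) →* G) : ∃ G₁ G₂ : Subgroup G, TwoSides G₁ G₂ (q T) := by
  obtain ⟨j, rfl⟩ : ∃ j, h = j + 2 := ⟨h - 2, by omega⟩
  have hj : j + 2 ≤ g := by omega
  refine ⟨(q.comp (psi hj)).range, (q.comp (psi hh)).range, sides_of_homs (fun m n => ?_) eC eE ?_ ?_
    comm_four.2 comm_four.1⟩
  · rw [MonoidHom.comp_apply, MonoidHom.comp_apply, ← map_mul, ← map_mul, psi_comm]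
  · rw [MonoidHom.comp_apply, (sepTwist_out hj).unique hT]
  · rw [MonoidHom.comp_apply, (sepTwist_in hh).unique hT]

/-- The two commuting groups for the image of the nonseparating twist under any homomorphism `q`. -/
theorem nonsep_sides {g : ℕ} (hg : 5 ≤ g) {T : MulAut (SG g)} (hT : NonsepTwist g T)
    {G : Type*} [Group G] (q : MulAut (SG g) →* G) : ∃ G₁ G₂ : Subgroup G, TwoSides G₁ G₂ (q T) := by
  refine ⟨(q.comp (psl hg)).range, (q.comp (psr hg)).range, sides_of_homs (fun m n => ?_) eE⁻¹ eE ?_ ?_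
    inv_four comm_four.1⟩
  · rw [MonoidHom.comp_apply, MonoidHom.comp_apply, ← map_mul, ← map_mul, ps_comm]
  · rw [MonoidHom.comp_apply, nonsep_l, (nonsep_r hg).unique hT]
  · rw [MonoidHom.comp_apply, (nonsep_r hg).unique hT]

end Pool.Agent.MCG51
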